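import Mathlib

set_option autoImplicit false

/-! The exceptional conductors. Adapted from `T6/H3/FR/D6`. -/

namespace Pool.Agent.H579.L

open Finset

/-- the primitive character `ψ` is bad for the property `E` -/
def BadE (N : ℕ) (E : (d : ℕ) → DirichletCharacter ℂ d → Prop) (d : ℕ) (ψ : DirichletCharacter ℂ d) : Prop :=
  1 ≤ d ∧ d ≤ N ∧ ψ.IsPrimitive ∧ E d ψ

open Classical in
/-- the bad conductors larger than `(log N) ^ K` -/
noncomputable def E1 (N K : ℕ) (E : (d : ℕ) → DirichletCharacter ℂ d → Prop) : Finset ℕ :=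
  (Icc 1 N).filter (fun d => Real.log N ^ K < (d : ℝ) ∧ ∃ ψ : DirichletCharacter ℂ d, BadE N E d ψ)

open Classical in
/-- the exceptional integers -/
noncomputable def E2 (N K C : ℕ) (E : (d : ℕ) → DirichletCharacter ℂ d → Prop) : Finset ℕ :=
  (E1 N K E ×ˢ range ⌊Real.log N ^ C⌋₊).image (fun p => p.1 / Nat.gcd p.1 (p.2 + 1))

lemma E1_card {N C₄ : ℕ} {E : (d : ℕ) → DirichletCharacter ℂ d → Prop} (K : ℕ)
    (h : ∀ Ψ : Finset (Σ f : ℕ, DirichletCharacter ℂ f),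
    (∀ ψ ∈ Ψ, BadE N E ψ.1 ψ.2) → (Ψ.card : ℝ) ≤ Real.log N ^ C₄) :
    ((E1 N K E).card : ℝ) ≤ Real.log N ^ C₄ := by
  classical
  have hch : ∀ d : ℕ, ∃ ψ : DirichletCharacter ℂ d, d ∈ E1 N K E → BadE N E d ψ := by
    intro d
    by_cases hd : d ∈ E1 N K E
    · unfold E1 at hd
      rw [mem_filter] at hd
      obtain ⟨ψ, hψ⟩ := hd.2.2
      exact ⟨ψ, fun _ => hψ⟩
    · exact ⟨1, fun h => absurd h hd⟩
  choose f hf using hch
  have h1 := h ((E1 N K E).image (fun d => (⟨d, f d⟩ : Σ f : ℕ, DirichletCharacter ℂ f))) (by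
    intro ψ hψ
    rw [mem_image] at hψ
    obtain ⟨d, hd, rfl⟩ := hψ
    exact hf d hd)
  rw [card_image_of_injOn (fun d _ d' _ h => congrArg Sigma.fst h)] at h1
  exact h1

lemma E2_card {N K C C₄ : ℕ} {E : (d : ℕ) → DirichletCharacter ℂ d → Prop} (hL : 1 ≤ Real.log N)
    (h : ((E1 N K E).card : ℝ) ≤ Real.log N ^ C₄) :
    ((E2 N K C E).card : ℝ) ≤ Real.log N ^ (C₄ + C) := by
  classical
  have h1 : (E2 N K C E).card ≤ (E1 N K E).card * ⌊Real.log N ^ C⌋₊ := by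
    unfold E2
    refine card_image_le.trans ?_
    rw [card_product, card_range]
  have h2 : ((E2 N K C E).card : ℝ) ≤ ((E1 N K E).card : ℝ) * (⌊Real.log N ^ C⌋₊ : ℕ) := by
    exact_mod_cast h1
  refine h2.trans ?_
  rw [pow_add]
  exact mul_le_mul h (Nat.floor_le (by positivity)) (Nat.cast_nonneg _) (by positivity)

lemma E2_large {N K C A₀ : ℕ} {E : (d : ℕ) → DirichletCharacter ℂ d → Prop} (hL : 1 ≤ Real.log N)
    (hK : K = A₀ + C) {d : ℕ} (hd : d ∈ E2 N K C E) : Real.log N ^ A₀ < (d : ℝ) := by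
  classical
  unfold E2 at hd
  rw [mem_image] at hd
  obtain ⟨⟨e, j⟩, he, rfl⟩ := hd
  rw [mem_product, mem_range] at he
  obtain ⟨he, hj⟩ := he
  simp only at he hj ⊢
  unfold E1 at he
  rw [mem_filter, mem_Icc] at he
  obtain ⟨⟨he1, -⟩, he2, -⟩ := he
  obtain ⟨g, hg⟩ : ∃ g, g = Nat.gcd e (j + 1) := ⟨_, rfl⟩
  rw [← hg]
  have hge : g ∣ e := by rw [hg]; exact Nat.gcd_dvd_left _ _
  have hgj : g ≤ j + 1 := by rw [hg]; exact Nat.gcd_le_right _ (Nat.succ_pos j)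
  have hg0 : 0 < g := Nat.pos_of_dvd_of_pos hge he1
  have hgr : (g : ℝ) ≤ Real.log N ^ C := by
    have h1 : j + 1 ≤ ⌊Real.log N ^ C⌋₊ := hj
    have h2 : ((j + 1 : ℕ) : ℝ) ≤ Real.log N ^ C := by
      refine le_trans ?_ (Nat.floor_le (show 0 ≤ Real.log N ^ C by positivity))
      exact_mod_cast h1
    exact le_trans (by exact_mod_cast hgj) h2
  have he3 : ((e / g : ℕ) : ℝ) * g = e := by
    exact_mod_cast Nat.div_mul_cancel hge
  have hgp : (0 : ℝ) < g := by exact_mod_cast hg0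
  have hLA : 0 < Real.log N ^ A₀ := by positivity
  rw [hK, pow_add] at he2
  by_contra hcon
  rw [not_lt] at hcon
  have : ((e / g : ℕ) : ℝ) * g ≤ Real.log N ^ A₀ * Real.log N ^ C := by
    apply mul_le_mul hcon hgr hgp.le hLA.le
  linarith

/-- moduli which are not divisible by an exceptional integer -/
lemma E2_reg {N K C q j d : ℕ} {E : (d : ℕ) → DirichletCharacter ℂ d → Prop} (hq : ∀ d ∈ E2 N K C E, ¬ d ∣ q)
    (hj : ((j + 1 : ℕ) : ℝ) ≤ Real.log N ^ C) (hd : d ∣ (j + 1) * q) : d ∉ E1 N K E := by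
  classical
  intro h
  apply hq (d / Nat.gcd d (j + 1))
  · unfold E2
    rw [mem_image]
    refine ⟨(d, j), ?_, rfl⟩
    rw [mem_product, mem_range]
    refine ⟨h, ?_⟩
    have : j + 1 ≤ ⌊Real.log N ^ C⌋₊ := Nat.le_floor hj
    simp only
    omega
  · have h2 : d / Nat.gcd d (j + 1) ∣ (j + 1) / Nat.gcd d (j + 1) * q := by
      have hg : 0 < Nat.gcd d (j + 1) := Nat.gcd_pos_of_pos_right _ (Nat.succ_pos j)
      obtain ⟨x, hx⟩ := Nat.gcd_dvd_left d (j + 1)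
      obtain ⟨y, hy⟩ := Nat.gcd_dvd_right d (j + 1)
      obtain ⟨g, hgd⟩ : ∃ g, g = Nat.gcd d (j + 1) := ⟨_, rfl⟩
      rw [← hgd] at hx hy hg ⊢
      rw [hx, Nat.mul_div_cancel_left x hg]
      rw [hy, Nat.mul_div_cancel_left y hg]
      rw [hx, hy, mul_assoc] at hd
      exact Nat.dvd_of_mul_dvd_mul_left hg hd
    have h3 : Nat.Coprime (d / Nat.gcd d (j + 1)) ((j + 1) / Nat.gcd d (j + 1)) :=
      Nat.coprime_div_gcd_div_gcd (Nat.gcd_pos_of_pos_right _ (Nat.succ_pos j))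
    exact h3.dvd_of_dvd_mul_left h2

/-- a primitive character modulo a conductor which is not exceptional is good -/
lemma E1_good {N K d : ℕ} {E : (d : ℕ) → DirichletCharacter ℂ d → Prop} (h : d ∉ E1 N K E)
    (hd : Real.log N ^ K < (d : ℝ)) (hd1 : 1 ≤ d) (hdN : d ≤ N) (ψ : DirichletCharacter ℂ d)
    (hψ : ψ.IsPrimitive) : ¬ E d ψ := by
  classical
  intro hE
  apply h
  unfold E1
  rw [mem_filter, mem_Icc]
  exact ⟨⟨hd1, hdN⟩, hd, ψ, hd1, hdN, hψ, hE⟩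

end Pool.Agent.H579.L
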