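import Pool.Agent.H579.L.Pdec
import Pool.Graph.R_seed8.Y697.GJ.LiftC
import Pool.Graph.R_seed8.Y872.GJ.Pars
import Pool.Graph.R_seed8.Y614.GJ.CoreC

set_option autoImplicit false

/-! Mean squares of correlations from the square mean over the classes. -/

namespace Pool.Agent.H579.L

open Finset
open Pool.Agent.Y883.GJ
open Pool.Agent.Y614.GJ.Core (P P_nonneg)
open Pool.Agent.Y614.GJ.CoreC (S_leC)

/-- correlation -/
noncomputable def cor (N : ℕ) (F G : ℕ → ℂ) (k : ℤ) : ℂ :=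
  ∑ b ∈ Icc 1 N, ∑ c ∈ Icc 1 N, if (b : ℤ) - c = k then F b * (starRingEnd ℂ) (G c) else 0

/-- in a residue class -/
lemma ms1 {q N : ℕ} [NeZero q] (hN : 1 ≤ N) (F G : ℕ → ℂ) {X : ℝ} (hX : ∀ β : ℝ, P q N F β ≤ X) (a : ZMod q) :
    ∑ k ∈ (Icc (-(N : ℤ)) N).filter (fun k : ℤ => (k : ZMod q) = a), ‖cor N F G k‖ ^ 2 ≤
      X * ∑ n ∈ Icc 1 N, ‖G n‖ ^ 2 := by
  have h1 := Pool.Agent.Y697.GJ.parsC q N F G hN a
  have h2 := (Pool.Agent.Y872.GJ.pars q N G G hN).2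
  have hD : (0 : ℝ) < ((2 * N + 1 : ℕ) : ℝ) := by positivity
  have h3 : ((2 * N + 1 : ℕ) : ℝ) * ∑ k ∈ (Icc (-(N : ℤ)) N).filter (fun k : ℤ => (k : ZMod q) = a),
      ‖cor N F G k‖ ^ 2 ≤ ((2 * N + 1 : ℕ) : ℝ) * (X * ∑ n ∈ Icc 1 N, ‖G n‖ ^ 2) := by
    unfold cor
    rw [h1]
    calc ∑ t ∈ range (2 * N + 1), ‖∑ l : ZMod q, cl q N F ((t : ℝ) / (2 * N + 1 : ℕ)) l *
        (starRingEnd ℂ) (cl q N G ((t : ℝ) / (2 * N + 1 : ℕ)) (l - a))‖ ^ 2 ≤
        ∑ t ∈ range (2 * N + 1), X * P q N G ((t : ℝ) / (2 * N + 1 : ℕ)) := by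
          refine sum_le_sum fun t _ => (S_leC q N F G _ a).trans ?_
          exact mul_le_mul_of_nonneg_right (hX _) (P_nonneg _ _ _ _)
      _ = X * ∑ t ∈ range (2 * N + 1), P q N G ((t : ℝ) / (2 * N + 1 : ℕ)) := by rw [mul_sum]
      _ = X * (((2 * N + 1 : ℕ) : ℝ) * ∑ n ∈ Icc 1 N, ‖G n‖ ^ 2) := by
          rw [← h2]
          rfl
      _ = _ := by ring
  exact le_of_mul_le_mul_left h3 hD

/-- a function on the multiples of `q` -/
lemma ms2 {q N : ℕ} [NeZero q] (hN : 1 ≤ N) (F G : ℕ → ℂ) {X : ℝ} (hX : ∀ β : ℝ, P q N F β ≤ X)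
    (hG : ∀ n, G n ≠ 0 → q ∣ n) :
    ∑ k ∈ Icc (-(N : ℤ)) N, ‖cor N F G k‖ ^ 2 ≤ X * ∑ n ∈ Icc 1 N, ‖G n‖ ^ 2 := by
  classical
  have h2 := (Pool.Agent.Y872.GJ.pars q N G G hN).2
  have hD : (0 : ℝ) < ((2 * N + 1 : ℕ) : ℝ) := by positivity
  have hcl : ∀ (β : ℝ) (l : ZMod q), l ≠ 0 → cl q N G β l = 0 := by
    intro β l hl
    unfold cl
    refine sum_eq_zero fun n hn => ?_
    rw [mem_filter] at hn
    have : G n = 0 := by
      by_contra h
      apply hl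
      rw [← hn.2, ZMod.natCast_eq_zero_iff]
      exact hG n h
    rw [this, zero_mul]
  have h3 : ∑ k ∈ Icc (-(N : ℤ)) N, ‖cor N F G k‖ ^ 2 =
      ∑ a : ZMod q, ∑ k ∈ (Icc (-(N : ℤ)) N).filter (fun k : ℤ => (k : ZMod q) = a), ‖cor N F G k‖ ^ 2 :=
    (sum_fiberwise_of_maps_to (fun k _ => mem_univ _) _).symm
  have h4 : ((2 * N + 1 : ℕ) : ℝ) * ∑ k ∈ Icc (-(N : ℤ)) N, ‖cor N F G k‖ ^ 2 ≤
      ((2 * N + 1 : ℕ) : ℝ) * (X * ∑ n ∈ Icc 1 N, ‖G n‖ ^ 2) := by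
    rw [h3, mul_sum]
    have h5 : ∀ a : ZMod q, ((2 * N + 1 : ℕ) : ℝ) * ∑ k ∈ (Icc (-(N : ℤ)) N).filter (fun k : ℤ => (k : ZMod q) = a),
        ‖cor N F G k‖ ^ 2 = ∑ t ∈ range (2 * N + 1), ‖cl q N F ((t : ℝ) / (2 * N + 1 : ℕ)) a‖ ^ 2 *
          ‖cl q N G ((t : ℝ) / (2 * N + 1 : ℕ)) 0‖ ^ 2 := by
      intro a
      have h1 := Pool.Agent.Y697.GJ.parsC q N F G hN a
      unfold cor
      rw [h1]
      refine sum_congr rfl fun t _ => ?_
      rw [sum_eq_single a]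
      · rw [sub_self, norm_mul, RCLike.norm_conj, mul_pow]
      · intro l _ hl
        rw [hcl _ (l - a) (sub_ne_zero.2 hl), map_zero, mul_zero]
      · intro h
        exact absurd (mem_univ _) h
    rw [sum_congr rfl fun a _ => h5 a, sum_comm]
    calc ∑ t ∈ range (2 * N + 1), ∑ a : ZMod q, ‖cl q N F ((t : ℝ) / (2 * N + 1 : ℕ)) a‖ ^ 2 *
          ‖cl q N G ((t : ℝ) / (2 * N + 1 : ℕ)) 0‖ ^ 2 ≤
        ∑ t ∈ range (2 * N + 1), X * P q N G ((t : ℝ) / (2 * N + 1 : ℕ)) := by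
          refine sum_le_sum fun t _ => ?_
          rw [← sum_mul]
          have h6 : ‖cl q N G ((t : ℝ) / (2 * N + 1 : ℕ)) 0‖ ^ 2 ≤ P q N G ((t : ℝ) / (2 * N + 1 : ℕ)) :=
            single_le_sum (f := fun l : ZMod q => ‖cl q N G ((t : ℝ) / (2 * N + 1 : ℕ)) l‖ ^ 2)
              (fun l _ => by positivity) (mem_univ 0)
          have h7 := hX ((t : ℝ) / (2 * N + 1 : ℕ))
          have h8 : 0 ≤ P q N F ((t : ℝ) / (2 * N + 1 : ℕ)) := P_nonneg _ _ _ _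
          exact mul_le_mul h7 h6 (by positivity) (h8.trans h7)
      _ = X * ∑ t ∈ range (2 * N + 1), P q N G ((t : ℝ) / (2 * N + 1 : ℕ)) := by rw [mul_sum]
      _ = X * (((2 * N + 1 : ℕ) : ℝ) * ∑ n ∈ Icc 1 N, ‖G n‖ ^ 2) := by
          rw [← h2]
          rfl
      _ = _ := by ring
  exact le_of_mul_le_mul_left h4 hD

/-- the correlation with a natural number as shift -/
lemma cor_nat {N Y h : ℕ} (F G : ℕ → ℂ) (hY : Y + h ≤ N) (hG : ∀ n, Y < n → G n = 0) :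
    cor N F G (h : ℤ) = ∑ c ∈ Icc 1 Y, (starRingEnd ℂ) (G c) * F (c + h) := by
  unfold cor
  rw [sum_comm]
  have h1 : ∀ c ∈ Icc 1 N, (∑ b ∈ Icc 1 N, if (b : ℤ) - c = h then F b * (starRingEnd ℂ) (G c) else 0) =
      if c ≤ Y then (starRingEnd ℂ) (G c) * F (c + h) else 0 := by
    intro c hc
    rw [mem_Icc] at hc
    split_ifs with hcY
    · rw [sum_eq_single (c + h)]
      · rw [if_pos (by push_cast; ring), mul_comm]
      · intro b _ hb
        rw [if_neg]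
        intro h'
        apply hb
        omega
      · intro h'
        exfalso
        apply h'
        rw [mem_Icc]
        omega
    · refine sum_eq_zero fun b _ => ?_
      rw [hG c (by omega), map_zero, mul_zero, ite_self]
  rw [sum_congr rfl h1, ← sum_filter]
  refine sum_congr ?_ fun _ _ => rfl
  ext c
  rw [mem_filter, mem_Icc, mem_Icc]
  omega

/-- the weight on the integers up to `y` -/
noncomputable def wt1 (w : ℕ → ℂ) (y n : ℕ) : ℂ := if n ≤ y then (starRingEnd ℂ) (w n) else 0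

/-- the weight on the multiples of `q` up to `q y` -/
noncomputable def wt2 (w : ℕ → ℂ) (q y n : ℕ) : ℂ := if q ∣ n ∧ n / q ≤ y then (starRingEnd ℂ) (w (n / q)) else 0

lemma cor_wt1 {N y h : ℕ} (F w : ℕ → ℂ) (hY : y + h ≤ N) :
    cor N F (wt1 w y) (h : ℤ) = ∑ m ∈ Icc 1 y, w m * F (m + h) := by
  rw [cor_nat F (wt1 w y) hY (fun n hn => by
    unfold wt1
    exact if_neg (by omega))]
  refine sum_congr rfl fun c hc => ?_
  rw [mem_Icc] at hc
  unfold wt1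
  rw [if_pos hc.2, Complex.conj_conj]

lemma cor_wt2 {N q y h : ℕ} (F w : ℕ → ℂ) (hq : 0 < q) (hY : q * y + h ≤ N) :
    cor N F (wt2 w q y) (h : ℤ) = ∑ m ∈ Icc 1 y, w m * F (q * m + h) := by
  rw [cor_nat F (wt2 w q y) hY (fun n hn => by
    unfold wt2
    refine if_neg ?_
    rintro ⟨⟨m, rfl⟩, h2⟩
    rw [Nat.mul_div_cancel_left m hq] at h2
    have := Nat.mul_le_mul_left q h2
    omega)]
  unfold wt2
  have h1 : ∀ c ∈ Icc 1 (q * y), (starRingEnd ℂ) (if q ∣ c ∧ c / q ≤ y then (starRingEnd ℂ) (w (c / q)) else 0) *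
      F (c + h) = if q ∣ c then w (c / q) * F (c + h) else 0 := by
    intro c hc
    rw [mem_Icc] at hc
    by_cases hqc : q ∣ c
    · have h2 : c / q ≤ y := by
        have := Nat.div_le_div_right (c := q) hc.2
        rwa [Nat.mul_div_cancel_left y hq] at this
      rw [if_pos ⟨hqc, h2⟩, if_pos hqc, Complex.conj_conj]
    · rw [if_neg (fun h => hqc h.1), if_neg hqc, map_zero, zero_mul]
  rw [sum_congr rfl h1, ← sum_filter]
  symm
  refine sum_nbij' (fun m => q * m) (fun c => c / q) ?_ ?_ ?_ ?_ ?_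
  · intro m hm
    rw [mem_Icc] at hm
    rw [mem_filter, mem_Icc]
    exact ⟨⟨Nat.mul_pos hq hm.1, Nat.mul_le_mul_left q hm.2⟩, dvd_mul_right _ _⟩
  · intro c hc
    rw [mem_filter, mem_Icc] at hc
    rw [mem_Icc]
    refine ⟨Nat.div_pos (Nat.le_of_dvd hc.1.1 hc.2) hq, ?_⟩
    have := Nat.div_le_div_right (c := q) hc.1.2
    rwa [Nat.mul_div_cancel_left y hq] at this
  · intro m _
    exact Nat.mul_div_cancel_left m hq
  · intro c hc
    rw [mem_filter] at hc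
    exact Nat.mul_div_cancel' hc.2
  · intro m _
    rw [Nat.mul_div_cancel_left m hq]

lemma wt1_sq {w : ℕ → ℂ} (hw : ∀ n, ‖w n‖ ≤ 1) (N y : ℕ) : ∑ n ∈ Icc 1 N, ‖wt1 w y n‖ ^ 2 ≤ y := by
  calc ∑ n ∈ Icc 1 N, ‖wt1 w y n‖ ^ 2 ≤ ∑ n ∈ Icc 1 N, if n ≤ y then (1 : ℝ) else 0 := by
        refine sum_le_sum fun n _ => ?_
        unfold wt1
        split_ifs
        · rw [RCLike.norm_conj]
          exact pow_le_one₀ (norm_nonneg _) (hw n)
        · simp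
    _ = (((Icc 1 N).filter (fun n => n ≤ y)).card : ℝ) := by rw [← sum_filter, sum_const, nsmul_eq_mul, mul_one]
    _ ≤ ((Icc 1 y).card : ℝ) := by
        refine Nat.cast_le.2 (card_le_card ?_)
        intro n hn
        rw [mem_filter, mem_Icc] at hn
        exact mem_Icc.2 ⟨hn.1.1, hn.2⟩
    _ = y := by rw [Nat.card_Icc, Nat.add_sub_cancel]

lemma wt2_sq {w : ℕ → ℂ} (hw : ∀ n, ‖w n‖ ≤ 1) (N y : ℕ) {q : ℕ} (hq : 0 < q) :
    ∑ n ∈ Icc 1 N, ‖wt2 w q y n‖ ^ 2 ≤ y := by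
  calc ∑ n ∈ Icc 1 N, ‖wt2 w q y n‖ ^ 2 ≤ ∑ n ∈ Icc 1 N, if q ∣ n ∧ n / q ≤ y then (1 : ℝ) else 0 := by
        refine sum_le_sum fun n _ => ?_
        unfold wt2
        split_ifs
        · rw [RCLike.norm_conj]
          exact pow_le_one₀ (norm_nonneg _) (hw _)
        · simp
    _ = (((Icc 1 N).filter (fun n => q ∣ n ∧ n / q ≤ y)).card : ℝ) := by
        rw [← sum_filter, sum_const, nsmul_eq_mul, mul_one]
    _ ≤ (((Icc 1 y).image (fun m => q * m)).card : ℝ) := by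
        refine Nat.cast_le.2 (card_le_card ?_)
        intro n hn
        rw [mem_filter, mem_Icc] at hn
        obtain ⟨⟨h1, -⟩, ⟨m, rfl⟩, h3⟩ := hn
        rw [Nat.mul_div_cancel_left m hq] at h3
        rw [mem_image]
        refine ⟨m, mem_Icc.2 ⟨?_, h3⟩, rfl⟩
        rcases Nat.eq_zero_or_pos m with h | h
        · rw [h, mul_zero] at h1
          omega
        · exact h
    _ ≤ ((Icc 1 y).card : ℝ) := Nat.cast_le.2 card_image_le
    _ = y := by rw [Nat.card_Icc, Nat.add_sub_cancel]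

lemma wt2_dvd {w : ℕ → ℂ} {q y n : ℕ} (h : wt2 w q y n ≠ 0) : q ∣ n := by
  unfold wt2 at h
  by_contra hc
  rw [if_neg (fun h' => hc h'.1)] at h
  exact h rfl

end Pool.Agent.H579.L
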