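import Pool.Agent.H579.L.Uni

set_option autoImplicit false

/-! The function `n ↦ ω(n) g(n)`, and the passage from a character to its primitive character. -/

namespace Pool.Agent.H579.L

open Finset
open Pool.Agent.Y883.GJ

/-- bounded completely multiplicative functions -/
structure Cm (g : ℕ → ℂ) : Prop where
  one : g 1 = 1
  mul : ∀ m n, g (m * n) = g m * g n
  bd : ∀ m, ‖g m‖ ≤ 1

/-- the primes `p` with `N ^ κ₁ < p ≤ N ^ κ₂` which do not divide `q` -/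
def Pp (N : ℕ) (κ₁ κ₂ : ℝ) (q p : ℕ) : Prop :=
  p.Prime ∧ (N : ℝ) ^ κ₁ < p ∧ (p : ℝ) ≤ (N : ℝ) ^ κ₂ ∧ ¬ p ∣ q

open Classical in
/-- the values of `g` at these primes -/
noncomputable def ap (N : ℕ) (κ₁ κ₂ : ℝ) (g : ℕ → ℂ) (q m : ℕ) : ℂ := if Pp N κ₁ κ₂ q m then g m else 0

open Classical in
/-- the number of these primes which divide `n` -/
noncomputable def om (N : ℕ) (κ₁ κ₂ : ℝ) (q n : ℕ) : ℕ := (n.divisors.filter (fun p => Pp N κ₁ κ₂ q p)).card

lemma cnv_ap {g : ℕ → ℂ} (hg : Cm g) (N : ℕ) (κ₁ κ₂ : ℝ) (q n : ℕ) :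
    cnv (ap N κ₁ κ₂ g q) g n = om N κ₁ κ₂ q n * g n := by
  classical
  unfold cnv om ap
  rw [card_filter, Nat.cast_sum, sum_mul]
  refine sum_congr rfl fun d hd => ?_
  rw [Nat.mem_divisors] at hd
  split_ifs with h
  · rw [← hg.mul, Nat.mul_div_cancel' hd.1, Nat.cast_one, one_mul]
  · simp

lemma cf_ap {g : ℕ → ℂ} (hg : Cm g) (N : ℕ) (κ₁ κ₂ : ℝ) (q : ℕ) : Cf N κ₁ κ₂ (ap N κ₁ κ₂ g q) g := by
  classical
  refine ⟨fun m hm => ?_, fun m => ?_, hg.bd⟩
  · unfold ap at hm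
    by_cases h : Pp N κ₁ κ₂ q m
    · exact ⟨h.2.1, h.2.2.1⟩
    · rw [if_neg h] at hm
      exact absurd rfl hm
  · unfold ap
    split_ifs
    · exact hg.bd m
    · simp

lemma om_mul {N : ℕ} {κ₁ κ₂ : ℝ} {q e : ℕ} (he0 : e ≠ 0) (he : ∀ p, Pp N κ₁ κ₂ q p → ¬ p ∣ e) (n : ℕ) :
    om N κ₁ κ₂ q (e * n) = om N κ₁ κ₂ q n := by
  classical
  unfold om
  congr 1
  ext p
  rw [mem_filter, mem_filter, Nat.mem_divisors, Nat.mem_divisors]
  constructor
  · rintro ⟨⟨h1, h2⟩, h3⟩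
    exact ⟨⟨(h3.1.dvd_mul.1 h1).resolve_left (he p h3), right_ne_zero_of_mul h2⟩, h3⟩
  · rintro ⟨⟨h1, h2⟩, h3⟩
    exact ⟨⟨dvd_mul_of_dvd_right h1 _, mul_ne_zero he0 h2⟩, h3⟩

lemma F_mul {g : ℕ → ℂ} (hg : Cm g) {N : ℕ} {κ₁ κ₂ : ℝ} {q e : ℕ} (he0 : e ≠ 0)
    (he : ∀ p, Pp N κ₁ κ₂ q p → ¬ p ∣ e) (n : ℕ) :
    cnv (ap N κ₁ κ₂ g q) g (e * n) = g e * cnv (ap N κ₁ κ₂ g q) g n := by
  rw [cnv_ap hg, cnv_ap hg, om_mul he0 he, hg.mul]
  ring

/-- the sum over the integers prime to `Q` -/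
lemma cop_sum (y : ℕ) {Q : ℕ} (hQ : 0 < Q) (G : ℕ → ℂ) :
    ∑ n ∈ (Icc 1 y).filter (fun n => n.Coprime Q), G n =
      ∑ e ∈ Q.divisors, ((ArithmeticFunction.moebius e : ℤ) : ℂ) * ∑ m ∈ Icc 1 (y / e), G (e * m) := by
  classical
  have h1 : ∀ n ∈ Icc 1 y, (if n.Coprime Q then G n else 0) =
      ∑ e ∈ Q.divisors, ((ArithmeticFunction.moebius e : ℤ) : ℂ) * (if e ∣ n then G n else 0) := by
    intro n hn
    rw [mem_Icc] at hn
    have h2 : ∑ e ∈ (Nat.gcd n Q).divisors, ((ArithmeticFunction.moebius e : ℤ) : ℂ) =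
        if Nat.gcd n Q = 1 then 1 else 0 := by
      have h3 := ArithmeticFunction.sum_eq_iff_sum_mul_moebius_eq (R := ℂ)
        (f := fun n => if n = 1 then (1 : ℂ) else 0) (g := fun _ => (1 : ℂ))
      have h4 := h3.1 (by
        intro n hn
        rw [sum_ite_eq' n.divisors 1 (fun _ => (1 : ℂ)), if_pos (Nat.one_mem_divisors.2 hn.ne')])
        (Nat.gcd n Q) (Nat.gcd_pos_of_pos_right _ hQ)
      simp only [mul_one] at h4
      rw [← h4]
      rw [Nat.sum_divisorsAntidiagonal (fun d _ => ((ArithmeticFunction.moebius d : ℤ) : ℂ))]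
    have h5 : (Nat.gcd n Q).divisors = Q.divisors.filter (fun e => e ∣ n) := by
      ext e
      rw [mem_filter, Nat.mem_divisors, Nat.mem_divisors, Nat.dvd_gcd_iff]
      constructor
      · rintro ⟨⟨a, b⟩, -⟩
        exact ⟨⟨b, hQ.ne'⟩, a⟩
      · rintro ⟨⟨b, -⟩, a⟩
        exact ⟨⟨a, b⟩, (Nat.gcd_pos_of_pos_right _ hQ).ne'⟩
    calc (if n.Coprime Q then G n else 0) = (if Nat.gcd n Q = 1 then 1 else 0) * G n := by
          unfold Nat.Coprime
          split_ifs <;> simp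
      _ = ∑ e ∈ Q.divisors, ((ArithmeticFunction.moebius e : ℤ) : ℂ) * (if e ∣ n then G n else 0) := by
          rw [← h2, h5, sum_filter, sum_mul]
          refine sum_congr rfl fun e _ => ?_
          split_ifs <;> simp
  rw [sum_filter, sum_congr rfl h1, sum_comm]
  refine sum_congr rfl fun e he => ?_
  have he0 : 0 < e := Nat.pos_of_mem_divisors he
  rw [← mul_sum]
  congr 1
  rw [← sum_filter]
  symm
  refine sum_nbij' (fun m => e * m) (fun n => n / e) ?_ ?_ ?_ ?_ ?_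
  · intro m hm
    rw [mem_Icc] at hm
    rw [mem_filter, mem_Icc]
    refine ⟨⟨Nat.mul_pos he0 hm.1, ?_⟩, dvd_mul_right _ _⟩
    calc e * m ≤ e * (y / e) := Nat.mul_le_mul_left _ hm.2
      _ ≤ y := Nat.mul_div_le _ _
  · intro n hn
    rw [mem_filter, mem_Icc] at hn
    obtain ⟨⟨a, b⟩, c⟩ := hn
    rw [mem_Icc]
    exact ⟨Nat.div_pos (Nat.le_of_dvd a c) he0, Nat.div_le_div_right b⟩
  · intro m _
    exact Nat.mul_div_cancel_left m he0
  · intro n hn
    rw [mem_filter] at hn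
    exact Nat.mul_div_cancel' hn.2
  · intro m _
    rfl

/-- from a character to its primitive character -/
lemma char_prim {Q : ℕ} [NeZero Q] (y : ℕ) (F : ℕ → ℂ) (χ : DirichletCharacter ℂ Q) (c : ℕ → ℂ)
    (hF : ∀ e, e ∣ Q → ∀ n, F (e * n) = c e * F n) :
    ∑ n ∈ Icc 1 y, F n * χ (n : ZMod Q) = ∑ e ∈ Q.divisors, ((ArithmeticFunction.moebius e : ℤ) : ℂ) *
      (c e * χ.primitiveCharacter (e : ZMod χ.conductor) *
        ∑ m ∈ Icc 1 (y / e), F m * χ.primitiveCharacter (m : ZMod χ.conductor)) := by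
  classical
  obtain ⟨ψ, hψ⟩ : ∃ ψ, ψ = χ.primitiveCharacter := ⟨_, rfl⟩
  rw [← hψ]
  have h1 : ∑ n ∈ Icc 1 y, F n * χ (n : ZMod Q) =
      ∑ n ∈ (Icc 1 y).filter (fun n => n.Coprime Q), F n * ψ (n : ZMod χ.conductor) := by
    rw [sum_filter]
    refine sum_congr rfl fun n _ => ?_
    split_ifs with h
    · rw [hψ]
      congr 1
      have hu : IsUnit (n : ZMod Q) := (ZMod.isUnit_iff_coprime n Q).2 h
      have h2 := DirichletCharacter.changeLevel_eq_cast_of_dvd (χ.primitiveCharacter)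
        (DirichletCharacter.conductor_dvd_level χ) hu.unit
      have h3 : DirichletCharacter.changeLevel (DirichletCharacter.conductor_dvd_level χ)
          χ.primitiveCharacter = χ := by
        exact (DirichletCharacter.factorsThrough_conductor χ).eq_changeLevel.symm
      rw [h3] at h2
      rw [IsUnit.unit_spec] at h2
      rw [h2]
      congr 1
      rw [ZMod.cast_natCast (DirichletCharacter.conductor_dvd_level χ)]
    · have : ¬ IsUnit (n : ZMod Q) := fun hu => h ((ZMod.isUnit_iff_coprime n Q).1 hu)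
      rw [MulChar.map_nonunit _ this, mul_zero]
  rw [h1, cop_sum y (NeZero.pos Q)]
  refine sum_congr rfl fun e he => ?_
  rw [Nat.mem_divisors] at he
  congr 1
  rw [mul_sum]
  refine sum_congr rfl fun m _ => ?_
  rw [hF e he.1, Nat.cast_mul, map_mul]
  ring

end Pool.Agent.H579.L
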