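import Pool.Agent.H579.L.Liou

set_option autoImplicit false

/-! Pairs of neighbouring products of consecutive values. -/

namespace Pool.Agent.H579.L

open Finset

/-- the Liouville function, real -/
noncomputable def lr (n : ℕ) : ℝ := (-1 : ℝ) ^ ArithmeticFunction.cardFactors n

lemma lr_cases (n : ℕ) : lr n = 1 ∨ lr n = -1 := neg_one_pow_eq_or ℝ _

lemma lr_sq (n : ℕ) : lr n * lr n = 1 := by
  rcases lr_cases n with h | h <;> rw [h] <;> norm_num

lemma lr_abs (n : ℕ) : |lr n| = 1 := by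
  rcases lr_cases n with h | h <;> rw [h] <;> norm_num

/-- the product of `k` consecutive values -/
noncomputable def PR (k n : ℕ) : ℝ := ∏ i ∈ range k, lr (n + i)

lemma PR_abs (k n : ℕ) : |PR k n| = 1 := by
  unfold PR
  rw [abs_prod]
  exact prod_eq_one fun i _ => lr_abs _

lemma PR_succ (k n : ℕ) : PR k (n + 1) = PR k n * (lr n * lr (n + k)) := by
  have h1 : PR k n * lr (n + k) = lr n * PR k (n + 1) := by
    unfold PR
    rw [← prod_range_succ, prod_range_succ']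
    rw [mul_comm, Nat.add_zero]
    congr 1
    refine prod_congr rfl fun i _ => ?_
    congr 1
    omega
  calc PR k (n + 1) = lr n * lr n * PR k (n + 1) := by rw [lr_sq, one_mul]
    _ = lr n * (lr n * PR k (n + 1)) := by ring
    _ = lr n * (PR k n * lr (n + k)) := by rw [h1]
    _ = _ := by ring

lemma pairs_sum (f : ℕ → ℝ) {u v : ℕ} (huv : u ≤ v) :
    ∑ n ∈ Ioc (2 * u) (2 * v), f n = ∑ m ∈ Ioc u v, (f (2 * m - 1) + f (2 * m)) := by
  induction v, huv using Nat.le_induction with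
  | base => simp
  | succ v hv ih =>
      rw [show 2 * (v + 1) = 2 * v + 1 + 1 by ring, Finset.sum_Ioc_succ_top (by omega), Finset.sum_Ioc_succ_top (by omega),
        Finset.sum_Ioc_succ_top hv, ih]
      rw [show 2 * (v + 1) - 1 = 2 * v + 1 by omega, show 2 * (v + 1) = 2 * v + 1 + 1 by ring]
      ring

/-- the coefficient of a pair -/
noncomputable def cp (ξ : ℕ → ℝ) (n : ℕ) : ℝ := (|ξ n + ξ (n + 1)| - |ξ n - ξ (n + 1)|) / 2

lemma cp_abs {ξ : ℕ → ℝ} (hξ : ∀ n, |ξ n| ≤ 1) (n : ℕ) : |cp ξ n| ≤ 1 := by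
  unfold cp
  have h1 := hξ n
  have h2 := hξ (n + 1)
  rw [abs_le] at h1 h2 ⊢
  constructor
  · rcases abs_cases (ξ n + ξ (n + 1)) with ⟨h, h'⟩ | ⟨h, h'⟩ <;> rcases abs_cases (ξ n - ξ (n + 1)) with ⟨h3, h3'⟩ | ⟨h3, h3'⟩ <;>
      rw [h, h3] <;> linarith
  · rcases abs_cases (ξ n + ξ (n + 1)) with ⟨h, h'⟩ | ⟨h, h'⟩ <;> rcases abs_cases (ξ n - ξ (n + 1)) with ⟨h3, h3'⟩ | ⟨h3, h3'⟩ <;>
      rw [h, h3] <;> linarith

lemma pair_le {ξ : ℕ → ℝ} (hξ : ∀ n, |ξ n| ≤ 1) (k n : ℕ) :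
    |ξ n * PR k n + ξ (n + 1) * PR k (n + 1)| ≤ 1 + cp ξ n * (lr n * lr (n + k)) := by
  have h0 : ξ n * PR k n + ξ (n + 1) * PR k (n + 1) = PR k n * (ξ n + ξ (n + 1) * (lr n * lr (n + k))) := by
    rw [PR_succ]
    ring
  rw [h0, abs_mul, PR_abs, one_mul]
  have h1 := hξ n
  have h2 := hξ (n + 1)
  have h3 : lr n * lr (n + k) = 1 ∨ lr n * lr (n + k) = -1 := by
    rcases lr_cases n with h | h <;> rcases lr_cases (n + k) with h' | h' <;> rw [h, h'] <;> norm_num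
  rw [abs_le] at h1 h2
  unfold cp
  have h4 : (|ξ n + ξ (n + 1)| + |ξ n - ξ (n + 1)|) / 2 ≤ 1 := by
    rcases abs_cases (ξ n + ξ (n + 1)) with ⟨h, h'⟩ | ⟨h, h'⟩ <;> rcases abs_cases (ξ n - ξ (n + 1)) with ⟨h3, h3'⟩ | ⟨h3, h3'⟩ <;>
      rw [h, h3] <;> linarith
  rcases h3 with h3 | h3
  · rw [h3, mul_one, mul_one]
    linarith
  · rw [h3, mul_neg_one, mul_neg_one, ← sub_eq_add_neg]
    linarith

/-- the weight which belongs to the pairs -/
noncomputable def wp (ξ : ℕ → ℝ) (n : ℕ) : ℂ := if Odd n then ((cp ξ n * lr n : ℝ) : ℂ) else 0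

lemma wp_norm {ξ : ℕ → ℝ} (hξ : ∀ n, |ξ n| ≤ 1) (n : ℕ) : ‖wp ξ n‖ ≤ 1 := by
  unfold wp
  split_ifs
  · rw [Complex.norm_real, Real.norm_eq_abs, abs_mul, lr_abs, mul_one]
    exact cp_abs hξ n
  · simp

lemma wp_sum (ξ : ℕ → ℝ) (k v : ℕ) : ∑ n ∈ Icc 1 (2 * v), wp ξ n * lio (n + k) =
    ((∑ m ∈ Icc 1 v, cp ξ (2 * m - 1) * (lr (2 * m - 1) * lr (2 * m - 1 + k)) : ℝ) : ℂ) := by
  induction v with
  | zero => simp
  | succ v ih =>
      rw [show 2 * (v + 1) = 2 * v + 1 + 1 by ring, sum_Icc_succ_top (by omega), sum_Icc_succ_top (by omega),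
        sum_Icc_succ_top (by omega : 1 ≤ v + 1), ih, show 2 * (v + 1) - 1 = 2 * v + 1 by omega]
      have h1 : wp ξ (2 * v + 1) = ((cp ξ (2 * v + 1) * lr (2 * v + 1) : ℝ) : ℂ) := by
        unfold wp
        rw [if_pos ⟨v, rfl⟩]
      have h2 : wp ξ (2 * v + 1 + 1) = 0 := by
        unfold wp
        rw [if_neg]
        rw [Nat.not_odd_iff_even]
        exact ⟨v + 1, by ring⟩
      have h3 : lio (2 * v + 1 + k) = ((lr (2 * v + 1 + k) : ℝ) : ℂ) := by
        rw [lio_eq (by omega)]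
        unfold lr
        push_cast
        rfl
      rw [h1, h2, h3]
      push_cast
      ring

/-- half of the trivial bound for the products of `k` consecutive values -/
lemma len_bound {ξ : ℕ → ℝ} (hξ : ∀ n, |ξ n| ≤ 1) {k x : ℕ} {δ : ℝ}
    (h : ∀ y : ℕ, y ≤ x → ‖∑ n ∈ Icc 1 y, wp ξ n * lio (n + k)‖ ≤ δ * x) {Y X : ℕ} (hYX : Y ≤ X) (hX : X ≤ x) :
    |∑ n ∈ Ioc Y X, ξ n * PR k n| ≤ ((X : ℝ) - Y) / 2 + 2 * (δ * x) + 2 := by
  have hδ : 0 ≤ δ * x := (norm_nonneg _).trans (h 0 (Nat.zero_le _))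
  have hf : ∀ n, |ξ n * PR k n| ≤ 1 := fun n => by
    rw [abs_mul, PR_abs, mul_one]
    exact hξ n
  obtain ⟨u, hu⟩ : ∃ u, u = (Y + 1) / 2 := ⟨_, rfl⟩
  obtain ⟨v, hv⟩ : ∃ v, v = X / 2 := ⟨_, rfl⟩
  rcases Nat.lt_or_ge v u with huv | huv
  · -- short interval
    have h1 : X ≤ Y + 1 := by omega
    have h2 : |∑ n ∈ Ioc Y X, ξ n * PR k n| ≤ (X : ℝ) - Y := by
      refine (abs_sum_le_sum_abs _ _).trans ((sum_le_sum fun n _ => hf n).trans ?_)
      rw [sum_const, Nat.card_Ioc, nsmul_eq_mul, mul_one, Nat.cast_sub hYX]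
    have h3 : (X : ℝ) ≤ Y + 1 := by exact_mod_cast h1
    linarith
  · have h1 : ∑ n ∈ Ioc Y X, ξ n * PR k n = ∑ n ∈ Ioc Y (2 * u), ξ n * PR k n + ∑ n ∈ Ioc (2 * u) (2 * v), ξ n * PR k n +
        ∑ n ∈ Ioc (2 * v) X, ξ n * PR k n := by
      rw [← sum_Ioc_consecutive (fun n => ξ n * PR k n) (show Y ≤ 2 * u by omega) (show 2 * u ≤ X by omega),
        ← sum_Ioc_consecutive (fun n => ξ n * PR k n) (show 2 * u ≤ 2 * v by omega) (show 2 * v ≤ X by omega)]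
      ring
    have h2 : |∑ n ∈ Ioc Y (2 * u), ξ n * PR k n| ≤ 2 * u - Y := by
      refine (abs_sum_le_sum_abs _ _).trans ((sum_le_sum fun n _ => hf n).trans ?_)
      rw [sum_const, Nat.card_Ioc, nsmul_eq_mul, mul_one, Nat.cast_sub (by omega)]
      push_cast
      exact le_rfl
    have h3 : |∑ n ∈ Ioc (2 * v) X, ξ n * PR k n| ≤ X - 2 * v := by
      refine (abs_sum_le_sum_abs _ _).trans ((sum_le_sum fun n _ => hf n).trans ?_)
      rw [sum_const, Nat.card_Ioc, nsmul_eq_mul, mul_one, Nat.cast_sub (by omega)]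
      push_cast
      exact le_rfl
    have h4 : |∑ n ∈ Ioc (2 * u) (2 * v), ξ n * PR k n| ≤
        (v : ℝ) - u + ∑ m ∈ Ioc u v, cp ξ (2 * m - 1) * (lr (2 * m - 1) * lr (2 * m - 1 + k)) := by
      rw [pairs_sum _ huv]
      refine (abs_sum_le_sum_abs _ _).trans ?_
      calc ∑ m ∈ Ioc u v, |ξ (2 * m - 1) * PR k (2 * m - 1) + ξ (2 * m) * PR k (2 * m)| ≤
          ∑ m ∈ Ioc u v, (1 + cp ξ (2 * m - 1) * (lr (2 * m - 1) * lr (2 * m - 1 + k))) := by
            refine sum_le_sum fun m hm => ?_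
            rw [mem_Ioc] at hm
            have := pair_le hξ k (2 * m - 1)
            rw [show 2 * m - 1 + 1 = 2 * m by omega] at this
            exact this
        _ = _ := by
            rw [sum_add_distrib, sum_const, Nat.card_Ioc, nsmul_eq_mul, mul_one, Nat.cast_sub huv]
    have h5 : ∑ m ∈ Ioc u v, cp ξ (2 * m - 1) * (lr (2 * m - 1) * lr (2 * m - 1 + k)) ≤ 2 * (δ * x) := by
      obtain ⟨S, hS⟩ : ∃ S : ℕ → ℝ, S = fun z => ∑ m ∈ Icc 1 z, cp ξ (2 * m - 1) * (lr (2 * m - 1) * lr (2 * m - 1 + k)) := ⟨_, rfl⟩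
      have e1 : ∑ m ∈ Ioc u v, cp ξ (2 * m - 1) * (lr (2 * m - 1) * lr (2 * m - 1 + k)) = S v - S u := by
        rw [hS]
        have e2 : ∀ z : ℕ, Icc 1 z = Ioc 0 z := fun z => rfl
        simp only [e2]
        rw [← sum_Ioc_consecutive _ (Nat.zero_le u) huv]
        ring
      have e3 : ∀ z : ℕ, 2 * z ≤ x → |S z| ≤ δ * x := by
        intro z hz
        have := h (2 * z) hz
        rw [wp_sum, Complex.norm_real, Real.norm_eq_abs] at this
        rw [hS]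
        exact this
      rw [e1]
      have e4 := abs_le.1 (e3 v (by omega))
      have e5 := abs_le.1 (e3 u (by omega))
      linarith [e4.2, e5.1]
    rw [h1]
    have h6 := abs_add_three (∑ n ∈ Ioc Y (2 * u), ξ n * PR k n) (∑ n ∈ Ioc (2 * u) (2 * v), ξ n * PR k n)
      (∑ n ∈ Ioc (2 * v) X, ξ n * PR k n)
    have h7 : (2 : ℝ) * u ≤ Y + 1 := by
      have : 2 * u ≤ Y + 1 := by omega
      exact_mod_cast this
    have h8 : (X : ℝ) ≤ 2 * v + 1 := by
      have : X ≤ 2 * v + 1 := by omega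
      exact_mod_cast this
    linarith

end Pool.Agent.H579.L
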