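import Pool.Agent.H579.L.Reg
import Pool.Graph.R_seed8.H373R2.T7.SupLiou
import Pool.Graph.R_seed8.Y185.GJ.SmallC

set_option autoImplicit false

/-! The Liouville function has small sums over the characters of a small modulus. -/

namespace Pool.Agent.H579.L

open Finset
open Pool.Agent.Y883.GJ
open Pool.Agent.H807R2.Dav (ee)
open Pool.Agent.H373R2.T7 (liR liR_norm sup_liou SupSmall)
open Pool.Agent.Y614.GJ.Core (ev_log)
open scoped ZMod

lemma dft_bd {d : ℕ} [NeZero d] (F : ℕ → ℂ) {T : ℝ} (z : ℕ)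
    (hT : ∀ α : ℝ, ‖∑ n ∈ Icc 1 z, F n * ee ((n : ℝ) * α)‖ ≤ T) (φ : ZMod d → ℂ) (hφ : ∀ x, ‖φ x‖ ≤ 1) :
    ‖∑ n ∈ Icc 1 z, F n * φ (n : ZMod d)‖ ≤ d * T := by
  have hT0 : 0 ≤ T := (norm_nonneg _).trans (hT 0)
  have hd0 : (0 : ℝ) < d := by exact_mod_cast NeZero.pos d
  have h1 : ∀ x : ZMod d, φ x = (d : ℂ)⁻¹ * ∑ j : ZMod d, ZMod.stdAddChar (j * x) * ZMod.dft φ j := by
    intro x
    have h2 := ZMod.invDFT_apply (ZMod.dft φ) x
    rw [LinearEquiv.symm_apply_apply] at h2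
    rw [h2]
    simp only [smul_eq_mul]
  have h3 : ∀ j : ZMod d, ‖ZMod.dft φ j‖ ≤ d := by
    intro j
    rw [ZMod.dft_apply]
    refine (norm_sum_le _ _).trans ?_
    calc ∑ i : ZMod d, ‖ZMod.stdAddChar (-(i * j)) • φ i‖ ≤ ∑ i : ZMod d, (1 : ℝ) := by
          refine sum_le_sum fun i _ => ?_
          rw [norm_smul]
          exact mul_le_one₀ (le_of_eq (AddChar.norm_apply _ _)) (norm_nonneg _) (hφ i)
      _ = d := by
          rw [sum_const, card_univ, ZMod.card, nsmul_eq_mul, mul_one]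
  have h4 : ∑ n ∈ Icc 1 z, F n * φ (n : ZMod d) = (d : ℂ)⁻¹ * ∑ j : ZMod d, ZMod.dft φ j *
      ∑ n ∈ Icc 1 z, F n * ee ((n : ℝ) * ((j.val : ℝ) / d)) := by
    calc ∑ n ∈ Icc 1 z, F n * φ (n : ZMod d) = ∑ n ∈ Icc 1 z, ∑ j : ZMod d, (d : ℂ)⁻¹ * (ZMod.dft φ j *
          (F n * ee ((n : ℝ) * ((j.val : ℝ) / d)))) := by
          refine sum_congr rfl fun n _ => ?_
          rw [h1, mul_sum, mul_sum]
          refine sum_congr rfl fun j _ => ?_
          rw [Pool.Agent.Y185.GJ.std_eq]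
          ring
      _ = _ := by
          rw [sum_comm, mul_sum]
          refine sum_congr rfl fun j _ => ?_
          rw [← mul_sum, ← mul_sum]
  rw [h4, norm_mul, norm_inv, Complex.norm_natCast]
  calc ((d : ℝ))⁻¹ * ‖∑ j : ZMod d, ZMod.dft φ j * ∑ n ∈ Icc 1 z, F n * ee ((n : ℝ) * ((j.val : ℝ) / d))‖ ≤
      ((d : ℝ))⁻¹ * ∑ j : ZMod d, (d : ℝ) * T := by
        refine mul_le_mul_of_nonneg_left ?_ (by positivity)
        refine (norm_sum_le _ _).trans (sum_le_sum fun j _ => ?_)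
        rw [norm_mul]
        exact mul_le_mul (h3 j) (hT _) (norm_nonneg _) hd0.le
    _ = d * T := by
        rw [sum_const, card_univ, ZMod.card, nsmul_eq_mul]
        field_simp

lemma sw_of_sup {F : ℕ → ℂ} (hF : ∀ n, ‖F n‖ ≤ 1) (h : SupSmall F) (K U : ℕ) : ∃ N₀ : ℕ, ∀ N : ℕ, N₀ ≤ N →
    SwAt N K U F := by
  obtain ⟨n1, h1⟩ := h (K + U + 1)
  obtain ⟨n2, h2⟩ := Filter.eventually_atTop.1 (ev_log 1 (s := 1) (by norm_num) (2 ^ (K + U + 1)))
  refine ⟨max (max (n1 ^ 2) n2) 1, fun N hN d hd1 hd ψ z hz => ?_⟩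
  have hNn1 : n1 ^ 2 ≤ N := le_trans (le_trans (le_max_left _ _) (le_max_left _ _)) hN
  obtain ⟨hL, -⟩ := h2 N (le_trans (le_trans (le_max_right _ _) (le_max_left _ _)) hN)
  have hN1 : 1 ≤ N := le_trans (le_max_right _ _) hN
  have hN0 : (0 : ℝ) < N := by exact_mod_cast hN1
  have h2p : (1 : ℝ) ≤ 2 ^ (K + U + 1) := one_le_pow₀ (by norm_num)
  obtain ⟨L, hLd⟩ : ∃ L, L = Real.log (N : ℝ) := ⟨_, rfl⟩
  rw [← hLd] at hL hd ⊢
  have hL1 : 1 ≤ L := by linarith
  have hL0 : 0 < L := by linarith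
  by_cases hzs : (z : ℝ) ≤ (N : ℝ) ^ (1 / 2 : ℝ)
  · have h3 : ‖∑ m ∈ Icc 1 z, F m * ψ (m : ZMod d)‖ ≤ z := by
      calc ‖∑ m ∈ Icc 1 z, F m * ψ (m : ZMod d)‖ ≤ ∑ m ∈ Icc 1 z, (1 : ℝ) := by
            refine (norm_sum_le _ _).trans (sum_le_sum fun m _ => ?_)
            rw [norm_mul]
            exact mul_le_one₀ (hF m) (norm_nonneg _) (DirichletCharacter.norm_le_one ψ _)
        _ = z := by rw [sum_const, Nat.card_Icc, Nat.add_sub_cancel, nsmul_eq_mul, mul_one]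
    have h4 : 0 ≤ (z : ℝ) / L ^ U := by positivity
    linarith
  · rw [not_le] at hzs
    have hz0 : (0 : ℝ) < z := lt_of_le_of_lt (by positivity) hzs
    have hz1 : n1 ≤ z := by
      have h5 : (n1 : ℝ) ≤ (N : ℝ) ^ (1 / 2 : ℝ) := by
        rw [← Real.sqrt_eq_rpow]
        apply Real.le_sqrt_of_sq_le
        exact_mod_cast hNn1
      exact_mod_cast h5.trans hzs.le
    have hlog : L / 2 ≤ Real.log z := by
      have h6 := Real.log_le_log (by positivity) hzs.le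
      rw [Real.log_rpow hN0, ← hLd] at h6
      linarith
    have hne : NeZero d := ⟨by omega⟩
    have h3 := dft_bd F z (h1 z hz1) (fun x => ψ x) (fun x => DirichletCharacter.norm_le_one ψ x)
    have h4 : (d : ℝ) * ((z : ℝ) / Real.log z ^ (K + U + 1)) ≤ z / L ^ U := by
      calc (d : ℝ) * ((z : ℝ) / Real.log z ^ (K + U + 1)) ≤ L ^ K * ((z : ℝ) / (L / 2) ^ (K + U + 1)) := by
            gcongr
        _ = z / L ^ U * (2 ^ (K + U + 1) / L) := by
            rw [div_pow, pow_succ L (K + U), pow_add L K U]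
            field_simp
        _ ≤ z / L ^ U * 1 := by
            refine mul_le_mul_of_nonneg_left ?_ (by positivity)
            rw [div_le_one hL0]
            exact hL
        _ = _ := mul_one _
    have h5 : (0 : ℝ) ≤ (N : ℝ) ^ (1 / 2 : ℝ) := by positivity
    linarith

/-- the Liouville function with `0` at `0` -/
noncomputable def lio (n : ℕ) : ℂ := if n = 0 then 0 else liR n

lemma lio_eq {n : ℕ} (hn : n ≠ 0) : lio n = (-1 : ℂ) ^ (ArithmeticFunction.cardFactors n) := by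
  unfold lio liR
  rw [if_neg hn]

lemma cm_lio : Cm lio := by
  refine ⟨?_, ?_, ?_⟩
  · rw [lio_eq one_ne_zero, ArithmeticFunction.cardFactors_one, pow_zero]
  · intro m n
    rcases Nat.eq_zero_or_pos m with h | h
    · simp [h, lio]
    rcases Nat.eq_zero_or_pos n with h' | h'
    · simp [h', lio]
    rw [lio_eq (Nat.mul_pos h h').ne', lio_eq h.ne', lio_eq h'.ne',
      ArithmeticFunction.cardFactors_mul h.ne' h'.ne', pow_add]
  · intro n
    unfold lio
    split_ifs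
    · simp
    · exact liR_norm n

lemma sup_lio : SupSmall lio := by
  intro U
  obtain ⟨N0, h⟩ := sup_liou U
  refine ⟨N0, fun N hN α => ?_⟩
  refine le_trans (le_of_eq ?_) (h N hN α)
  congr 1
  refine sum_congr rfl fun n hn => ?_
  rw [mem_Icc] at hn
  unfold lio
  rw [if_neg (by omega)]

end Pool.Agent.H579.L
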