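import Pool.Agent.H579.L.Wl
import Pool.Agent.H579.L.PB2
import Pool.Agent.H579.L.Liou

set_option autoImplicit false

/-! Shifts in a residue class, and linear forms with a large coefficient. -/

namespace Pool.Agent.H579.L

open Finset
open Pool.Agent.Y614.GJ.Core (P ev_log)
open Pool.Agent.H373R2.T7 (liR)

/-- counting the large values -/
lemma cheb {S T : Finset ℕ} {f : ℕ → ℕ → ℝ} {V B : ℝ} (hV : 0 < V) (J : Finset ℕ)
    (hST : ∀ h ∈ S, ∃ j ∈ J, V ≤ f j h) (hsub : S ⊆ T) (hB : ∀ j ∈ J, ∑ h ∈ T, f j h ^ 2 ≤ B) (h0 : ∀ j h, 0 ≤ f j h) :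
    (S.card : ℝ) ≤ J.card * (B / V ^ 2) := by
  classical
  have h1 : (S.card : ℝ) * V ^ 2 ≤ ∑ j ∈ J, ∑ h ∈ T, f j h ^ 2 := by
    rw [sum_comm]
    calc (S.card : ℝ) * V ^ 2 = ∑ h ∈ S, V ^ 2 := by rw [sum_const, nsmul_eq_mul]
      _ ≤ ∑ h ∈ S, ∑ j ∈ J, f j h ^ 2 := by
          refine sum_le_sum fun h hh => ?_
          obtain ⟨j, hj, hjV⟩ := hST h hh
          exact (pow_le_pow_left₀ hV.le hjV 2).trans
            (single_le_sum (f := fun j => f j h ^ 2) (fun _ _ => sq_nonneg _) hj)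
      _ ≤ ∑ h ∈ T, ∑ j ∈ J, f j h ^ 2 :=
          sum_le_sum_of_subset_of_nonneg hsub fun _ _ _ => sum_nonneg fun _ _ => sq_nonneg _
  have h2 : ∑ j ∈ J, ∑ h ∈ T, f j h ^ 2 ≤ J.card * B := by
    refine (sum_le_sum hB).trans ?_
    rw [sum_const, nsmul_eq_mul]
  rw [mul_div_assoc', le_div_iff₀ (by positivity)]
  exact h1.trans h2

open Classical in
/-- the general theorem -/
theorem gen_main {ρ ε : ℝ} (A : ℕ) (hρ : 0 < ρ) (hρ1 : ρ < 1) (hε : 0 < ε) (hε1 : ε ≤ 1) :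
    ∃ c : ℕ, ∀ B : ℕ, ∃ K U x₀ : ℕ, ∀ x : ℕ, x₀ ≤ x → ∀ g : ℕ → ℂ, Cm g → SwAt (2 * x) K U g →
    ∃ D : Finset ℕ, (D.card : ℝ) ≤ Real.log x ^ c ∧ (∀ d ∈ D, Real.log x ^ B < (d : ℝ)) ∧
    ∀ q : ℕ, 1 ≤ q → (q : ℝ) ≤ (x : ℝ) ^ (1 - ρ) → (∀ d ∈ D, ¬ d ∣ q) → ∀ w : ℕ → ℂ, (∀ n, ‖w n‖ ≤ 1) →
    (∀ a : ℕ, (((Icc 1 x).filter (fun h => h ≡ a [MOD q] ∧ ¬ ∀ y : ℕ, y ≤ x →
      ‖∑ m ∈ Icc 1 y, w m * g (m + h)‖ ≤ ε * x)).card : ℝ) ≤ x / (q * Real.log x ^ A)) ∧
    (((Icc 1 x).filter (fun b => ¬ ∀ y : ℕ, q * y ≤ x →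
      ‖∑ m ∈ Icc 1 y, w m * g (q * m + b)‖ ≤ ε * (x / q))).card : ℝ) ≤ x / Real.log x ^ A := by
  classical
  obtain ⟨κ₂, hκ₂d⟩ : ∃ κ₂ : ℝ, κ₂ = ρ / 8 := ⟨_, rfl⟩
  have hκ₂ : 0 < κ₂ := by rw [hκ₂d]; positivity
  obtain ⟨κ₁, hκ₁, hκ12, N₁, hW⟩ := W_low (8 / ε ^ 2) (by positivity) hκ₂
  obtain ⟨c, hc⟩ := PBnd (A + 2) (ρ := ρ) (κ₁ := κ₁) (κ₂ := κ₂) hρ hρ1 hκ₁ hκ12 (by rw [hκ₂d])
  refine ⟨c + 1, fun B => ?_⟩
  obtain ⟨K, U, N₂, hP⟩ := hc B
  refine ⟨K, U, ?_⟩
  obtain ⟨N₃, h3⟩ := Filter.eventually_atTop.1 (ev_log 1 (s := ρ / 8) (by positivity)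
    (100 + 2 ^ c + 100 / ε))
  refine ⟨max (max N₁ N₂) (max N₃ 1), fun x hx g hg hSw => ?_⟩
  have hxN₁ : N₁ ≤ 2 * x := by
    have := le_trans (le_trans (le_max_left _ _) (le_max_left _ _)) hx
    omega
  have hxN₂ : N₂ ≤ 2 * x := by
    have := le_trans (le_trans (le_max_right N₁ N₂) (le_max_left _ _)) hx
    omega
  obtain ⟨hL, hLx⟩ := h3 x (le_trans (le_trans (le_max_left _ _) (le_max_right _ _)) hx)
  have hx1 : 1 ≤ x := le_trans (le_trans (le_max_right _ _) (le_max_right _ _)) hx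
  have hx0 : (0 : ℝ) < x := by exact_mod_cast hx1
  have hxr1 : (1 : ℝ) ≤ x := by exact_mod_cast hx1
  rw [pow_one] at hLx
  have hpc : (0 : ℝ) < 2 ^ c := by positivity
  have hpe : (0 : ℝ) < 100 / ε := by positivity
  obtain ⟨L, hLd⟩ : ∃ L, L = Real.log (x : ℝ) := ⟨_, rfl⟩
  rw [← hLd] at hL hLx
  have hL100 : 100 ≤ L := by linarith
  have hL0 : 0 < L := by linarith
  have hL1 : 1 ≤ L := by linarith
  have hcast : ((2 * x : ℕ) : ℝ) = 2 * x := by push_cast; ring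
  have hlogN : Real.log ((2 * x : ℕ) : ℝ) ≤ 2 * L := by
    rw [hcast, Real.log_mul (by norm_num) hx0.ne', ← hLd]
    have := Real.log_two_lt_d9
    linarith
  have hlogN' : L ≤ Real.log ((2 * x : ℕ) : ℝ) := by
    rw [hLd]
    exact Real.log_le_log hx0 (by rw [hcast]; linarith)
  obtain ⟨D, hD1, hD2, hD3⟩ := hP (2 * x) hxN₂ g hg hSw
  rw [← hLd]
  refine ⟨D, ?_, ?_, ?_⟩
  · refine hD1.trans ?_
    calc Real.log ((2 * x : ℕ) : ℝ) ^ c ≤ (2 * L) ^ c := pow_le_pow_left₀ (by linarith) hlogN c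
      _ = 2 ^ c * L ^ c := mul_pow _ _ _
      _ ≤ L * L ^ c := by
          gcongr
          linarith
      _ = L ^ (c + 1) := by ring
  · intro d hd
    exact lt_of_le_of_lt (pow_le_pow_left₀ hL0.le hlogN' B) (hD2 d hd)
  intro q hq1 hq hqD w hw
  have hne : NeZero q := ⟨by omega⟩
  have hq0 : (0 : ℝ) < q := by exact_mod_cast hq1
  have hqx : (q : ℝ) ≤ x := by
    calc (q : ℝ) ≤ (x : ℝ) ^ (1 - ρ) := hq
      _ ≤ (x : ℝ) ^ (1 : ℝ) := Real.rpow_le_rpow_of_exponent_le hxr1 (by linarith)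
      _ = x := Real.rpow_one _
  have hqxn : q ≤ x := by exact_mod_cast hqx
  obtain ⟨F, hF⟩ : ∃ F, F = cnv (ap (2 * x) κ₁ κ₂ g q) g := ⟨_, rfl⟩
  obtain ⟨X, hX⟩ : ∃ X : ℝ, X = ((2 * x : ℕ) : ℝ) ^ 2 / (q * Real.log ((2 * x : ℕ) : ℝ) ^ (A + 2)) := ⟨_, rfl⟩
  have hPX : ∀ β : ℝ, P q (2 * x) F β ≤ X := by
    intro β
    rw [hF, hX]
    refine hD3 q (hq.trans ?_) hqD β
    exact Real.rpow_le_rpow hx0.le (by rw [hcast]; linarith) (by linarith)
  have hXle : X ≤ 4 * (x : ℝ) ^ 2 / (q * L ^ (A + 2)) := by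
    rw [hX, hcast]
    rw [hcast] at hlogN'
    calc (2 * (x : ℝ)) ^ 2 / (q * Real.log (2 * (x : ℝ)) ^ (A + 2)) ≤ (2 * (x : ℝ)) ^ 2 / (q * L ^ (A + 2)) := by
          gcongr
      _ = _ := by ring
  have hX0 : 0 ≤ X := by
    rw [hX]
    have : 0 ≤ Real.log ((2 * x : ℕ) : ℝ) := by linarith
    positivity
  have hN1 : 1 ≤ 2 * x := by omega
  have hWq := hW (2 * x) hxN₁ q hq1 (by omega)
  -- the number of the primes
  have hcard : 3 * ((Sp (2 * x) κ₁ κ₂ q).card : ℝ) ^ 2 ≤ x / q := by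
    have e1 := Sp_card (2 * x) κ₁ κ₂ q
    have e2 : ((2 * x : ℕ) : ℝ) ^ κ₂ ≤ 2 * (x : ℝ) ^ (ρ / 8) := by
      rw [hcast, Real.mul_rpow (by norm_num) hx0.le, hκ₂d]
      have : (2 : ℝ) ^ (ρ / 8) ≤ 2 ^ (1 : ℝ) := Real.rpow_le_rpow_of_exponent_le (by norm_num) (by linarith)
      rw [Real.rpow_one] at this
      gcongr
    have e3 : (x : ℝ) ^ ρ ≤ x / q := by
      rw [le_div_iff₀ hq0]
      calc (x : ℝ) ^ ρ * q ≤ (x : ℝ) ^ ρ * (x : ℝ) ^ (1 - ρ) := by gcongr
        _ = x := by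
            rw [← Real.rpow_add hx0]
            simp
    refine le_trans ?_ e3
    calc 3 * ((Sp (2 * x) κ₁ κ₂ q).card : ℝ) ^ 2 ≤ 3 * (2 * (x : ℝ) ^ (ρ / 8)) ^ 2 := by
          gcongr
          exact e1.trans e2
      _ = 12 * (x : ℝ) ^ (ρ / 4) := by
          rw [mul_pow, ← Real.rpow_natCast ((x : ℝ) ^ (ρ / 8)), ← Real.rpow_mul hx0.le]
          have : ρ / 8 * ((2 : ℕ) : ℝ) = ρ / 4 := by
            push_cast
            ring
          rw [this]
          ring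
      _ ≤ (x : ℝ) ^ (ρ / 8) * (x : ℝ) ^ (ρ / 4) := by
          gcongr
          linarith
      _ = (x : ℝ) ^ (ρ / 8 + ρ / 4) := (Real.rpow_add hx0 _ _).symm
      _ ≤ _ := Real.rpow_le_rpow_of_exponent_le hxr1 (by linarith)
  have hcard' : 3 * ((Sp (2 * x) κ₁ κ₂ q).card : ℝ) ^ 2 ≤ x := by
    refine hcard.trans (div_le_self hx0.le ?_)
    exact_mod_cast hq1
  have hεL : 100 / ε ≤ L := by linarith
  have hεL' : 100 ≤ ε * L := by
    rw [div_le_iff₀ hε] at hεL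
    linarith
  have hxqL : L ≤ x / q := by
    rw [le_div_iff₀ hq0]
    calc L * q ≤ (x : ℝ) ^ (ρ / 8) * (x : ℝ) ^ (1 - ρ) := by gcongr
      _ = (x : ℝ) ^ (ρ / 8 + (1 - ρ)) := (Real.rpow_add hx0 _ _).symm
      _ ≤ (x : ℝ) ^ (1 : ℝ) := Real.rpow_le_rpow_of_exponent_le hxr1 (by linarith)
      _ = x := Real.rpow_one _
  have hxL : L ≤ x := hxqL.trans (div_le_self hx0.le (by exact_mod_cast hq1))
  constructor
  · -- shifts
    intro a
    obtain ⟨s, hs⟩ : ∃ s : ℕ, s = ⌊ε * x / 4⌋₊ := ⟨_, rfl⟩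
    have hεx : 25 ≤ ε * x / 4 := by
      have : ε * L ≤ ε * x := by gcongr
      linarith
    have hs1 : 1 ≤ s := by
      rw [hs, Nat.one_le_floor_iff]
      linarith
    have hsle : (s : ℝ) ≤ ε * x / 4 := by
      rw [hs]
      exact Nat.floor_le (by positivity)
    have hsge : ε * x / 8 ≤ s := by
      have : ε * x / 4 < s + 1 := by
        rw [hs]
        exact Nat.lt_floor_add_one _
      linarith
    have hs0 : (0 : ℝ) < s := by exact_mod_cast hs1
    have hJ : (((range (x / s + 1)).card : ℕ) : ℝ) ≤ L / 4 := by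
      rw [card_range]
      push_cast
      have e1 : ((x / s : ℕ) : ℝ) ≤ (x : ℝ) / s := Nat.cast_div_le
      have e2 : (x : ℝ) / s ≤ 8 / ε := by
        rw [div_le_div_iff₀ hs0 hε]
        linarith
      have e3 : 8 / ε ≤ 8 / 100 * (100 / ε) := by
        apply le_of_eq
        field_simp
      linarith
    have hch := cheb (S := (Icc 1 x).filter (fun h => h ≡ a [MOD q] ∧ ¬ ∀ y : ℕ, y ≤ x →
        ‖∑ m ∈ Icc 1 y, w m * g (m + h)‖ ≤ ε * x)) (T := (Icc 1 x).filter (fun h => h ≡ a [MOD q]))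
      (f := fun j h => ‖∑ m ∈ Icc 1 (s * j), w m * F (m + h)‖) (V := x) (B := X * x) hx0 (range (x / s + 1)) (by
        intro h hh
        rw [mem_filter] at hh
        obtain ⟨-, -, h2⟩ := hh
        push Not at h2
        obtain ⟨y, hy, hbad⟩ := h2
        refine ⟨y / s, mem_range.2 (Nat.lt_succ_of_le (Nat.div_le_div_right hy)), ?_⟩
        have h3 := grid_bad (q₁ := 1) (h := h) (s := s) (y := y) (Y := (x : ℝ)) hg hw le_rfl
          (fun p hp hp1 => (Sp_prop hp).1.one_lt.ne' (Nat.dvd_one.1 hp1)) hε hε1 hWq hcard' hs1 hsle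
          (by exact_mod_cast hy) (by simpa only [one_mul] using hbad)
        rw [hF]
        simpa only [one_mul] using h3) (by
        intro h hh
        rw [mem_filter] at hh ⊢
        exact ⟨hh.1, hh.2.1⟩) (by
        intro j hj
        rw [mem_range] at hj
        have hsj : s * j ≤ x := by
          have : s * j ≤ s * (x / s) := Nat.mul_le_mul_left s (by omega)
          exact this.trans (Nat.mul_div_le _ _)
        have h4 := ms1 (q := q) hN1 F (wt1 w (s * j)) hPX (a : ZMod q)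
        have h5 : ∑ h ∈ (Icc 1 x).filter (fun h => h ≡ a [MOD q]), ‖∑ m ∈ Icc 1 (s * j), w m * F (m + h)‖ ^ 2 ≤
            ∑ k ∈ (Icc (-((2 * x : ℕ) : ℤ)) ((2 * x : ℕ) : ℤ)).filter (fun k : ℤ => (k : ZMod q) = (a : ZMod q)),
              ‖cor (2 * x) F (wt1 w (s * j)) k‖ ^ 2 := by
          calc ∑ h ∈ (Icc 1 x).filter (fun h => h ≡ a [MOD q]), ‖∑ m ∈ Icc 1 (s * j), w m * F (m + h)‖ ^ 2 =
              ∑ h ∈ (Icc 1 x).filter (fun h => h ≡ a [MOD q]), ‖cor (2 * x) F (wt1 w (s * j)) (h : ℤ)‖ ^ 2 := by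
                refine sum_congr rfl fun h hh => ?_
                rw [mem_filter, mem_Icc] at hh
                rw [cor_wt1 F w (show s * j + h ≤ 2 * x by omega)]
            _ = ∑ k ∈ ((Icc 1 x).filter (fun h => h ≡ a [MOD q])).image (fun h : ℕ => (h : ℤ)),
                ‖cor (2 * x) F (wt1 w (s * j)) k‖ ^ 2 := by
                rw [sum_image (fun a _ b _ h => by exact_mod_cast h)]
            _ ≤ _ := by
                refine sum_le_sum_of_subset_of_nonneg ?_ fun _ _ _ => sq_nonneg _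
                intro k hk
                rw [mem_image] at hk
                obtain ⟨h, hh, rfl⟩ := hk
                rw [mem_filter, mem_Icc] at hh
                rw [mem_filter, mem_Icc]
                refine ⟨⟨by omega, by omega⟩, ?_⟩
                rw [Int.cast_natCast]
                exact (ZMod.natCast_eq_natCast_iff _ _ _).2 hh.2
        refine h5.trans (h4.trans ?_)
        refine mul_le_mul_of_nonneg_left ((wt1_sq hw (2 * x) (s * j)).trans ?_) hX0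
        exact_mod_cast hsj) (fun _ _ => norm_nonneg _)
    refine hch.trans ?_
    calc (((range (x / s + 1)).card : ℕ) : ℝ) * (X * x / (x : ℝ) ^ 2) ≤
        L / 4 * (4 * (x : ℝ) ^ 2 / (q * L ^ (A + 2)) * x / (x : ℝ) ^ 2) := by gcongr
      _ = x / (q * L ^ A) * (1 / L) := by
          rw [pow_add]
          field_simp
      _ ≤ x / (q * L ^ A) * 1 := by
          gcongr
          rw [div_le_one hL0]
          exact hL1
      _ = _ := mul_one _
  · -- linear forms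
    obtain ⟨Y, hY⟩ : ∃ Y : ℝ, Y = x / q := ⟨_, rfl⟩
    rw [← hY] at hxqL hcard
    have hY0 : 0 < Y := by linarith
    obtain ⟨s, hs⟩ : ∃ s : ℕ, s = ⌊ε * Y / 4⌋₊ := ⟨_, rfl⟩
    have hεx : 25 ≤ ε * Y / 4 := by
      have : ε * L ≤ ε * Y := by gcongr
      linarith
    have hs1 : 1 ≤ s := by
      rw [hs, Nat.one_le_floor_iff]
      linarith
    have hsle : (s : ℝ) ≤ ε * Y / 4 := by
      rw [hs]
      exact Nat.floor_le (by positivity)
    have hsge : ε * Y / 8 ≤ s := by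
      have : ε * Y / 4 < s + 1 := by
        rw [hs]
        exact Nat.lt_floor_add_one _
      linarith
    have hs0 : (0 : ℝ) < s := by exact_mod_cast hs1
    have hxq : ((x / q : ℕ) : ℝ) ≤ Y := by
      rw [hY]
      exact Nat.cast_div_le
    have hJ : (((range (x / q / s + 1)).card : ℕ) : ℝ) ≤ L / 4 := by
      rw [card_range]
      push_cast
      have e1 : ((x / q / s : ℕ) : ℝ) ≤ Y / s := Nat.cast_div_le.trans (by gcongr)
      have e2 : Y / s ≤ 8 / ε := by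
        rw [div_le_div_iff₀ hs0 hε]
        linarith
      have e3 : 8 / ε ≤ 8 / 100 * (100 / ε) := by
        apply le_of_eq
        field_simp
      linarith
    have hch := cheb (S := (Icc 1 x).filter (fun b => ¬ ∀ y : ℕ, q * y ≤ x →
        ‖∑ m ∈ Icc 1 y, w m * g (q * m + b)‖ ≤ ε * (x / q))) (T := Icc 1 x)
      (f := fun j b => ‖∑ m ∈ Icc 1 (s * j), w m * F (q * m + b)‖) (V := Y) (B := X * Y) hY0
      (range (x / q / s + 1)) (by
        intro b hb
        rw [mem_filter] at hb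
        obtain ⟨-, h2⟩ := hb
        push Not at h2
        obtain ⟨y, hy, hbad⟩ := h2
        have hy' : y ≤ x / q := (Nat.le_div_iff_mul_le hq1).2 (by rw [mul_comm]; exact hy)
        refine ⟨y / s, mem_range.2 (Nat.lt_succ_of_le (Nat.div_le_div_right hy')), ?_⟩
        rw [← hY] at hbad
        have h3 := grid_bad (q₁ := q) (h := b) (s := s) (y := y) (Y := Y) hg hw hq1
          (fun p hp => (Sp_prop hp).2.2.2) hε hε1 hWq hcard hs1 hsle
          (le_trans (by exact_mod_cast hy') hxq) hbad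
        rw [hF]
        exact h3) (filter_subset _ _) (by
        intro j hj
        rw [mem_range] at hj
        have hsj : s * j ≤ x / q := by
          have : s * j ≤ s * (x / q / s) := Nat.mul_le_mul_left s (by omega)
          exact this.trans (Nat.mul_div_le _ _)
        have hqsj : q * (s * j) ≤ x := (Nat.mul_le_mul_left q hsj).trans (Nat.mul_div_le _ _)
        have h4 := ms2 (q := q) hN1 F (wt2 w q (s * j)) hPX (fun n hn => wt2_dvd hn)
        have h5 : ∑ b ∈ Icc 1 x, ‖∑ m ∈ Icc 1 (s * j), w m * F (q * m + b)‖ ^ 2 ≤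
            ∑ k ∈ Icc (-((2 * x : ℕ) : ℤ)) ((2 * x : ℕ) : ℤ), ‖cor (2 * x) F (wt2 w q (s * j)) k‖ ^ 2 := by
          calc ∑ b ∈ Icc 1 x, ‖∑ m ∈ Icc 1 (s * j), w m * F (q * m + b)‖ ^ 2 =
              ∑ b ∈ Icc 1 x, ‖cor (2 * x) F (wt2 w q (s * j)) (b : ℤ)‖ ^ 2 := by
                refine sum_congr rfl fun b hb => ?_
                rw [mem_Icc] at hb
                rw [cor_wt2 F w hq1 (show q * (s * j) + b ≤ 2 * x by omega)]
            _ = ∑ k ∈ (Icc 1 x).image (fun h : ℕ => (h : ℤ)), ‖cor (2 * x) F (wt2 w q (s * j)) k‖ ^ 2 := by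
                rw [sum_image (fun a _ b _ h => by exact_mod_cast h)]
            _ ≤ _ := by
                refine sum_le_sum_of_subset_of_nonneg ?_ fun _ _ _ => sq_nonneg _
                intro k hk
                rw [mem_image] at hk
                obtain ⟨h, hh, rfl⟩ := hk
                rw [mem_Icc] at hh
                rw [mem_Icc]
                exact ⟨by omega, by omega⟩
        refine h5.trans (h4.trans ?_)
        refine mul_le_mul_of_nonneg_left ((wt2_sq hw (2 * x) (s * j) hq1).trans ?_) hX0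
        exact le_trans (by exact_mod_cast hsj) hxq) (fun _ _ => norm_nonneg _)
    refine hch.trans ?_
    have hYe : Y * q = x := by
      rw [hY]
      field_simp
    calc (((range (x / q / s + 1)).card : ℕ) : ℝ) * (X * Y / Y ^ 2) ≤
        L / 4 * (4 * (x : ℝ) ^ 2 / (q * L ^ (A + 2)) * Y / Y ^ 2) := by gcongr
      _ = x / L ^ A * (1 / L) * (x / (Y * q)) := by
          rw [pow_add]
          field_simp
      _ = x / L ^ A * (1 / L) := by rw [hYe, div_self hx0.ne', mul_one]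
      _ ≤ x / L ^ A * 1 := by
          gcongr
          rw [div_le_one hL0]
          exact hL1
      _ = _ := mul_one _

end Pool.Agent.H579.L
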