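import Pool.Agent.H579.L.Reg
import Pool.Agent.H579.L.Cnt
import Pool.Agent.H579.L.Dset
import Pool.Graph.R_seed8.Y708.GJ.Lift

set_option autoImplicit false

/-! The square mean over all classes modulo `q`. -/

namespace Pool.Agent.H579.L

open Finset
open Pool.Agent.Y883.GJ
open Pool.Agent.H807R2.Dav (ee)
open Pool.Agent.Y614.GJ.Core (P P_nonneg ev_log q_le_phi card_above dirich)
open Pool.Agent.R460.GR (dl Bd)

/-- the classes above a class -/
lemma cl_above {q k N : ℕ} [NeZero q] [NeZero (k * q)] (F : ℕ → ℂ) (β : ℝ) (l : ZMod q) :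
    cl q N F β l = ∑ l' ∈ univ.filter (fun l' : ZMod (k * q) => ((l'.val : ℕ) : ZMod q) = l),
      cl (k * q) N F β l' := by
  classical
  have key : ∀ n : ℕ, (((n : ZMod (k * q)).val : ℕ) : ZMod q) = (n : ZMod q) := by
    intro n
    rw [ZMod.val_natCast, ZMod.natCast_eq_natCast_iff]
    exact (Nat.mod_modEq n (k * q)).of_mul_left k
  unfold cl
  rw [← sum_fiberwise_of_maps_to (s := (Icc 1 N).filter (fun n : ℕ => (n : ZMod q) = l))
    (t := univ.filter (fun l' : ZMod (k * q) => ((l'.val : ℕ) : ZMod q) = l))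
    (g := fun n : ℕ => (n : ZMod (k * q)))]
  · refine sum_congr rfl fun l' hl' => ?_
    rw [mem_filter] at hl'
    refine sum_congr ?_ fun _ _ => rfl
    ext n
    rw [mem_filter, mem_filter, mem_filter]
    constructor
    · rintro ⟨⟨h1, -⟩, h3⟩
      exact ⟨h1, h3⟩
    · rintro ⟨h1, h3⟩
      refine ⟨⟨h1, ?_⟩, h3⟩
      rw [← key n, h3]
      exact hl'.2
  · intro n hn
    rw [mem_filter] at hn ⊢
    refine ⟨mem_univ _, ?_⟩
    rw [key n]
    exact hn.2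

/-- from the modulus `q` to the modulus `k q` -/
lemma P_above {q k N : ℕ} [NeZero q] [NeZero (k * q)] (F : ℕ → ℂ) (β : ℝ) :
    P q N F β ≤ k * P (k * q) N F β := by
  classical
  unfold P
  have h1 : ∀ l : ZMod q, ‖cl q N F β l‖ ^ 2 ≤
      k * ∑ l' ∈ univ.filter (fun l' : ZMod (k * q) => ((l'.val : ℕ) : ZMod q) = l), ‖cl (k * q) N F β l'‖ ^ 2 := by
    intro l
    rw [cl_above (k := k) F β l]
    have hc : ((univ.filter (fun l' : ZMod (k * q) => ((l'.val : ℕ) : ZMod q) = l)).card : ℝ) ≤ k := by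
      exact_mod_cast card_above k q l
    calc ‖∑ l' ∈ univ.filter (fun l' : ZMod (k * q) => ((l'.val : ℕ) : ZMod q) = l), cl (k * q) N F β l'‖ ^ 2 ≤
        (∑ l' ∈ univ.filter (fun l' : ZMod (k * q) => ((l'.val : ℕ) : ZMod q) = l), ‖cl (k * q) N F β l'‖) ^ 2 := by
          gcongr
          exact norm_sum_le _ _
      _ ≤ (univ.filter (fun l' : ZMod (k * q) => ((l'.val : ℕ) : ZMod q) = l)).card *
          ∑ l' ∈ univ.filter (fun l' : ZMod (k * q) => ((l'.val : ℕ) : ZMod q) = l), ‖cl (k * q) N F β l'‖ ^ 2 :=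
          sq_sum_le_card_mul_sum_sq
      _ ≤ _ := by gcongr
  refine (sum_le_sum fun l _ => h1 l).trans ?_
  rw [← mul_sum]
  refine mul_le_mul_of_nonneg_left (le_of_eq ?_) (Nat.cast_nonneg _)
  exact sum_fiberwise_of_maps_to (fun l' _ => mem_univ _) _

lemma P_lift {q k N : ℕ} [NeZero q] [NeZero (k * q)] (F : ℕ → ℂ) {h : ℤ} {β η : ℝ}
    (hβ : β = h / (k * q : ℕ) + η) : P (k * q) N F β = P (k * q) N F η := by
  obtain ⟨-, l2⟩ := Pool.Agent.Y708.GJ.lift q k N F F h β η hβ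
  unfold P
  exact sum_congr rfl fun l _ => by rw [l2]

lemma phi_inv {r N : ℕ} (hr : 0 < r) (hrN : r ≤ N) (hL : 1 ≤ Real.log N) :
    ((r.totient : ℝ))⁻¹ ≤ 3 * Real.log N / r := by
  have hφ0 : (0 : ℝ) < r.totient := by exact_mod_cast Nat.totient_pos.2 hr
  have hr0 : (0 : ℝ) < r := by exact_mod_cast hr
  have h1 := q_le_phi hr
  have h2 : Real.log r ≤ Real.log N := Real.log_le_log hr0 (by exact_mod_cast hrN)
  rw [inv_eq_one_div, div_le_div_iff₀ hφ0 hr0, one_mul]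
  refine h1.trans ?_
  rw [mul_comm (3 * Real.log N)]
  apply mul_le_mul_of_nonneg_left _ hφ0.le
  linarith

/-- the bound for the square mean from the bounds for the characters -/
theorem Psum (A : ℕ) {δ : ℝ} (hδ : 0 < δ) : ∃ N₀ : ℕ, ∀ N : ℕ, N₀ ≤ N → ∀ (q : ℕ) [NeZero q], q ≤ N →
    ∀ F : ℕ → ℂ, (∀ n, ‖F n‖ ≤ (n.divisors.card : ℝ)) → ∀ c : ℕ → ℂ, (∀ g, g ∣ q → ‖c g‖ ≤ 1) →
    (∀ g, g ∣ q → ∀ n, F (g * n) = c g * F n) → ∀ β : ℝ,
    (∀ g, g ∣ q → (g : ℝ) ≤ (N : ℝ) ^ δ → ∀ [NeZero (q / g)], ∑ χ : DirichletCharacter ℂ (q / g),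
      ‖cs (q / g) (N / g) F (g * β) χ‖ ^ 2 ≤ ((N / g : ℕ) : ℝ) ^ 2 / Real.log N ^ (A + 3)) →
    P q N F β ≤ (N : ℝ) ^ 2 / (q * Real.log N ^ A) := by
  obtain ⟨N₁, hdv⟩ := div_N (ε := δ / 6) (by positivity)
  obtain ⟨N₂, hN₂⟩ := Filter.eventually_atTop.1 (ev_log (A + 1) (s := δ / 6) (by positivity) 16)
  refine ⟨max (max N₁ N₂) 1, fun N hN q _ hqN F hF c hc hFc β hsmall => ?_⟩
  have hNN₁ : N₁ ≤ N := le_trans (le_trans (le_max_left _ _) (le_max_left _ _)) hN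
  obtain ⟨hL16, hLA⟩ := hN₂ N (le_trans (le_trans (le_max_right _ _) (le_max_left _ _)) hN)
  have hN1 : 1 ≤ N := le_trans (le_max_right _ _) hN
  have hN0 : (0 : ℝ) < N := by exact_mod_cast hN1
  have hNr1 : (1 : ℝ) ≤ N := by exact_mod_cast hN1
  have hq1 : 1 ≤ q := NeZero.pos q
  have hq0 : (0 : ℝ) < q := by exact_mod_cast hq1
  obtain ⟨L, hLd⟩ : ∃ L, L = Real.log (N : ℝ) := ⟨_, rfl⟩
  have hφ : ∀ r : ℕ, 0 < r → r ≤ N → ((r.totient : ℝ))⁻¹ ≤ 3 * L / r := fun r h1 h2 => by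
    rw [hLd]
    exact phi_inv h1 h2 (by linarith)
  rw [← hLd] at hL16 hLA hsmall ⊢
  have hL0 : 0 < L := by linarith
  have hL1 : 1 ≤ L := by linarith
  have hterm : ∀ g ∈ q.divisors, Ps (q / g) (N / g) F (g * β) ≤
      (N : ℝ) ^ 2 / q * (3 / L ^ (A + 2)) * ((g : ℝ))⁻¹ + (N : ℝ) ^ 2 / q * (N : ℝ) ^ (-(δ / 3)) := by
    intro g hg
    rw [Nat.mem_divisors] at hg
    obtain ⟨hgq, -⟩ := hg
    have hg0 : 0 < g := Nat.pos_of_dvd_of_pos hgq hq1
    have hgr : (0 : ℝ) < g := by exact_mod_cast hg0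
    have hr0 : 0 < q / g := Nat.div_pos (Nat.le_of_dvd hq1 hgq) hg0
    have hrN : q / g ≤ N := (Nat.div_le_self _ _).trans hqN
    have hne : NeZero (q / g) := ⟨hr0.ne'⟩
    have hrr : ((q / g : ℕ) : ℝ) = (q : ℝ) / g := Nat.cast_div_charZero hgq
    have hM : ((N / g : ℕ) : ℝ) ≤ (N : ℝ) / g := Nat.cast_div_le
    have hM0 : (0 : ℝ) ≤ ((N / g : ℕ) : ℝ) := Nat.cast_nonneg _
    have hA0 : 0 ≤ (N : ℝ) ^ 2 / q * (3 / L ^ (A + 2)) * ((g : ℝ))⁻¹ := by positivity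
    have hB0 : 0 ≤ (N : ℝ) ^ 2 / q * (N : ℝ) ^ (-(δ / 3)) := by positivity
    by_cases hgs : (g : ℝ) ≤ (N : ℝ) ^ δ
    · have h1 := hsmall g hgq hgs
      rw [Ps_eq]
      have h2 : (((q / g).totient : ℝ))⁻¹ * ∑ χ : DirichletCharacter ℂ (q / g), ‖cs (q / g) (N / g) F (g * β) χ‖ ^ 2 ≤
          (3 * L / ((q : ℝ) / g)) * (((N : ℝ) / g) ^ 2 / L ^ (A + 3)) := by
        have h3 := hφ (q / g) hr0 hrN
        rw [hrr] at h3
        refine mul_le_mul h3 (h1.trans ?_) (sum_nonneg fun _ _ => by positivity) (by positivity)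
        gcongr
      have h3 : (3 * L / ((q : ℝ) / g)) * (((N : ℝ) / g) ^ 2 / L ^ (A + 3)) =
          (N : ℝ) ^ 2 / q * (3 / L ^ (A + 2)) * ((g : ℝ))⁻¹ := by
        have h4 : L ^ (A + 3) = L ^ (A + 2) * L := by ring
        rw [h4]
        field_simp
      linarith
    · rw [not_le] at hgs
      -- the trivial estimate
      have h1 : Ps (q / g) (N / g) F (g * β) ≤ P (q / g) (N / g) F (g * β) := by
        rw [P_range]
        unfold Ps
        exact sum_le_sum_of_subset_of_nonneg (filter_subset _ _) fun _ _ _ => by positivity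
      have h2 := (Pool.Agent.Y812.GJ.l2 (q / g) (N / g) F).2 (g * β)
      have h3 : ∑ n ∈ Icc 1 (N / g), ‖F n‖ ^ 2 ≤ ((N / g : ℕ) : ℝ) * ((N : ℝ) ^ (δ / 6)) ^ 2 := by
        calc ∑ n ∈ Icc 1 (N / g), ‖F n‖ ^ 2 ≤ ∑ n ∈ Icc 1 (N / g), ((N : ℝ) ^ (δ / 6)) ^ 2 := by
              refine sum_le_sum fun n hn => ?_
              rw [mem_Icc] at hn
              gcongr
              exact (hF n).trans (hdv N hNN₁ n hn.1 (hn.2.trans (Nat.div_le_self _ _)))
          _ = _ := by rw [sum_const, Nat.card_Icc, Nat.add_sub_cancel, nsmul_eq_mul]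
      have h4 : ((N / g : ℕ) : ℝ) / ((q / g : ℕ) : ℝ) + 1 ≤ 2 * ((N : ℝ) / q) := by
        have e1 : ((N / g : ℕ) : ℝ) / ((q / g : ℕ) : ℝ) ≤ (N : ℝ) / q := by
          rw [hrr]
          calc ((N / g : ℕ) : ℝ) / ((q : ℝ) / g) ≤ ((N : ℝ) / g) / ((q : ℝ) / g) := by gcongr
            _ = (N : ℝ) / q := by field_simp
        have e2 : 1 ≤ (N : ℝ) / q := by
          rw [le_div_iff₀ hq0, one_mul]
          exact_mod_cast hqN
        linarith
      have h5 : P (q / g) (N / g) F (g * β) ≤ (2 * ((N : ℝ) / q)) * (((N : ℝ) / g) * ((N : ℝ) ^ (δ / 6)) ^ 2) := by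
        refine h2.trans ?_
        refine mul_le_mul h4 (h3.trans ?_) (sum_nonneg fun _ _ => by positivity) (by positivity)
        gcongr
      have h6 : (2 * ((N : ℝ) / q)) * (((N : ℝ) / g) * ((N : ℝ) ^ (δ / 6)) ^ 2) ≤
          (N : ℝ) ^ 2 / q * (N : ℝ) ^ (-(δ / 3)) := by
        have e1 : ((N : ℝ) / g) ≤ (N : ℝ) * (N : ℝ) ^ (-δ) := by
          rw [Real.rpow_neg hN0.le, ← div_eq_mul_inv]
          gcongr
        have e2 : (2 : ℝ) ≤ (N : ℝ) ^ (δ / 3) := by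
          calc (2 : ℝ) ≤ L := by linarith
            _ = L ^ 1 := (pow_one _).symm
            _ ≤ L ^ (A + 1) := pow_le_pow_right₀ hL1 (by omega)
            _ ≤ (N : ℝ) ^ (δ / 6) := hLA
            _ ≤ (N : ℝ) ^ (δ / 3) := Real.rpow_le_rpow_of_exponent_le hNr1 (by linarith)
        calc (2 * ((N : ℝ) / q)) * (((N : ℝ) / g) * ((N : ℝ) ^ (δ / 6)) ^ 2) ≤
            ((N : ℝ) ^ (δ / 3) * ((N : ℝ) / q)) * (((N : ℝ) * (N : ℝ) ^ (-δ)) * ((N : ℝ) ^ (δ / 6)) ^ 2) := by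
              gcongr
          _ = (N : ℝ) ^ 2 / q * ((N : ℝ) ^ (δ / 3) * (N : ℝ) ^ (-δ) * ((N : ℝ) ^ (δ / 6)) ^ 2) := by
              ring
          _ = (N : ℝ) ^ 2 / q * (N : ℝ) ^ (-(δ / 3)) := by
              have e3 : ((N : ℝ) ^ (δ / 6)) ^ 2 = (N : ℝ) ^ (δ / 3) := by
                rw [← Real.rpow_natCast, ← Real.rpow_mul hN0.le]
                congr 1
                push_cast
                ring
              rw [e3, ← Real.rpow_add hN0, ← Real.rpow_add hN0]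
              congr 2
              ring
      linarith
  refine (pdec q N F β c hc hFc).trans ((sum_le_sum hterm).trans ?_)
  rw [sum_add_distrib, ← mul_sum, sum_const, nsmul_eq_mul]
  have h1 : ∑ g ∈ q.divisors, ((g : ℝ))⁻¹ ≤ 1 + L := by
    refine div_harm.trans ?_
    have : Real.log q ≤ L := by
      rw [hLd]
      exact Real.log_le_log hq0 (by exact_mod_cast hqN)
    linarith
  have h2 : (N : ℝ) ^ 2 / q * (3 / L ^ (A + 2)) * ∑ g ∈ q.divisors, ((g : ℝ))⁻¹ ≤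
      (N : ℝ) ^ 2 / (q * L ^ A) * (1 / 2) := by
    calc (N : ℝ) ^ 2 / q * (3 / L ^ (A + 2)) * ∑ g ∈ q.divisors, ((g : ℝ))⁻¹ ≤
        (N : ℝ) ^ 2 / q * (3 / L ^ (A + 2)) * (1 + L) := by gcongr
      _ = (N : ℝ) ^ 2 / (q * L ^ A) * (3 * (1 + L) / L ^ 2) := by
          rw [pow_add]
          field_simp
      _ ≤ (N : ℝ) ^ 2 / (q * L ^ A) * (1 / 2) := by
          refine mul_le_mul_of_nonneg_left ?_ (by positivity)
          rw [div_le_div_iff₀ (by positivity) (by norm_num)]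
          nlinarith
  have h3 : (q.divisors.card : ℝ) * ((N : ℝ) ^ 2 / q * (N : ℝ) ^ (-(δ / 3))) ≤
      (N : ℝ) ^ 2 / (q * L ^ A) * (1 / 2) := by
    calc (q.divisors.card : ℝ) * ((N : ℝ) ^ 2 / q * (N : ℝ) ^ (-(δ / 3))) ≤
        (N : ℝ) ^ (δ / 6) * ((N : ℝ) ^ 2 / q * (N : ℝ) ^ (-(δ / 3))) := by
          gcongr
          exact hdv N hNN₁ q hq1 hqN
      _ = (N : ℝ) ^ 2 / q * (N : ℝ) ^ (-(δ / 6)) := by
          rw [mul_left_comm, ← Real.rpow_add hN0]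
          congr 2
          ring
      _ ≤ (N : ℝ) ^ 2 / q * (1 / L ^ (A + 1)) := by
          gcongr
          rw [Real.rpow_neg hN0.le, ← one_div]
          exact one_div_le_one_div_of_le (by positivity) hLA
      _ = (N : ℝ) ^ 2 / (q * L ^ A) * (1 / L) := by
          have h4 : L ^ (A + 1) = L ^ A * L := by ring
          rw [h4]
          field_simp
      _ ≤ _ := by
          gcongr
          linarith
  linarith

end Pool.Agent.H579.L
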