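import Pool.Graph.R_seed8.R460.GS.J1
import Pool.Graph.R_seed8.Y614.GJ.Core
import Pool.Graph.R_seed8.Y297.GJ.Orth

set_option autoImplicit false

/-! The decomposition of the square mean over all classes modulo `q` according to the greatest common
divisor of the class and `q`, for functions `F` with `F (g n) = c g * F n` for the divisors `g` of `q`. -/

namespace Pool.Agent.H579.L

open Finset
open Pool.Agent.H807R2.Dav (ee)
open Pool.Agent.Y883.GJ
open Pool.Agent.Y614.GJ.Core (P P_nonneg)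

/-- convolution -/
noncomputable def cnv (a b : ℕ → ℂ) (n : ℕ) : ℂ := ∑ d ∈ n.divisors, a d * b (n / d)

lemma cnv_sum (X : ℕ) (a b E : ℕ → ℂ) : ∑ n ∈ Icc 1 X, cnv a b n * E n =
    ∑ d ∈ Icc 1 X, ∑ m ∈ Icc 1 (X / d), a d * b m * E (d * m) := by
  have h := Pool.Agent.R460.GS.dirV (V := ℂ) X (fun d m => a d * b m * E (d * m))
  rw [← h]
  refine sum_congr rfl fun n _ => ?_
  unfold cnv
  rw [sum_mul]
  refine sum_congr rfl fun d hd => ?_
  rw [Nat.mem_divisors] at hd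
  rw [Nat.mul_div_cancel' hd.1]

/-- the square mean over the classes prime to `q` -/
noncomputable def Ps (q N : ℕ) (F : ℕ → ℂ) (β : ℝ) : ℝ :=
  ∑ l ∈ (range q).filter (fun l => l.Coprime q), ‖cl q N F β (l : ZMod q)‖ ^ 2

lemma Ps_nonneg (q N : ℕ) (F : ℕ → ℂ) (β : ℝ) : 0 ≤ Ps q N F β := sum_nonneg fun _ _ => by positivity

lemma P_range (q N : ℕ) [NeZero q] (F : ℕ → ℂ) (β : ℝ) :
    P q N F β = ∑ l ∈ range q, ‖cl q N F β (l : ZMod q)‖ ^ 2 := by
  unfold P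
  refine sum_nbij' (fun l => l.val) (fun l => (l : ZMod q)) ?_ ?_ ?_ ?_ ?_
  · intro l _
    exact mem_range.2 (ZMod.val_lt l)
  · intro l _
    exact mem_univ _
  · intro l _
    exact ZMod.natCast_zmod_val l
  · intro l hl
    rw [mem_range] at hl
    exact ZMod.val_natCast_of_lt hl
  · intro l _
    rw [ZMod.natCast_zmod_val]

lemma Ps_eq (q N : ℕ) [NeZero q] (F : ℕ → ℂ) (β : ℝ) :
    Ps q N F β = (q.totient : ℝ)⁻¹ * ∑ χ : DirichletCharacter ℂ q, ‖cs q N F β χ‖ ^ 2 := by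
  classical
  obtain ⟨-, -, h⟩ := Pool.Agent.Y297.GJ.orth q N F β ∅
  have hφ : (0 : ℝ) < q.totient := by exact_mod_cast Nat.totient_pos.2 (NeZero.pos q)
  rw [h, inv_mul_cancel_left₀ hφ.ne']
  unfold Ps
  refine sum_nbij' (fun l => (l : ZMod q)) (fun l => l.val) ?_ ?_ ?_ ?_ ?_
  · intro l hl
    rw [mem_filter] at hl ⊢
    exact ⟨mem_univ _, (ZMod.isUnit_iff_coprime l q).2 hl.2⟩
  · intro l hl
    rw [mem_filter] at hl ⊢
    refine ⟨mem_range.2 (ZMod.val_lt l), ?_⟩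
    have h1 := hl.2
    rw [← ZMod.natCast_zmod_val l] at h1
    exact (ZMod.isUnit_iff_coprime _ q).1 h1
  · intro l hl
    rw [mem_filter, mem_range] at hl
    exact ZMod.val_natCast_of_lt hl.1
  · intro l _
    exact ZMod.natCast_zmod_val l
  · intro l _
    rfl

/-- the sum over a class which is divisible by `g` -/
lemma cl_mul {q N g l : ℕ} (F : ℕ → ℂ) (β : ℝ) (c : ℂ) (hg : 0 < g) (hgq : g ∣ q)
    (hF : ∀ n, F (g * n) = c * F n) :
    cl q N F β ((g * l : ℕ) : ZMod q) = c * cl (q / g) (N / g) F (g * β) (l : ZMod (q / g)) := by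
  obtain ⟨r, rfl⟩ := hgq
  rw [Nat.mul_div_cancel_left r hg]
  unfold cl
  rw [mul_sum]
  symm
  refine sum_nbij' (fun n => g * n) (fun n => n / g) ?_ ?_ ?_ ?_ ?_
  · intro n hn
    rw [mem_filter, mem_Icc] at hn ⊢
    obtain ⟨⟨h1, h2⟩, h3⟩ := hn
    refine ⟨⟨Nat.mul_pos hg h1, ?_⟩, ?_⟩
    · calc g * n ≤ g * (N / g) := Nat.mul_le_mul_left _ h2
        _ ≤ N := Nat.mul_div_le _ _
    · rw [ZMod.natCast_eq_natCast_iff] at h3 ⊢
      exact h3.mul_left' g
  · intro n hn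
    rw [mem_filter, mem_Icc] at hn ⊢
    obtain ⟨⟨h1, h2⟩, h3⟩ := hn
    rw [ZMod.natCast_eq_natCast_iff] at h3
    have hgn : g ∣ n := by
      have h4 : n ≡ g * l [MOD g] := h3.of_mul_right r
      have h5 : g * l ≡ 0 [MOD g] := (Nat.modEq_zero_iff_dvd).2 (dvd_mul_right _ _)
      exact (Nat.modEq_zero_iff_dvd).1 (h4.trans h5)
    obtain ⟨n', rfl⟩ := hgn
    rw [Nat.mul_div_cancel_left n' hg]
    refine ⟨⟨Nat.pos_of_mul_pos_left h1 |> fun h => h, ?_⟩, ?_⟩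
    · rw [Nat.le_div_iff_mul_le hg, mul_comm]
      exact h2
    · rw [ZMod.natCast_eq_natCast_iff]
      exact Nat.ModEq.mul_left_cancel' hg.ne' h3
  · intro n _
    exact Nat.mul_div_cancel_left n hg
  · intro n hn
    rw [mem_filter, mem_Icc] at hn
    obtain ⟨⟨h1, h2⟩, h3⟩ := hn
    rw [ZMod.natCast_eq_natCast_iff] at h3
    have hgn : g ∣ n := by
      have h4 : n ≡ g * l [MOD g] := h3.of_mul_right r
      have h5 : g * l ≡ 0 [MOD g] := (Nat.modEq_zero_iff_dvd).2 (dvd_mul_right _ _)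
      exact (Nat.modEq_zero_iff_dvd).1 (h4.trans h5)
    exact Nat.mul_div_cancel' hgn
  · intro n _
    rw [hF]
    push_cast
    rw [show (g : ℝ) * (n : ℝ) * β = (n : ℝ) * (g * β) by ring]
    ring

/-- the decomposition -/
theorem pdec (q N : ℕ) [NeZero q] (F : ℕ → ℂ) (β : ℝ) (c : ℕ → ℂ) (hc : ∀ g, g ∣ q → ‖c g‖ ≤ 1)
    (hF : ∀ g, g ∣ q → ∀ n, F (g * n) = c g * F n) :
    P q N F β ≤ ∑ g ∈ q.divisors, Ps (q / g) (N / g) F (g * β) := by
  classical
  have hq : 0 < q := NeZero.pos q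
  rw [P_range]
  rw [← sum_fiberwise_of_maps_to (s := range q) (t := q.divisors) (g := fun l => Nat.gcd l q)
    (fun l _ => Nat.mem_divisors.2 ⟨Nat.gcd_dvd_right _ _, hq.ne'⟩)]
  refine sum_le_sum fun g hg => ?_
  rw [Nat.mem_divisors] at hg
  have hg0 : 0 < g := Nat.pos_of_dvd_of_pos hg.1 hq
  obtain ⟨r, hr⟩ := hg.1
  have hr0 : 0 < r := by
    rcases Nat.eq_zero_or_pos r with h | h
    · rw [h, mul_zero] at hr
      omega
    · exact h
  have hqr : q / g = r := by rw [hr, Nat.mul_div_cancel_left r hg0]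
  have h1 : ∀ l ∈ (range q).filter (fun l => Nat.gcd l q = g),
      ‖cl q N F β (l : ZMod q)‖ ^ 2 ≤ ‖cl (q / g) (N / g) F (g * β) ((l / g : ℕ) : ZMod (q / g))‖ ^ 2 := by
    intro l hl
    rw [mem_filter] at hl
    have h2 : g ∣ l := hl.2 ▸ Nat.gcd_dvd_left l q
    obtain ⟨m, rfl⟩ := h2
    rw [Nat.mul_div_cancel_left m hg0, cl_mul F β (c g) hg0 hg.1 (hF g hg.1), norm_mul, mul_pow]
    calc ‖c g‖ ^ 2 * ‖cl (q / g) (N / g) F (g * β) (m : ZMod (q / g))‖ ^ 2 ≤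
        1 * ‖cl (q / g) (N / g) F (g * β) (m : ZMod (q / g))‖ ^ 2 :=
          mul_le_mul_of_nonneg_right (pow_le_one₀ (norm_nonneg _) (hc g hg.1)) (by positivity)
      _ = _ := one_mul _
  refine (sum_le_sum h1).trans ?_
  unfold Ps
  rw [← sum_image (f := fun m : ℕ => ‖cl (q / g) (N / g) F (g * β) (m : ZMod (q / g))‖ ^ 2) (g := fun l => l / g)]
  · refine sum_le_sum_of_subset_of_nonneg ?_ fun _ _ _ => by positivity
    intro m hm
    rw [mem_image] at hm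
    obtain ⟨l, hl, rfl⟩ := hm
    rw [mem_filter, mem_range] at hl ⊢
    have h2 : g ∣ l := hl.2 ▸ Nat.gcd_dvd_left l q
    obtain ⟨m, rfl⟩ := h2
    rw [Nat.mul_div_cancel_left m hg0, hqr]
    have h3 := hl.2
    rw [hr, Nat.gcd_mul_left] at h3
    refine ⟨?_, ?_⟩
    · have h4 := hl.1
      rw [hr] at h4
      exact Nat.lt_of_mul_lt_mul_left h4
    · exact Nat.eq_of_mul_eq_mul_left hg0 (by rw [h3, mul_one])
  · intro x hx y hy hxy
    rw [coe_filter, Set.mem_ofPred_eq] at hx hy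
    have h2 : g ∣ x := hx.2 ▸ Nat.gcd_dvd_left x q
    have h3 : g ∣ y := hy.2 ▸ Nat.gcd_dvd_left y q
    have hxy' : x / g = y / g := hxy
    rw [← Nat.mul_div_cancel' h2, ← Nat.mul_div_cancel' h3, hxy']

end Pool.Agent.H579.L
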