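import Pool.Agent.H579.L.Uni
import Pool.Graph.R_seed8.R460.GR.D2

set_option autoImplicit false

/-! The sum of a bilinear function over a character which has no large sum over a short class. -/

namespace Pool.Agent.H579.L

open Finset
open Pool.Agent.H807R2.Dav (ee ee_zero)
open Pool.Agent.Y883.GJ
open Pool.Agent.Y614.GJ.Core (ev_log)
open Pool.Agent.R460.GR (dl Bd)
open Pool.Agent.Y183.GJ (ci gi Yi Xi gi_pos gi_succ gi_le lt_gi ai wn w_sum decomp)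

lemma bil_triv {a b E : ℕ → ℂ} (ha : ∀ m, ‖a m‖ ≤ 1) (hb : ∀ m, ‖b m‖ ≤ 1) (hE : ∀ m, ‖E m‖ ≤ 1) (y : ℕ) :
    ‖∑ n ∈ Icc 1 y, cnv a b n * E n‖ ≤ y * (1 + Real.log y) := by
  rw [cnv_sum]
  calc ‖∑ d ∈ Icc 1 y, ∑ m ∈ Icc 1 (y / d), a d * b m * E (d * m)‖ ≤
      ∑ d ∈ Icc 1 y, ∑ m ∈ Icc 1 (y / d), (1 : ℝ) := by
        refine (norm_sum_le _ _).trans (sum_le_sum fun d _ => (norm_sum_le _ _).trans (sum_le_sum fun m _ => ?_))
        rw [norm_mul, norm_mul]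
        exact mul_le_one₀ (mul_le_one₀ (ha d) (norm_nonneg _) (hb m)) (norm_nonneg _) (hE _)
    _ ≤ ∑ d ∈ Icc 1 y, (y : ℝ) * ((d : ℝ))⁻¹ := by
        refine sum_le_sum fun d hd => ?_
        rw [sum_const, Nat.card_Icc, Nat.add_sub_cancel, nsmul_eq_mul, mul_one, ← div_eq_mul_inv]
        exact Nat.cast_div_le
    _ = y * ∑ d ∈ Icc 1 y, ((d : ℝ))⁻¹ := by rw [mul_sum]
    _ ≤ y * (1 + Real.log y) := by
        refine mul_le_mul_of_nonneg_left ?_ (Nat.cast_nonneg _)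
        have := harmonic_le_one_add_log y
        rw [harmonic_eq_sum_Icc] at this
        push_cast at this
        exact this

theorem ptw (U : ℕ) {κ₁ κ₂ : ℝ} (h1 : 0 < κ₁) (h2 : κ₂ ≤ 1 / 2) : ∃ K₂ K N₀ : ℕ, ∀ N : ℕ, N₀ ≤ N →
    ∀ a b : ℕ → ℂ, Cf N κ₁ κ₂ a b → ∀ (d : ℕ) (χ : DirichletCharacter ℂ d), ¬ Bd N K₂ K a d χ →
    ∀ y : ℕ, y ≤ N → ‖∑ n ∈ Icc 1 y, cnv a b n * χ (n : ZMod d)‖ ≤ y / Real.log N ^ U + (N : ℝ) ^ (3 / 4 : ℝ) := by
  obtain ⟨p₁, hp₁⟩ : ∃ p₁ : ℕ, 2 ^ 12 = p₁ := ⟨_, rfl⟩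
  obtain ⟨p₂, hp₂⟩ : ∃ p₂ : ℕ, 2 ^ 6 = p₂ := ⟨_, rfl⟩
  obtain ⟨K₂, hK₂⟩ : ∃ K₂ : ℕ, K₂ = 2 * U + p₁ + 2 := ⟨_, rfl⟩
  obtain ⟨K, hK⟩ : ∃ K : ℕ, K = 2 * K₂ + U + 3 := ⟨_, rfl⟩
  obtain ⟨n1, hn1⟩ := Filter.eventually_atTop.1 (ev_log (2 * K₂) (s := 1 / 2) (by norm_num) 1000)
  obtain ⟨n2, hn2⟩ := Filter.eventually_atTop.1 (ev_log 2 (s := 1 / 4) (by norm_num) 1000)
  refine ⟨K₂, K, max (max n1 n2) 1, fun N hN a b hab d χ hχ y hy => ?_⟩
  have hN1 : 1 ≤ N := le_trans (le_max_right _ _) hN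
  obtain ⟨hLL, hpow⟩ := hn1 N (le_trans (le_trans (le_max_left _ _) (le_max_left _ _)) hN)
  obtain ⟨-, hpow2⟩ := hn2 N (le_trans (le_trans (le_max_right _ _) (le_max_left _ _)) hN)
  have hN0 : (0 : ℝ) < N := by exact_mod_cast hN1
  have hNr1 : (1 : ℝ) ≤ N := by exact_mod_cast hN1
  have hyN : (y : ℝ) ≤ N := by exact_mod_cast hy
  have hχ1 : ∀ m : ℕ, ‖χ (m : ZMod d)‖ ≤ 1 := fun m => DirichletCharacter.norm_le_one χ _
  have hN34 : (0 : ℝ) ≤ (N : ℝ) ^ (3 / 4 : ℝ) := by positivity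
  rcases Nat.eq_zero_or_pos y with hy0 | hy1
  · rw [hy0, Icc_eq_empty (by norm_num), sum_empty, norm_zero, Nat.cast_zero, zero_div, zero_add]
    exact hN34
  have hy0 : (0 : ℝ) < y := by exact_mod_cast hy1
  have hlogy : Real.log y ≤ Real.log N := Real.log_le_log hy0 hyN
  have hlogy0 : 0 ≤ Real.log y := Real.log_natCast_nonneg y
  by_cases hysm : (y : ℝ) ≤ (N : ℝ) ^ (1 / 2 : ℝ)
  · have h3 := bil_triv (E := fun n => χ (n : ZMod d)) hab.ba hab.bb hχ1 y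
    refine h3.trans ?_
    have h4 : (y : ℝ) * (1 + Real.log y) ≤ (N : ℝ) ^ (1 / 2 : ℝ) * (Real.log N ^ 2) := by
      have : 1 + Real.log y ≤ Real.log N ^ 2 := by nlinarith
      gcongr
    have h5 : (N : ℝ) ^ (1 / 2 : ℝ) * (Real.log N ^ 2) ≤ (N : ℝ) ^ (3 / 4 : ℝ) := by
      calc (N : ℝ) ^ (1 / 2 : ℝ) * (Real.log N ^ 2) ≤ (N : ℝ) ^ (1 / 2 : ℝ) * (N : ℝ) ^ (1 / 4 : ℝ) := by gcongr
        _ = (N : ℝ) ^ (3 / 4 : ℝ) := by
            rw [← Real.rpow_add hN0]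
            norm_num
    have h6 : 0 ≤ (y : ℝ) / Real.log N ^ U := by positivity
    linarith
  rw [not_le] at hysm
  obtain ⟨L, hL⟩ : ∃ L, L = Real.log (N : ℝ) := ⟨_, rfl⟩
  obtain ⟨δ, hδd⟩ : ∃ δ : ℝ, δ = (L ^ (2 * K₂))⁻¹ := ⟨_, rfl⟩
  obtain ⟨I, hI⟩ : ∃ I : ℕ, I = ⌊L / δ⌋₊ + 1 := ⟨_, rfl⟩
  have hgood : ∀ i ∈ range I, ‖∑ m ∈ Icc 1 (Xi δ i), ai δ a i m * χ (m : ZMod d)‖ ≤ gi δ i * (L ^ K)⁻¹ := by
    intro i hi
    by_contra hcon
    rw [not_le] at hcon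
    apply hχ
    unfold Bd dl
    rw [← hL, ← hδd, ← hI]
    exact ⟨i, hi, hcon⟩
  rw [← hL] at hLL hpow hpow2 hlogy ⊢
  have hL0 : 0 < L := by linarith
  have hL1 : 1 ≤ L := by linarith
  have hLp : 0 < L ^ (2 * K₂) := by positivity
  have hδ : 0 < δ := by
    rw [hδd]
    positivity
  have hδL : δ * L ^ (2 * K₂) = 1 := by
    rw [hδd, inv_mul_cancel₀ hLp.ne']
  have hI1 : (I : ℝ) ≤ L ^ (2 * K₂ + 2) := by
    have h3 : L / δ = L * L ^ (2 * K₂) := by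
      rw [hδd, div_inv_eq_mul]
    have h4 : ((⌊L / δ⌋₊ : ℕ) : ℝ) ≤ L * L ^ (2 * K₂) := by
      rw [← h3]
      exact Nat.floor_le (by positivity)
    have h5 : 1 ≤ L * L ^ (2 * K₂) := one_le_mul_of_one_le_of_one_le hL1 (one_le_pow₀ hL1)
    rw [hI]
    push_cast
    calc ((⌊L / δ⌋₊ : ℕ) : ℝ) + 1 ≤ 2 * (L * L ^ (2 * K₂)) := by linarith
      _ ≤ L * (L * L ^ (2 * K₂)) := mul_le_mul_of_nonneg_right (by linarith) (by positivity)
      _ = L ^ (2 * K₂ + 2) := by ring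
  have hamy : ∀ m, a m ≠ 0 → m ≤ y := by
    intro m hm
    have h3 : (m : ℝ) ≤ y := by
      calc (m : ℝ) ≤ (N : ℝ) ^ κ₂ := (hab.sa m hm).2
        _ ≤ (N : ℝ) ^ (1 / 2 : ℝ) := Real.rpow_le_rpow_of_exponent_le hNr1 h2
        _ ≤ y := hysm.le
    exact_mod_cast h3
  -- the error
  have hτ : ∀ m ∈ Icc 1 y, (1 : ℝ) ≤ 1 * (m.divisors.card : ℝ) := by
    intro m hm
    rw [mem_Icc] at hm
    have h6 : 0 < m.divisors.card := card_pos.2 ⟨1, Nat.one_mem_divisors.2 (by omega)⟩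
    rw [one_mul]
    exact_mod_cast h6
  obtain ⟨Sv, hS0, hS1, hS2⟩ := w_sum (δ := δ) (η := 0) (E := 0) (ℓ := 1) (N := y) (a := a) (b := b) hp₁ hp₂ hδ
    (by rw [abs_zero, mul_zero]) (fun m hm => (hab.ba m).trans (hτ m hm)) (fun m hm => (hab.bb m).trans (hτ m hm))
    zero_le_one
  have hS2' : ∑ n ∈ Icc 1 y, ‖wn δ y 0 a b n‖ ^ 2 ≤ 2 * Sv := by
    refine hS2.trans (le_of_eq ?_)
    ring
  clear hp₁ hp₂
  obtain ⟨R, hR⟩ : ∃ R : ℝ, R = 8 * L ^ (2 * U) := ⟨_, rfl⟩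
  have hR0 : 0 < R := by
    rw [hR]
    positivity
  have hδy : 1 ≤ δ * y := by
    calc (1 : ℝ) = δ * L ^ (2 * K₂) := hδL.symm
      _ ≤ δ * y := mul_le_mul_of_nonneg_left (hpow.trans hysm.le) hδ.le
  have hSv : Sv ≤ y / R := by
    have h3 : Sv ^ 2 ≤ (y / R) ^ 2 := by
      refine hS1.trans ?_
      have h4 : δ * y + 1 ≤ 2 * (δ * y) := by linarith
      have h5 : (1 + Real.log y) ^ p₁ ≤ L ^ (2 * p₁) := by
        rw [pow_mul]
        refine pow_le_pow_left₀ (by positivity) ?_ p₁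
        nlinarith
      have h6 : (δ * y + 1) * (y * (1 + Real.log y) ^ p₁) ≤ 2 * (δ * y) * (y * L ^ (2 * p₁)) :=
        mul_le_mul h4 (mul_le_mul_of_nonneg_left h5 hy0.le) (by positivity) (by positivity)
      refine h6.trans ?_
      rw [div_pow, le_div_iff₀ (by positivity)]
      have h7 : 2 * (δ * y) * (y * L ^ (2 * p₁)) * R ^ 2 =
          (y : ℝ) ^ 2 * (δ * (128 * (L ^ (2 * p₁) * L ^ (4 * U)))) := by
        rw [hR, show 4 * U = 2 * U + 2 * U by ring, pow_add L (2 * U) (2 * U)]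
        ring
      rw [h7]
      have h8 : δ * (128 * (L ^ (2 * p₁) * L ^ (4 * U))) ≤ 1 := by
        calc δ * (128 * (L ^ (2 * p₁) * L ^ (4 * U))) ≤ δ * (L ^ 4 * (L ^ (2 * p₁) * L ^ (4 * U))) := by
              have : (128 : ℝ) ≤ L ^ 4 := by
                calc (128 : ℝ) ≤ L := by linarith
                  _ = L ^ 1 := (pow_one L).symm
                  _ ≤ L ^ 4 := pow_le_pow_right₀ hL1 (by norm_num)
              gcongr
          _ = δ * L ^ (2 * K₂) := by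
              rw [← pow_add, ← pow_add]
              congr 2
              omega
          _ = 1 := hδL
      calc (y : ℝ) ^ 2 * (δ * (128 * (L ^ (2 * p₁) * L ^ (4 * U)))) ≤ (y : ℝ) ^ 2 * 1 :=
            mul_le_mul_of_nonneg_left h8 (by positivity)
        _ = (y : ℝ) ^ 2 := mul_one _
    exact (pow_le_pow_iff_left₀ hS0 (by positivity) two_ne_zero).1 h3
  have herr : ‖∑ n ∈ Icc 1 y, wn δ y 0 a b n * χ (n : ZMod d)‖ ≤ y / (2 * L ^ U) := by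
    have e1 : ‖∑ n ∈ Icc 1 y, wn δ y 0 a b n * χ (n : ZMod d)‖ ≤ ∑ n ∈ Icc 1 y, ‖wn δ y 0 a b n‖ := by
      refine (norm_sum_le _ _).trans (sum_le_sum fun n _ => ?_)
      rw [norm_mul]
      exact mul_le_of_le_one_right (norm_nonneg _) (hχ1 n)
    have e2 : (∑ n ∈ Icc 1 y, ‖wn δ y 0 a b n‖) ^ 2 ≤ (y / (2 * L ^ U)) ^ 2 := by
      calc (∑ n ∈ Icc 1 y, ‖wn δ y 0 a b n‖) ^ 2 ≤ (Icc 1 y).card * ∑ n ∈ Icc 1 y, ‖wn δ y 0 a b n‖ ^ 2 :=
            sq_sum_le_card_mul_sum_sq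
        _ = (y : ℝ) * ∑ n ∈ Icc 1 y, ‖wn δ y 0 a b n‖ ^ 2 := by rw [Nat.card_Icc, Nat.add_sub_cancel]
        _ ≤ (y : ℝ) * (2 * (y / R)) := by
            gcongr
            exact hS2'.trans (by linarith)
        _ = (y / (2 * L ^ U)) ^ 2 := by
            rw [hR, mul_comm 2 U, pow_mul L U 2]
            field_simp
            ring
    have e3 : 0 ≤ ∑ n ∈ Icc 1 y, ‖wn δ y 0 a b n‖ := sum_nonneg fun _ _ => norm_nonneg _
    exact e1.trans ((pow_le_pow_iff_left₀ e3 (by positivity) two_ne_zero).1 e2)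
  -- the main part
  have hmain : ‖∑ i ∈ range I, (∑ m ∈ Icc 1 (Xi δ i), ai δ a i m * χ (m : ZMod d)) *
      (∑ k ∈ Icc 1 (Yi δ y i), b k * ee (gi δ i * k * 0) * χ (k : ZMod d))‖ ≤ y / (2 * L ^ U) := by
    calc ‖∑ i ∈ range I, (∑ m ∈ Icc 1 (Xi δ i), ai δ a i m * χ (m : ZMod d)) *
        (∑ k ∈ Icc 1 (Yi δ y i), b k * ee (gi δ i * k * 0) * χ (k : ZMod d))‖ ≤
        ∑ i ∈ range I, ((L ^ K)⁻¹ * y) := by
          refine (norm_sum_le _ _).trans (sum_le_sum fun i hi => ?_)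
          rw [norm_mul]
          have e1 : ‖∑ k ∈ Icc 1 (Yi δ y i), b k * ee (gi δ i * k * 0) * χ (k : ZMod d)‖ ≤ y / gi δ (i + 1) := by
            calc ‖∑ k ∈ Icc 1 (Yi δ y i), b k * ee (gi δ i * k * 0) * χ (k : ZMod d)‖ ≤
                ∑ k ∈ Icc 1 (Yi δ y i), (1 : ℝ) := by
                  refine (norm_sum_le _ _).trans (sum_le_sum fun k _ => ?_)
                  rw [norm_mul, norm_mul, mul_zero, ee_zero, norm_one, mul_one]
                  exact mul_le_one₀ (hab.bb k) (norm_nonneg _) (hχ1 k)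
              _ = (Yi δ y i : ℝ) := by rw [sum_const, Nat.card_Icc, Nat.add_sub_cancel, nsmul_eq_mul, mul_one]
              _ ≤ y / gi δ (i + 1) := Nat.floor_le (div_nonneg hy0.le (gi_pos _ _).le)
          calc ‖∑ m ∈ Icc 1 (Xi δ i), ai δ a i m * χ (m : ZMod d)‖ *
              ‖∑ k ∈ Icc 1 (Yi δ y i), b k * ee (gi δ i * k * 0) * χ (k : ZMod d)‖ ≤
              (gi δ i * (L ^ K)⁻¹) * (y / gi δ (i + 1)) := by
                have := gi_pos δ i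
                exact mul_le_mul (hgood i hi) e1 (norm_nonneg _) (by positivity)
            _ = (L ^ K)⁻¹ * y * (gi δ i / gi δ (i + 1)) := by
                ring
            _ ≤ (L ^ K)⁻¹ * y * 1 := by
                refine mul_le_mul_of_nonneg_left ?_ (by positivity)
                rw [div_le_one (gi_pos _ _), gi_succ]
                exact le_mul_of_one_le_right (gi_pos _ _).le (Real.one_le_exp hδ.le)
            _ = _ := mul_one _
      _ = (I : ℝ) * ((L ^ K)⁻¹ * y) := by rw [sum_const, card_range, nsmul_eq_mul]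
      _ ≤ L ^ (2 * K₂ + 2) * ((L ^ K)⁻¹ * y) := by gcongr
      _ = y / (L * L ^ U) := by
          rw [hK, show 2 * K₂ + U + 3 = 2 * K₂ + 2 + (U + 1) by ring, pow_add L (2 * K₂ + 2) (U + 1), pow_succ' L U]
          field_simp
      _ ≤ y / (2 * L ^ U) := by
          apply div_le_div_of_nonneg_left hy0.le (by positivity)
          gcongr
          linarith
  have hdec := decomp (η := 0) (N := y) (I := I) hδ (a := a) (b := b) (by
      intro m hm h0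
      have h5 : m ≤ N := (hamy m h0).trans hy
      refine ⟨hamy m h0, ?_⟩
      rw [hI, Nat.lt_succ_iff]
      unfold ci
      refine Nat.floor_le_floor (div_le_div_of_nonneg_right ?_ hδ.le)
      rw [hL]
      exact Real.log_le_log (by exact_mod_cast hm) (by exact_mod_cast h5))
      (fun n => χ (n : ZMod d)) (fun m k => by rw [Nat.cast_mul, map_mul])
  have hfin : ∑ n ∈ Icc 1 y, cnv a b n * χ (n : ZMod d) =
      ∑ m ∈ Icc 1 y, ∑ k ∈ Icc 1 (y / m), a m * b k * (χ ((m * k : ℕ) : ZMod d) * ee ((m * k : ℕ) * 0)) := by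
    rw [cnv_sum y a b (fun n => χ (n : ZMod d))]
    refine sum_congr rfl fun m _ => sum_congr rfl fun k _ => ?_
    rw [mul_zero, ee_zero, mul_one]
  rw [hfin, hdec]
  refine (norm_add_le _ _).trans ?_
  have hfin2 : (y : ℝ) / (2 * L ^ U) + y / (2 * L ^ U) = y / L ^ U := by
    field_simp
    ring
  linarith

end Pool.Agent.H579.L
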