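import Pool.Agent.H579.L.Cop
import Pool.Agent.H579.L.Ptw
import Pool.Graph.R_seed8.H510R2.Div
import Pool.Graph.R_seed8.R460.GS.Core2

set_option autoImplicit false

/-! The sums over the characters of the regular moduli. -/

namespace Pool.Agent.H579.L

open Finset
open Pool.Agent.Y883.GJ
open Pool.Agent.Y614.GJ.Core (ev_log)
open Pool.Agent.R460.GR (dl Bd)
open Pool.Agent.R460.GS (cs_abel)

/-- small sums over the characters of a small conductor -/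
def SwAt (N K U : ℕ) (g : ℕ → ℂ) : Prop :=
  ∀ d : ℕ, 1 ≤ d → (d : ℝ) ≤ Real.log N ^ K → ∀ ψ : DirichletCharacter ℂ d, ∀ z : ℕ, z ≤ N →
    ‖∑ m ∈ Icc 1 z, g m * ψ (m : ZMod d)‖ ≤ z / Real.log N ^ U + (N : ℝ) ^ (1 / 2 : ℝ)

/-- the divisor bound for all integers up to `N` -/
lemma div_N {ε : ℝ} (hε : 0 < ε) : ∃ N₀ : ℕ, ∀ N : ℕ, N₀ ≤ N → ∀ n : ℕ, 1 ≤ n → n ≤ N →
    (n.divisors.card : ℝ) ≤ (N : ℝ) ^ ε := by
  obtain ⟨C, hC, h⟩ := Pool.Agent.H510R2.divisor_bound (ε / 2) (by positivity)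
  have h1 : Filter.Tendsto (fun N : ℕ => (N : ℝ) ^ (ε / 2)) Filter.atTop Filter.atTop :=
    (tendsto_rpow_atTop (by positivity)).comp tendsto_natCast_atTop_atTop
  obtain ⟨N₀, hN₀⟩ := Filter.eventually_atTop.1 (h1.eventually_ge_atTop C)
  refine ⟨max N₀ 1, fun N hN n hn hnN => ?_⟩
  have hN0 : (0 : ℝ) < N := by
    have : 1 ≤ N := le_trans (le_max_right _ _) hN
    exact_mod_cast this
  have hnNr : (n : ℝ) ≤ N := by exact_mod_cast hnN
  calc (n.divisors.card : ℝ) ≤ C * (n : ℝ) ^ (ε / 2) := h n hn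
    _ ≤ (N : ℝ) ^ (ε / 2) * (N : ℝ) ^ (ε / 2) := by
        gcongr
        exact hN₀ N (le_trans (le_max_left _ _) hN)
    _ = (N : ℝ) ^ ε := by
        rw [← Real.rpow_add hN0]
        congr 1
        ring

lemma harm (n : ℕ) : ∑ d ∈ Icc 1 n, ((d : ℝ))⁻¹ ≤ 1 + Real.log n := by
  have := harmonic_le_one_add_log n
  rw [harmonic_eq_sum_Icc] at this
  push_cast at this
  exact this

lemma div_harm {n : ℕ} : ∑ d ∈ n.divisors, ((d : ℝ))⁻¹ ≤ 1 + Real.log n := by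
  refine le_trans (sum_le_sum_of_subset_of_nonneg ?_ fun _ _ _ => by positivity) (harm n)
  intro d hd
  rw [mem_Icc]
  exact ⟨Nat.pos_of_mem_divisors hd, Nat.divisor_le hd⟩

/-- the primes which divide `q` are negligible -/
lemma om_diff {g : ℕ → ℂ} (hg : Cm g) {N q y d : ℕ} {κ₁ κ₂ : ℝ} (hN : 1 ≤ N) (hq : 1 ≤ q) (hy : y ≤ N)
    (ψ : DirichletCharacter ℂ d) :
    ‖∑ n ∈ Icc 1 y, cnv (ap N κ₁ κ₂ g q) g n * ψ (n : ZMod d) -
      ∑ n ∈ Icc 1 y, cnv (ap N κ₁ κ₂ g 1) g n * ψ (n : ZMod d)‖ ≤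
      (q.divisors.card : ℝ) * ((N : ℝ) / (N : ℝ) ^ κ₁) := by
  classical
  have hN0 : (0 : ℝ) < N := by exact_mod_cast hN
  have hκ : (0 : ℝ) < (N : ℝ) ^ κ₁ := by positivity
  rw [← sum_sub_distrib]
  have h1 : ∀ n ∈ Icc 1 y, ‖cnv (ap N κ₁ κ₂ g q) g n * ψ (n : ZMod d) -
      cnv (ap N κ₁ κ₂ g 1) g n * ψ (n : ZMod d)‖ ≤
      ∑ p ∈ q.divisors.filter (fun p : ℕ => (N : ℝ) ^ κ₁ < p), if p ∣ n then (1 : ℝ) else 0 := by
    intro n hn
    rw [mem_Icc] at hn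
    rw [← sub_mul, norm_mul]
    refine (mul_le_of_le_one_right (norm_nonneg _) (DirichletCharacter.norm_le_one ψ _)).trans ?_
    rw [cnv_ap hg, cnv_ap hg, ← sub_mul, norm_mul]
    refine (mul_le_of_le_one_right (norm_nonneg _) (hg.bd n)).trans ?_
    have h2 : om N κ₁ κ₂ 1 n ≤ om N κ₁ κ₂ q n +
        ((q.divisors.filter (fun p : ℕ => (N : ℝ) ^ κ₁ < p)).filter (fun p => p ∣ n)).card := by
      unfold om
      rw [← card_union_of_disjoint]
      · refine card_le_card ?_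
        intro p hp
        rw [mem_filter, Nat.mem_divisors] at hp
        obtain ⟨⟨a1, a2⟩, a3, a4, a5, a6⟩ := hp
        rw [mem_union, mem_filter, mem_filter, mem_filter, Nat.mem_divisors, Nat.mem_divisors]
        by_cases hpq : p ∣ q
        · exact Or.inr ⟨⟨⟨hpq, by omega⟩, a4⟩, a1⟩
        · exact Or.inl ⟨⟨a1, a2⟩, a3, a4, a5, hpq⟩
      · rw [disjoint_left]
        intro p h5 h6
        rw [mem_filter] at h5
        rw [mem_filter, mem_filter, Nat.mem_divisors] at h6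
        exact h5.2.2.2.2 h6.1.1.1
    have h3 : om N κ₁ κ₂ q n ≤ om N κ₁ κ₂ 1 n := by
      unfold om
      refine card_le_card ?_
      intro p hp
      rw [mem_filter] at hp ⊢
      refine ⟨hp.1, hp.2.1, hp.2.2.1, hp.2.2.2.1, ?_⟩
      exact fun h => hp.2.1.one_lt.ne' (Nat.dvd_one.1 h)
    have h4 : ‖((om N κ₁ κ₂ q n : ℂ) - (om N κ₁ κ₂ 1 n : ℂ))‖ = ((om N κ₁ κ₂ 1 n - om N κ₁ κ₂ q n : ℕ) : ℝ) := by
      rw [norm_sub_rev]
      have : ((om N κ₁ κ₂ 1 n : ℂ) - (om N κ₁ κ₂ q n : ℂ)) = ((om N κ₁ κ₂ 1 n - om N κ₁ κ₂ q n : ℕ) : ℂ) := by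
        rw [Nat.cast_sub h3]
      rw [this, Complex.norm_natCast]
    rw [h4, ← sum_filter, sum_const, nsmul_eq_mul, mul_one]
    exact_mod_cast (by omega)
  refine (norm_sum_le _ _).trans ((sum_le_sum h1).trans ?_)
  rw [sum_comm]
  calc ∑ p ∈ q.divisors.filter (fun p : ℕ => (N : ℝ) ^ κ₁ < p), ∑ n ∈ Icc 1 y, (if p ∣ n then (1 : ℝ) else 0) ≤
      ∑ p ∈ q.divisors.filter (fun p : ℕ => (N : ℝ) ^ κ₁ < p), ((N : ℝ) / (N : ℝ) ^ κ₁) := by
        refine sum_le_sum fun p hp => ?_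
        rw [mem_filter] at hp
        have hp0 : (0 : ℝ) < p := lt_trans hκ hp.2
        rw [← sum_filter, sum_const, nsmul_eq_mul, mul_one]
        have h5 : ((Icc 1 y).filter (fun n => p ∣ n)).card = y / p := by
          rw [← Nat.Ioc_filter_dvd_card_eq_div y p]
          congr 1
        rw [h5]
        refine Nat.cast_div_le.trans ?_
        have hyN : (y : ℝ) ≤ N := by exact_mod_cast hy
        exact div_le_div₀ hN0.le hyN hκ hp.2.le
    _ = ((q.divisors.filter (fun p : ℕ => (N : ℝ) ^ κ₁ < p)).card : ℝ) * ((N : ℝ) / (N : ℝ) ^ κ₁) := by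
        rw [sum_const, nsmul_eq_mul]
    _ ≤ _ := by
        refine mul_le_mul_of_nonneg_right ?_ (by positivity)
        exact_mod_cast card_filter_le _ _

/-- small conductors -/
lemma sw_bil {g : ℕ → ℂ} (hg : Cm g) {N K U d : ℕ} {κ₁ κ₂ : ℝ} (hN : 1 ≤ N) (hκ₂ : 0 ≤ κ₂) (q : ℕ)
    (h : SwAt N K U g) (hL : 1 ≤ Real.log N)
    (hd1 : 1 ≤ d) (hd : (d : ℝ) ≤ Real.log N ^ K) (ψ : DirichletCharacter ℂ d) {y : ℕ} (hy : y ≤ N) :
    ‖∑ n ∈ Icc 1 y, cnv (ap N κ₁ κ₂ g q) g n * ψ (n : ZMod d)‖ ≤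
      y * (1 + Real.log N) / Real.log N ^ U + (N : ℝ) ^ κ₂ * (N : ℝ) ^ (1 / 2 : ℝ) := by
  classical
  have hN0 : (0 : ℝ) < N := by exact_mod_cast hN
  have hNκ : (0 : ℝ) ≤ (N : ℝ) ^ κ₂ := by positivity
  have hcf := cf_ap hg N κ₁ κ₂ q
  rw [cnv_sum y _ _ (fun n => ψ (n : ZMod d))]
  have h1 : ∀ m ∈ Icc 1 y, ‖∑ k ∈ Icc 1 (y / m), ap N κ₁ κ₂ g q m * g k * ψ ((m * k : ℕ) : ZMod d)‖ ≤
      (y : ℝ) / Real.log N ^ U * ((m : ℝ))⁻¹ +
        (if m ≤ ⌊(N : ℝ) ^ κ₂⌋₊ then (N : ℝ) ^ (1 / 2 : ℝ) else 0) := by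
    intro m hm
    rw [mem_Icc] at hm
    by_cases h0 : ap N κ₁ κ₂ g q m = 0
    · have : ∑ k ∈ Icc 1 (y / m), ap N κ₁ κ₂ g q m * g k * ψ ((m * k : ℕ) : ZMod d) = 0 :=
        sum_eq_zero fun k _ => by rw [h0, zero_mul, zero_mul]
      rw [this, norm_zero]
      split_ifs <;> positivity
    · have hm2 : m ≤ ⌊(N : ℝ) ^ κ₂⌋₊ := Nat.le_floor (hcf.sa m h0).2
      rw [if_pos hm2]
      have e1 : ∑ k ∈ Icc 1 (y / m), ap N κ₁ κ₂ g q m * g k * ψ ((m * k : ℕ) : ZMod d) =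
          ap N κ₁ κ₂ g q m * ψ (m : ZMod d) * ∑ k ∈ Icc 1 (y / m), g k * ψ (k : ZMod d) := by
        rw [mul_sum]
        refine sum_congr rfl fun k _ => ?_
        rw [Nat.cast_mul, map_mul]
        ring
      rw [e1, norm_mul, norm_mul]
      have e2 := h d hd1 hd ψ (y / m) ((Nat.div_le_self _ _).trans hy)
      have e3 : ‖ap N κ₁ κ₂ g q m‖ * ‖ψ (m : ZMod d)‖ ≤ 1 :=
        mul_le_one₀ (hcf.ba m) (norm_nonneg _) (DirichletCharacter.norm_le_one ψ _)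
      refine (mul_le_of_le_one_left (norm_nonneg _) e3).trans (e2.trans ?_)
      have e4 : ((y / m : ℕ) : ℝ) ≤ (y : ℝ) / m := Nat.cast_div_le
      have e5 : ((y / m : ℕ) : ℝ) / Real.log N ^ U ≤ (y : ℝ) / Real.log N ^ U * ((m : ℝ))⁻¹ := by
        rw [← div_eq_mul_inv, div_div, mul_comm (Real.log N ^ U), ← div_div]
        exact div_le_div_of_nonneg_right e4 (by positivity)
      linarith
  refine (norm_sum_le _ _).trans ((sum_le_sum h1).trans ?_)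
  rw [sum_add_distrib, ← mul_sum]
  have h2 : ∑ m ∈ Icc 1 y, ((m : ℝ))⁻¹ ≤ 1 + Real.log N := by
    refine le_trans (sum_le_sum_of_subset_of_nonneg (Icc_subset_Icc le_rfl hy) fun _ _ _ => by positivity)
      (harm N)
  have h3 : ∑ m ∈ Icc 1 y, (if m ≤ ⌊(N : ℝ) ^ κ₂⌋₊ then (N : ℝ) ^ (1 / 2 : ℝ) else 0) ≤
      (N : ℝ) ^ κ₂ * (N : ℝ) ^ (1 / 2 : ℝ) := by
    rw [← sum_filter, sum_const, nsmul_eq_mul]
    refine mul_le_mul_of_nonneg_right ?_ (by positivity)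
    have h4 : (Icc 1 y).filter (fun m => m ≤ ⌊(N : ℝ) ^ κ₂⌋₊) ⊆ Icc 1 ⌊(N : ℝ) ^ κ₂⌋₊ := by
      intro m hm
      rw [mem_filter, mem_Icc] at hm
      exact mem_Icc.2 ⟨hm.1.1, hm.2⟩
    have h5 := card_le_card h4
    rw [Nat.card_Icc, Nat.add_sub_cancel] at h5
    exact le_trans (by exact_mod_cast h5) (Nat.floor_le hNκ)
  have h4 : (y : ℝ) / Real.log N ^ U * ∑ m ∈ Icc 1 y, ((m : ℝ))⁻¹ ≤ (y : ℝ) / Real.log N ^ U * (1 + Real.log N) :=
    mul_le_mul_of_nonneg_left h2 (by positivity)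
  have h5 : (y : ℝ) / Real.log N ^ U * (1 + Real.log N) = y * (1 + Real.log N) / Real.log N ^ U := by ring
  linarith

/-- the sums over the characters, if the primitive characters of a large conductor are good -/
theorem regC (U C : ℕ) {κ₁ κ₂ σ : ℝ} (h1 : 0 < κ₁) (h0 : 0 ≤ κ₂) (h2 : κ₂ ≤ 1 / 8) (hσ : 0 < σ) (hσ1 : 4 * σ ≤ κ₁)
    (hσ2 : 4 * σ ≤ 1 / 4) : ∃ K₂ K' U' N₀ : ℕ, ∀ N : ℕ, N₀ ≤ N → ∀ g : ℕ → ℂ, Cm g → ∀ K : ℕ, SwAt N K U' g →
    ∀ q : ℕ, 1 ≤ q → q ≤ N → ∀ (Q : ℕ) [NeZero Q], Q ≤ N → (∀ p, Pp N κ₁ κ₂ q p → ¬ p ∣ Q) →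
    (∀ χ : DirichletCharacter ℂ Q, Real.log N ^ K < (χ.conductor : ℝ) →
      ¬ Bd N K₂ K' (ap N κ₁ κ₂ g 1) χ.conductor χ.primitiveCharacter) →
    ∀ M : ℕ, M ≤ N → (N : ℝ) ^ (1 - σ) ≤ M → ∀ η : ℝ, |η| ≤ Real.log N ^ C / M → ∀ y : ℕ, y ≤ M →
    ∀ χ : DirichletCharacter ℂ Q, ‖cs Q y (cnv (ap N κ₁ κ₂ g q) g) η χ‖ ≤ M / Real.log N ^ U := by
  obtain ⟨V, hV⟩ : ∃ V, V = U + C + 3 := ⟨_, rfl⟩
  obtain ⟨K₂, K', N₁, hp⟩ := ptw V (κ₁ := κ₁) (κ₂ := κ₂) h1 (by linarith)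
  obtain ⟨N₂, hdv⟩ := div_N (ε := σ / 2) (by positivity)
  obtain ⟨N₃, hN₃⟩ := Filter.eventually_atTop.1 (ev_log V (s := σ / 2) (by positivity) 16)
  refine ⟨K₂, K', V + 2, max (max N₁ N₂) (max N₃ 1), ?_⟩
  intro N hN g hg K hSw q hq1 hqN Q _ hQN hpQ hgood M hMN hM η hη y hy χ
  have hNN₁ : N₁ ≤ N := le_trans (le_trans (le_max_left _ _) (le_max_left _ _)) hN
  have hNN₂ : N₂ ≤ N := le_trans (le_trans (le_max_right _ _) (le_max_left _ _)) hN
  have hNN₃ : N₃ ≤ N := le_trans (le_trans (le_max_left _ _) (le_max_right _ _)) hN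
  have hN1 : 1 ≤ N := le_trans (le_trans (le_max_right _ _) (le_max_right _ _)) hN
  obtain ⟨hL16, hLV⟩ := hN₃ N hNN₃
  have hN0 : (0 : ℝ) < N := by exact_mod_cast hN1
  have hNr1 : (1 : ℝ) ≤ N := by exact_mod_cast hN1
  have hM0 : (0 : ℝ) < M := lt_of_lt_of_le (by positivity) hM
  have hMNr : (M : ℝ) ≤ N := by exact_mod_cast hMN
  have hL1 : 1 ≤ Real.log N := by linarith
  have hpw : ∀ {s t : ℝ}, s ≤ t → (N : ℝ) ^ s ≤ (N : ℝ) ^ t := fun h =>
    Real.rpow_le_rpow_of_exponent_le hNr1 h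
  have hmul : ∀ s t : ℝ, (N : ℝ) ^ s * (N : ℝ) ^ t = (N : ℝ) ^ (s + t) := fun s t =>
    (Real.rpow_add hN0 s t).symm
  have hσ16 : (16 : ℝ) ≤ (N : ℝ) ^ (σ / 2) := by
    refine le_trans ?_ hLV
    rcases Nat.eq_zero_or_pos V with h | h
    · omega
    · calc (16 : ℝ) ≤ Real.log N := hL16
        _ = Real.log N ^ 1 := (pow_one _).symm
        _ ≤ Real.log N ^ V := pow_le_pow_right₀ hL1 h
  -- the primitive characters
  have hcond : χ.conductor ∣ Q := DirichletCharacter.conductor_dvd_level χ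
  have hcond1 : 1 ≤ χ.conductor := Nat.pos_of_dvd_of_pos hcond (NeZero.pos Q)
  have hψ : ∀ y' : ℕ, y' ≤ N → ‖∑ n ∈ Icc 1 y', cnv (ap N κ₁ κ₂ g q) g n *
      χ.primitiveCharacter (n : ZMod χ.conductor)‖ ≤ y' / Real.log N ^ V + (N : ℝ) ^ (1 - 3 * σ) := by
    intro y' hy'
    by_cases hc : Real.log N ^ K < (χ.conductor : ℝ)
    · have e1 := hp N hNN₁ (ap N κ₁ κ₂ g 1) g (cf_ap hg N κ₁ κ₂ 1) χ.conductor χ.primitiveCharacter
        (hgood χ hc) y' hy'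
      have e2 := om_diff hg (κ₁ := κ₁) (κ₂ := κ₂) hN1 hq1 hy' χ.primitiveCharacter
      have e3 : (q.divisors.card : ℝ) * ((N : ℝ) / (N : ℝ) ^ κ₁) ≤ (N : ℝ) ^ (1 - 7 / 2 * σ) := by
        calc (q.divisors.card : ℝ) * ((N : ℝ) / (N : ℝ) ^ κ₁) ≤ (N : ℝ) ^ (σ / 2) * ((N : ℝ) / (N : ℝ) ^ κ₁) := by
              gcongr
              exact hdv N hNN₂ q hq1 hqN
          _ = (N : ℝ) ^ (σ / 2 + (1 - κ₁)) := by
              rw [← hmul, Real.rpow_sub hN0, Real.rpow_one]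
          _ ≤ _ := hpw (by linarith)
      have e4 : (N : ℝ) ^ (3 / 4 : ℝ) ≤ (N : ℝ) ^ (1 - 7 / 2 * σ) := hpw (by linarith)
      have e5 : 2 * (N : ℝ) ^ (1 - 7 / 2 * σ) ≤ (N : ℝ) ^ (1 - 3 * σ) := by
        calc 2 * (N : ℝ) ^ (1 - 7 / 2 * σ) ≤ (N : ℝ) ^ (σ / 2) * (N : ℝ) ^ (1 - 7 / 2 * σ) := by
              gcongr
              linarith
          _ = (N : ℝ) ^ (1 - 3 * σ) := by
              rw [hmul]
              congr 1
              ring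
      have e6 := norm_le_norm_add_norm_sub' (∑ n ∈ Icc 1 y', cnv (ap N κ₁ κ₂ g q) g n *
        χ.primitiveCharacter (n : ZMod χ.conductor)) (∑ n ∈ Icc 1 y', cnv (ap N κ₁ κ₂ g 1) g n *
        χ.primitiveCharacter (n : ZMod χ.conductor))
      linarith
    · rw [not_lt] at hc
      have e1 := sw_bil hg (κ₁ := κ₁) (κ₂ := κ₂) hN1 h0 q hSw hL1 hcond1 hc χ.primitiveCharacter hy'
      refine e1.trans (add_le_add ?_ ?_)
      · rw [pow_add]
        calc (y' : ℝ) * (1 + Real.log N) / (Real.log N ^ V * Real.log N ^ 2) =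
            y' / Real.log N ^ V * ((1 + Real.log N) / Real.log N ^ 2) := by
              field_simp
          _ ≤ y' / Real.log N ^ V * 1 := by
              refine mul_le_mul_of_nonneg_left ?_ (by positivity)
              rw [div_le_one (by positivity)]
              nlinarith
          _ = _ := mul_one _
      · rw [hmul]
        exact hpw (by linarith)
  -- the character
  obtain ⟨L, hLd⟩ : ∃ L, L = Real.log (N : ℝ) := ⟨_, rfl⟩
  have hQ : ∀ y' : ℕ, y' ≤ M → ‖∑ n ∈ Icc 1 y', cnv (ap N κ₁ κ₂ g q) g n * χ (n : ZMod Q)‖ ≤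
      M / L ^ V * L ^ 2 := by
    intro y' hy'
    have hy'N : y' ≤ N := hy'.trans hMN
    rw [char_prim y' _ χ g (fun e he n => F_mul hg (fun h => by
      rw [h, zero_dvd_iff] at he
      exact NeZero.ne Q he) (fun p hp hpe => hpQ p hp (hpe.trans he)) n)]
    have e1 : ∀ e ∈ Q.divisors, ‖((ArithmeticFunction.moebius e : ℤ) : ℂ) * (g e *
        χ.primitiveCharacter (e : ZMod χ.conductor) * ∑ m ∈ Icc 1 (y' / e), cnv (ap N κ₁ κ₂ g q) g m *
          χ.primitiveCharacter (m : ZMod χ.conductor))‖ ≤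
        (M : ℝ) / L ^ V * ((e : ℝ))⁻¹ + (N : ℝ) ^ (1 - 3 * σ) := by
      intro e he
      have he0 : 0 < e := Nat.pos_of_mem_divisors he
      have e2 : ‖((ArithmeticFunction.moebius e : ℤ) : ℂ)‖ ≤ 1 := by
        rw [Complex.norm_intCast]
        exact_mod_cast ArithmeticFunction.abs_moebius_le_one
      have e3 : ‖g e * χ.primitiveCharacter (e : ZMod χ.conductor)‖ ≤ 1 := by
        rw [norm_mul]
        exact mul_le_one₀ (hg.bd e) (norm_nonneg _) (DirichletCharacter.norm_le_one _ _)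
      rw [norm_mul, norm_mul (g e * χ.primitiveCharacter (e : ZMod χ.conductor))]
      refine (mul_le_of_le_one_left (by positivity) e2).trans ((mul_le_of_le_one_left (norm_nonneg _) e3).trans ?_)
      refine (hψ (y' / e) ((Nat.div_le_self _ _).trans hy'N)).trans ?_
      rw [← hLd]
      have e4 : ((y' / e : ℕ) : ℝ) ≤ (M : ℝ) / e := by
        refine Nat.cast_div_le.trans ?_
        exact div_le_div_of_nonneg_right (by exact_mod_cast hy') (Nat.cast_nonneg _)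
      have e5 : ((y' / e : ℕ) : ℝ) / L ^ V ≤ (M : ℝ) / L ^ V * ((e : ℝ))⁻¹ := by
        rw [← div_eq_mul_inv, div_div, mul_comm (L ^ V), ← div_div]
        refine div_le_div_of_nonneg_right e4 ?_
        rw [hLd]
        positivity
      linarith
    refine (norm_sum_le _ _).trans ((sum_le_sum e1).trans ?_)
    rw [sum_add_distrib, ← mul_sum, sum_const, nsmul_eq_mul]
    have hQ1 : 1 ≤ Q := NeZero.pos Q
    have f1 : ∑ e ∈ Q.divisors, ((e : ℝ))⁻¹ ≤ 1 + L := by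
      refine div_harm.trans ?_
      have : Real.log Q ≤ L := by
        rw [hLd]
        exact Real.log_le_log (by exact_mod_cast hQ1) (by exact_mod_cast hQN)
      linarith
    have f2 : (Q.divisors.card : ℝ) * (N : ℝ) ^ (1 - 3 * σ) ≤ M / L ^ V := by
      have hLV0 : 0 < L ^ V := by
        rw [hLd]
        positivity
      rw [le_div_iff₀ hLV0]
      calc (Q.divisors.card : ℝ) * (N : ℝ) ^ (1 - 3 * σ) * L ^ V ≤
          (N : ℝ) ^ (σ / 2) * (N : ℝ) ^ (1 - 3 * σ) * (N : ℝ) ^ (σ / 2) := by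
            have g1 := hdv N hNN₂ Q hQ1 hQN
            rw [← hLd] at hLV
            gcongr
        _ = (N : ℝ) ^ (1 - 2 * σ) := by
            rw [hmul, hmul]
            congr 1
            ring
        _ ≤ (N : ℝ) ^ (1 - σ) := hpw (by linarith)
        _ ≤ M := hM
    rw [← hLd] at hL16
    have hLV0 : 0 < L ^ V := by
      rw [hLd]
      positivity
    calc (M : ℝ) / L ^ V * ∑ e ∈ Q.divisors, ((e : ℝ))⁻¹ + (Q.divisors.card : ℝ) * (N : ℝ) ^ (1 - 3 * σ) ≤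
        (M : ℝ) / L ^ V * (1 + L) + M / L ^ V := by gcongr
      _ = M / L ^ V * (2 + L) := by ring
      _ ≤ M / L ^ V * L ^ 2 := by
          gcongr
          nlinarith
  have h6 := cs_abel hy (cnv (ap N κ₁ κ₂ g q) g) η χ _ hQ
  refine h6.trans ?_
  rw [← hLd] at hη hL16 ⊢
  have hL0 : 0 < L := by linarith
  have h7 : 1 + 7 * |η| * y ≤ 8 * L ^ C := by
    have h3 : |η| * y ≤ L ^ C := by
      calc |η| * y ≤ (L ^ C / M) * M := by
            apply mul_le_mul hη (by exact_mod_cast hy) (Nat.cast_nonneg _) (by positivity)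
        _ = L ^ C := by field_simp
    have h4 : 1 ≤ L ^ C := one_le_pow₀ (by linarith)
    linarith
  calc (M : ℝ) / L ^ V * L ^ 2 * (1 + 7 * |η| * y) ≤ M / L ^ V * L ^ 2 * (8 * L ^ C) := by gcongr
    _ = M / L ^ U * (8 / L) := by
        rw [hV, show U + C + 3 = U + C + 2 + 1 by ring, pow_succ, pow_add, pow_add]
        field_simp
    _ ≤ M / L ^ U * 1 := by
        have : 8 / L ≤ 1 := by
          rw [div_le_one hL0]
          linarith
        gcongr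
    _ = _ := mul_one _

end Pool.Agent.H579.L
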