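import Pool.Agent.H579.L.Reg
import Pool.Graph.R_seed8.H373R2.T7.Cnt
import Pool.Graph.R_seed8.Helper923.HMertens

set_option autoImplicit false

/-! The inequality of Turán and Kubilius in an arithmetic progression. -/

namespace Pool.Agent.H579.L

open Finset
open Pool.Agent.Y614.GJ.Core (ev_log)
open Pool.Agent.H373R2.T7 (count_class)

lemma cnt_ap {d q : ℕ} (b y : ℕ) (hd : 1 ≤ d) (hcop : Nat.Coprime q d) :
    |(((Icc 1 y).filter (fun m => d ∣ q * m + b)).card : ℝ) - y / d| ≤ 1 := by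
  have hne : NeZero d := ⟨by omega⟩
  obtain ⟨u, hu⟩ : ∃ u : (ZMod d)ˣ, (u : ZMod d) = (q : ZMod d) := by
    have := (ZMod.isUnit_iff_coprime q d).2 hcop
    exact ⟨this.unit, this.unit_spec⟩
  obtain ⟨r, hr⟩ : ∃ r : ℕ, (r : ZMod d) = -(b : ZMod d) * ((u⁻¹ : (ZMod d)ˣ) : ZMod d) :=
    ⟨(-(b : ZMod d) * ((u⁻¹ : (ZMod d)ˣ) : ZMod d)).val, ZMod.natCast_zmod_val _⟩
  have h := count_class y d r hd
  have h1 : (Icc 1 y).filter (fun m => d ∣ q * m + b) = (Icc 1 y).filter (fun m => m ≡ r [MOD d]) := by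
    refine filter_congr fun m _ => ?_
    rw [← ZMod.natCast_eq_zero_iff, ← ZMod.natCast_eq_natCast_iff, hr, Nat.cast_add, Nat.cast_mul, ← hu]
    constructor
    · intro h2
      have h3 : (u : ZMod d) * (m : ZMod d) = -(b : ZMod d) := by
        rw [← sub_eq_zero, sub_neg_eq_add]
        exact h2
      rw [← h3, mul_comm ((u : ZMod d) * m), ← mul_assoc, Units.inv_mul, one_mul]
    · intro h2
      rw [h2, mul_comm (-(b : ZMod d)), ← mul_assoc, Units.mul_inv, one_mul]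
      ring
  rw [h1]
  exact h

lemma tk_gen {q : ℕ} (b y : ℕ) (S : Finset ℕ) (hp : ∀ p ∈ S, p.Prime) (hq : ∀ p ∈ S, ¬ p ∣ q) :
    ∑ m ∈ Icc 1 y, ((((S.filter (fun p => p ∣ q * m + b)).card : ℕ) : ℝ) - ∑ p ∈ S, (1 : ℝ) / p) ^ 2 ≤
      y * ∑ p ∈ S, (1 : ℝ) / p + 3 * (S.card : ℝ) ^ 2 := by
  classical
  obtain ⟨u, hu⟩ : ∃ u : ℕ → ℕ → ℝ, u = fun p m => (if p ∣ q * m + b then (1 : ℝ) else 0) - 1 / p := ⟨_, rfl⟩
  have h1 : ∀ m, ((((S.filter (fun p => p ∣ q * m + b)).card : ℕ) : ℝ) - ∑ p ∈ S, (1 : ℝ) / p) ^ 2 =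
      ∑ p ∈ S, ∑ p' ∈ S, u p m * u p' m := by
    intro m
    rw [← sum_mul_sum, ← sq]
    congr 1
    rw [hu]
    simp only
    rw [sum_sub_distrib, ← sum_filter, sum_const, nsmul_eq_mul, mul_one]
  rw [sum_congr rfl fun m _ => h1 m, sum_comm]
  have hcop1 : ∀ p ∈ S, Nat.Coprime q p := fun p h => ((hp p h).coprime_iff_not_dvd.2 (hq p h)).symm
  have key : ∀ p ∈ S, ∀ p' ∈ S, ∑ m ∈ Icc 1 y, u p m * u p' m ≤ (if p = p' then (y : ℝ) * (1 / p) else 0) + 3 := by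
    intro p hpS p' hp'S
    have hp2 : (2 : ℝ) ≤ p := by exact_mod_cast (hp p hpS).two_le
    have hp2' : (2 : ℝ) ≤ p' := by exact_mod_cast (hp p' hp'S).two_le
    have c1 := cnt_ap b y (hp p hpS).one_lt.le (hcop1 p hpS)
    have c2 := cnt_ap b y (hp p' hp'S).one_lt.le (hcop1 p' hp'S)
    rw [abs_le] at c1 c2
    have s1 : ∀ r : ℕ, ∑ m ∈ Icc 1 y, (if r ∣ q * m + b then (1 : ℝ) else 0) =
        (((Icc 1 y).filter (fun m => r ∣ q * m + b)).card : ℝ) := by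
      intro r
      rw [← sum_filter, sum_const, nsmul_eq_mul, mul_one]
    have ip : (1 : ℝ) / p ≤ 1 / 2 := one_div_le_one_div_of_le (by norm_num) hp2
    have ip' : (1 : ℝ) / p' ≤ 1 / 2 := one_div_le_one_div_of_le (by norm_num) hp2'
    have ip0 : (0 : ℝ) ≤ 1 / p := by positivity
    have ip0' : (0 : ℝ) ≤ 1 / p' := by positivity
    have e1 : ∑ m ∈ Icc 1 y, u p m * u p' m =
        ∑ m ∈ Icc 1 y, ((if p ∣ q * m + b then (1 : ℝ) else 0) * (if p' ∣ q * m + b then (1 : ℝ) else 0)) -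
        1 / p' * (((Icc 1 y).filter (fun m => p ∣ q * m + b)).card : ℝ) -
        1 / p * (((Icc 1 y).filter (fun m => p' ∣ q * m + b)).card : ℝ) + y * (1 / p * (1 / p')) := by
      rw [hu]
      simp only
      have e2 : ∀ m ∈ Icc 1 y, ((if p ∣ q * m + b then (1 : ℝ) else 0) - 1 / p) *
          ((if p' ∣ q * m + b then (1 : ℝ) else 0) - 1 / p') =
          (if p ∣ q * m + b then (1 : ℝ) else 0) * (if p' ∣ q * m + b then (1 : ℝ) else 0) -
          1 / p' * (if p ∣ q * m + b then (1 : ℝ) else 0) - 1 / p * (if p' ∣ q * m + b then (1 : ℝ) else 0) +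
          1 / p * (1 / p') := by
        intro m _
        ring
      rw [sum_congr rfl e2, sum_add_distrib, sum_sub_distrib, sum_sub_distrib, ← mul_sum, ← mul_sum, s1, s1,
        sum_const, Nat.card_Icc, Nat.add_sub_cancel, nsmul_eq_mul]
    rw [e1]
    have hy0 : (0 : ℝ) ≤ y := Nat.cast_nonneg y
    have y1 : (y : ℝ) / p = y * (1 / p) := by ring
    have y2 : (y : ℝ) / p' = y * (1 / p') := by ring
    rw [y1] at c1
    rw [y2] at c2
    obtain ⟨c, hc⟩ : ∃ c : ℝ, c = (((Icc 1 y).filter (fun m => p ∣ q * m + b)).card : ℝ) := ⟨_, rfl⟩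
    obtain ⟨c', hc'⟩ : ∃ c : ℝ, c = (((Icc 1 y).filter (fun m => p' ∣ q * m + b)).card : ℝ) := ⟨_, rfl⟩
    rw [← hc] at c1 ⊢
    rw [← hc'] at c2 ⊢
    obtain ⟨x, hx⟩ : ∃ x : ℝ, x = 1 / (p : ℝ) := ⟨_, rfl⟩
    obtain ⟨x', hx'⟩ : ∃ x : ℝ, x = 1 / (p' : ℝ) := ⟨_, rfl⟩
    rw [← hx] at ip ip0 c1 ⊢
    rw [← hx'] at ip' ip0' c2 ⊢
    by_cases hpp : p = p'
    · subst hpp
      rw [if_pos rfl]
      have e3 : ∑ m ∈ Icc 1 y, ((if p ∣ q * m + b then (1 : ℝ) else 0) * (if p ∣ q * m + b then (1 : ℝ) else 0)) = c := by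
        rw [hc, ← s1 p]
        refine sum_congr rfl fun m _ => ?_
        split_ifs <;> norm_num
      rw [e3]
      have e4 : c' = c := by rw [hc, hc']
      have e5 : x' = x := by rw [hx, hx']
      rw [e4, e5]
      nlinarith [mul_nonneg hy0 ip0, mul_nonneg ip0 ip0]
    · rw [if_neg hpp]
      have hcop2 : Nat.Coprime p p' := (Nat.coprime_primes (hp p hpS) (hp p' hp'S)).2 hpp
      have c3 := cnt_ap b y (d := p * p') (Nat.mul_pos (hp p hpS).pos (hp p' hp'S).pos)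
        (Nat.Coprime.mul_right (hcop1 p hpS) (hcop1 p' hp'S))
      rw [abs_le] at c3
      have e3 : ∑ m ∈ Icc 1 y, ((if p ∣ q * m + b then (1 : ℝ) else 0) * (if p' ∣ q * m + b then (1 : ℝ) else 0)) =
          (((Icc 1 y).filter (fun m => p * p' ∣ q * m + b)).card : ℝ) := by
        rw [← s1 (p * p')]
        refine sum_congr rfl fun m _ => ?_
        by_cases a1 : p ∣ q * m + b
        · by_cases a2 : p' ∣ q * m + b
          · rw [if_pos a1, if_pos a2, if_pos (hcop2.mul_dvd_of_dvd_of_dvd a1 a2), mul_one]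
          · rw [if_pos a1, if_neg a2, if_neg (fun h => a2 (dvd_trans (dvd_mul_left _ _) h)), mul_zero]
        · rw [if_neg a1, if_neg (fun h => a1 (dvd_trans (dvd_mul_right _ _) h)), zero_mul]
      rw [e3]
      have y3 : (y : ℝ) / ((p * p' : ℕ) : ℝ) = y * (x * x') := by
        rw [hx, hx']
        push_cast
        field_simp
      rw [y3] at c3
      obtain ⟨c1a, c1b⟩ := c1
      obtain ⟨c2a, c2b⟩ := c2
      obtain ⟨c3a, c3b⟩ := c3
      have m1 : x' * (y * x - 1) ≤ x' * c := mul_le_mul_of_nonneg_left (by linarith) ip0'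
      have m2 : x * (y * x' - 1) ≤ x * c' := mul_le_mul_of_nonneg_left (by linarith) ip0
      nlinarith
  calc ∑ p ∈ S, ∑ m ∈ Icc 1 y, ∑ p' ∈ S, u p m * u p' m =
      ∑ p ∈ S, ∑ p' ∈ S, ∑ m ∈ Icc 1 y, u p m * u p' m := sum_congr rfl fun p _ => sum_comm
    _ ≤ ∑ p ∈ S, ∑ p' ∈ S, ((if p = p' then (y : ℝ) * (1 / p) else 0) + 3) :=
        sum_le_sum fun p hp => sum_le_sum fun p' hp' => key p hp p' hp'
    _ = ∑ p ∈ S, ((y : ℝ) * (1 / p) + S.card * 3) := by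
        refine sum_congr rfl fun p hp => ?_
        rw [sum_add_distrib, sum_ite_eq, if_pos hp, sum_const, nsmul_eq_mul]
    _ = _ := by
        rw [sum_add_distrib, ← mul_sum, sum_const, nsmul_eq_mul]
        ring

/-- in the mean -/
lemma tk_abs {q : ℕ} (b y : ℕ) (S : Finset ℕ) (hp : ∀ p ∈ S, p.Prime) (hq : ∀ p ∈ S, ¬ p ∣ q) {Y : ℝ}
    (hyY : (y : ℝ) ≤ Y) (hS : 3 * (S.card : ℝ) ^ 2 ≤ Y) (hW : 1 ≤ ∑ p ∈ S, (1 : ℝ) / p) :
    ∑ m ∈ Icc 1 y, |(((S.filter (fun p => p ∣ q * m + b)).card : ℕ) : ℝ) - ∑ p ∈ S, (1 : ℝ) / p| ≤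
      Y * Real.sqrt (2 * ∑ p ∈ S, (1 : ℝ) / p) := by
  obtain ⟨W, hWd⟩ : ∃ W, W = ∑ p ∈ S, (1 : ℝ) / p := ⟨_, rfl⟩
  have h := tk_gen b y S hp hq
  rw [← hWd] at h hW ⊢
  have hy0 : (0 : ℝ) ≤ y := Nat.cast_nonneg y
  have hY0 : 0 ≤ Y := hy0.trans hyY
  have h1 : (∑ m ∈ Icc 1 y, |(((S.filter (fun p => p ∣ q * m + b)).card : ℕ) : ℝ) - W|) ^ 2 ≤
      (Y * Real.sqrt (2 * W)) ^ 2 := by
    calc (∑ m ∈ Icc 1 y, |(((S.filter (fun p => p ∣ q * m + b)).card : ℕ) : ℝ) - W|) ^ 2 ≤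
        (Icc 1 y).card * ∑ m ∈ Icc 1 y, |(((S.filter (fun p => p ∣ q * m + b)).card : ℕ) : ℝ) - W| ^ 2 :=
          sq_sum_le_card_mul_sum_sq
      _ = (y : ℝ) * ∑ m ∈ Icc 1 y, ((((S.filter (fun p => p ∣ q * m + b)).card : ℕ) : ℝ) - W) ^ 2 := by
          rw [Nat.card_Icc, Nat.add_sub_cancel]
          simp only [sq_abs]
      _ ≤ y * (y * W + 3 * (S.card : ℝ) ^ 2) := by gcongr
      _ ≤ Y * (Y * W + Y * W) := by
          have h2 : (y : ℝ) * W ≤ Y * W := by gcongr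
          have h3 : 3 * (S.card : ℝ) ^ 2 ≤ Y * W := hS.trans (le_mul_of_one_le_right hY0 hW)
          gcongr
      _ = (Y * Real.sqrt (2 * W)) ^ 2 := by
          rw [mul_pow, Real.sq_sqrt (by positivity)]
          ring
  exact (pow_le_pow_iff_left₀ (sum_nonneg fun _ _ => abs_nonneg _) (by positivity) two_ne_zero).1 h1

end Pool.Agent.H579.L
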