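import Pool.Agent.H579.L.Pdec
import Pool.Graph.R_seed8.R460.GH.NL
import Pool.Graph.R_seed8.R460.GH.Bil
import Pool.Graph.R_seed8.Y909.GJ.BilMin
import Pool.Graph.R_seed8.Y812.GJ.L2

set_option autoImplicit false

/-! Bilinear functions: mean squares over the characters modulo `q`, on the minor and on the major arcs. -/

namespace Pool.Agent.H579.L

open Finset
open Pool.Agent.H807R2.Dav (ee)
open Pool.Agent.Y883.GJ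
open Pool.Agent.Y614.GJ.Core (P P_nonneg ev_log)
open Pool.Agent.R460.GH (bil_min2 bilMaj3 countK)
open Pool.Agent.Y183.GJ (norm_ev)

/-- the assumptions on the coefficients -/
structure Cf (N : ℕ) (κ₁ κ₂ : ℝ) (a b : ℕ → ℂ) : Prop where
  sa : ∀ m, a m ≠ 0 → (N : ℝ) ^ κ₁ < m ∧ (m : ℝ) ≤ (N : ℝ) ^ κ₂
  ba : ∀ m, ‖a m‖ ≤ 1
  bb : ∀ m, ‖b m‖ ≤ 1

lemma cs_cnv {q : ℕ} (y : ℕ) (a b : ℕ → ℂ) (η : ℝ) (χ : DirichletCharacter ℂ q) :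
    cs q y (cnv a b) η χ = ∑ m ∈ Icc 1 y, ∑ k ∈ Icc 1 (y / m),
        a m * b k * (χ ((m * k : ℕ) : ZMod q) * ee ((m * k : ℕ) * η)) := by
  unfold cs
  have h := cnv_sum y a b (fun n => χ (n : ZMod q) * ee (n * η))
  rw [← h]
  refine sum_congr rfl fun n _ => ?_
  rw [mul_assoc]

lemma sum_cs {q : ℕ} [NeZero q] (S : Finset (DirichletCharacter ℂ q)) (y : ℕ) (a b : ℕ → ℂ) (η : ℝ) :
    ∑ χ ∈ S, ‖cs q y (cnv a b) η χ‖ ^ 2 =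
      ‖∑ m ∈ Icc 1 y, ∑ k ∈ Icc 1 (y / m), (a m * b k) • ev S η (m * k)‖ ^ 2 := by
  rw [norm_ev S η y (fun m k => a m * b k)]
  refine sum_congr rfl fun χ _ => ?_
  rw [cs_cnv]

theorem minU (A : ℕ) {κ₁ κ₂ θ : ℝ} (h1 : 0 < κ₁) (hκ2 : κ₂ ≤ 1) (h2 : θ + κ₂ < 1) : ∃ C N₀ : ℕ,
    ∀ N : ℕ, N₀ ≤ N → ∀ (q : ℕ) [NeZero q], (q : ℝ) ≤ (N : ℝ) ^ θ → ∀ a b : ℕ → ℂ, Cf N κ₁ κ₂ a b →
    ∀ (k : ℕ) (h : ℤ) (β : ℝ), Real.log N ^ C ≤ k → (q : ℝ) * k * Real.log N ^ C ≤ N →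
    IsCoprime h (k : ℤ) → |q * β - h / k| ≤ 1 / (k : ℝ) ^ 2 → ∀ y : ℕ, y ≤ N →
    ∑ χ : DirichletCharacter ℂ q, ‖cs q y (cnv a b) β χ‖ ^ 2 ≤ (N : ℝ) ^ 2 / Real.log N ^ A := by
  obtain ⟨K, hK⟩ := Pool.Agent.Y909.GJ.bilMin
  obtain ⟨N₁, hN₁⟩ := Filter.eventually_atTop.1 (ev_log (A + 5) (s := κ₁) h1 (288 * |K| + 2))
  obtain ⟨N₂, hN₂⟩ := Filter.eventually_atTop.1 (ev_log (A + 4) (s := 1 - θ - κ₂) (by linarith) 1)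
  refine ⟨A + 4, max (max N₁ N₂) 1, fun N hN q _ hq a b hab k h β hk hqk hcop hβ y hy => ?_⟩
  have hN1 : 1 ≤ N := le_trans (le_max_right _ _) hN
  obtain ⟨hLa, hLb⟩ := hN₁ N (le_trans (le_trans (le_max_left _ _) (le_max_left _ _)) hN)
  obtain ⟨-, hLc⟩ := hN₂ N (le_trans (le_trans (le_max_right _ _) (le_max_left _ _)) hN)
  have hN0 : (0 : ℝ) < N := by exact_mod_cast hN1
  have hNr1 : (1 : ℝ) ≤ N := by exact_mod_cast hN1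
  have hq0 : (0 : ℝ) < q := by exact_mod_cast NeZero.pos q
  have hq1 : (1 : ℝ) ≤ q := by exact_mod_cast NeZero.pos q
  obtain ⟨L, hL⟩ : ∃ L, L = Real.log (N : ℝ) := ⟨_, rfl⟩
  rw [← hL] at hLa hLb hLc hk hqk ⊢
  have hK0 := abs_nonneg K
  have hL2 : 2 ≤ L := by linarith
  have hL1 : 1 ≤ L := by linarith
  have hL0 : 0 < L := by linarith
  have hLC1 : 1 ≤ L ^ (A + 4) := one_le_pow₀ hL1
  have hk1 : (1 : ℝ) ≤ k := hLC1.trans hk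
  have hk0 : (0 : ℝ) < k := by linarith
  rw [sum_cs]
  have hNκ : (1 : ℝ) ≤ (N : ℝ) ^ κ₁ := Real.one_le_rpow hNr1 h1.le
  have hW1 : 1 ≤ ⌊(N : ℝ) ^ κ₁⌋₊ := by
    rw [Nat.one_le_floor_iff]
    exact hNκ
  refine bil_min2 (W := ⌊(N : ℝ) ^ κ₁⌋₊) (Z := ⌊(N : ℝ) ^ κ₂⌋₊) (r := k) (h := h)
    (X := (N : ℝ) / L ^ (A + 4)) (C := A + 4) hK hL hN1 hy hW1 ?_ ?_ hab.ba
    (fun m _ => (hab.bb m).trans (by norm_num)) (by exact_mod_cast hk1) ?_ hcop hβ rfl (by linarith) hL1 rfl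
    ?_ ?_ ?_ ?_
  · have : ((⌊(N : ℝ) ^ κ₂⌋₊ : ℕ) : ℝ) ≤ N := by
      refine (Nat.floor_le (by positivity)).trans ?_
      calc (N : ℝ) ^ κ₂ ≤ (N : ℝ) ^ (1 : ℝ) := Real.rpow_le_rpow_of_exponent_le hNr1 hκ2
        _ = N := Real.rpow_one _
    exact_mod_cast this
  · intro m hm
    obtain ⟨e1, e2⟩ := hab.sa m hm
    exact ⟨(Nat.floor_lt (by positivity)).2 e1, Nat.le_floor e2⟩
  · have h3 : (k : ℝ) ≤ N := by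
      calc (k : ℝ) = 1 * k * 1 := by ring
        _ ≤ (q : ℝ) * k * L ^ (A + 4) := by gcongr
        _ ≤ N := hqk
    exact_mod_cast h3
  · rw [le_div_iff₀ (by positivity)]
    calc (q : ℝ) * (⌊(N : ℝ) ^ κ₂⌋₊ : ℕ) * L ^ (A + 4) ≤
        (N : ℝ) ^ θ * (N : ℝ) ^ κ₂ * (N : ℝ) ^ (1 - θ - κ₂) := by
          gcongr
          exact Nat.floor_le (by positivity)
      _ = N := by
          rw [← Real.rpow_add hN0, ← Real.rpow_add hN0]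
          have : θ + κ₂ + (1 - θ - κ₂) = 1 := by ring
          rw [this, Real.rpow_one]
  · rw [le_div_iff₀ (by positivity)]
    exact hqk
  · rw [div_le_div_iff₀ hk0 (by positivity)]
    exact mul_le_mul_of_nonneg_left hk hN0.le
  · have h3 : L ^ (A + 4) ≤ ((⌊(N : ℝ) ^ κ₁⌋₊ : ℕ) : ℝ) := by
      have h4 : (N : ℝ) ^ κ₁ < ((⌊(N : ℝ) ^ κ₁⌋₊ : ℕ) : ℝ) + 1 := Nat.lt_floor_add_one _
      have h5 : 2 * L ^ (A + 4) ≤ (N : ℝ) ^ κ₁ := by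
        calc 2 * L ^ (A + 4) ≤ L * L ^ (A + 4) := by gcongr
          _ = L ^ (A + 5) := by ring
          _ ≤ _ := hLb
      linarith
    have h4 : (0 : ℝ) < ((⌊(N : ℝ) ^ κ₁⌋₊ : ℕ) : ℝ) := by linarith
    rw [div_le_div_iff₀ h4 (by positivity)]
    exact mul_le_mul_of_nonneg_left h3 hN0.le

theorem majU (A C : ℕ) {κ₁ κ₂ θ : ℝ} (h1 : 0 < κ₁) (h2 : θ + κ₂ ≤ 1) (h3 : κ₂ ≤ 1 / 2) (h4 : θ ≤ 1) :
    ∃ C₃ N₀ : ℕ, ∀ N : ℕ, N₀ ≤ N → ∀ (q : ℕ) [NeZero q], (q : ℝ) ≤ (N : ℝ) ^ θ → ∀ a b : ℕ → ℂ,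
    Cf N κ₁ κ₂ a b → ∃ B : Finset (DirichletCharacter ℂ q), (B.card : ℝ) ≤ Real.log N ^ C₃ ∧
    ∀ η : ℝ, |η| ≤ Real.log N ^ C / N → ∀ y : ℕ, y ≤ N → ∀ S : Finset (DirichletCharacter ℂ q), Disjoint S B →
    ∑ χ ∈ S, ‖cs q y (cnv a b) η χ‖ ^ 2 ≤ (N : ℝ) ^ 2 / Real.log N ^ A := by
  obtain ⟨C₃, N₁, hB⟩ := bilMaj3 Pool.Agent.Y812.GJ.l2 (countK Pool.Agent.Y812.GJ.l2) A C (⌈1 / κ₁⌉₊ + 1) θ κ₁ κ₂ h1
    (by omega) (by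
      have h5 : 1 / κ₁ ≤ ((⌈1 / κ₁⌉₊ : ℕ) : ℝ) := Nat.le_ceil _
      rw [div_le_iff₀ h1] at h5
      push_cast
      linarith) h2 h3 h4
  obtain ⟨N₂, hN₂⟩ := Filter.eventually_atTop.1 (ev_log 1 (s := 1) (by norm_num) 1)
  refine ⟨C₃, max N₁ N₂, fun N hN q _ hq a b hab => ?_⟩
  obtain ⟨hL1, -⟩ := hN₂ N (le_trans (le_max_right _ _) hN)
  have hbd : ∀ x : ℂ, ‖x‖ ≤ 1 → ∀ m ∈ Icc 1 N, ‖x‖ ≤ Real.log N * (m.divisors.card : ℝ) := by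
    intro x hx m hm
    rw [mem_Icc] at hm
    have h5 : (1 : ℝ) ≤ (m.divisors.card : ℝ) := by
      have h6 : 0 < m.divisors.card := card_pos.2 ⟨1, Nat.one_mem_divisors.2 (by omega)⟩
      exact_mod_cast h6
    exact hx.trans (one_le_mul_of_one_le_of_one_le hL1 h5)
  obtain ⟨B, hB1, hB2⟩ := hB N (le_trans (le_max_left _ _) hN) q hq a
    (fun m hm => hbd (a m) (hab.ba m) m hm) (fun m hm => by
      obtain ⟨e1, e2⟩ := hab.sa m hm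
      have : (0 : ℝ) ≤ m := Nat.cast_nonneg m
      exact ⟨by linarith, e2⟩)
  refine ⟨B, hB1, fun η hη y hy S hS => ?_⟩
  rw [sum_cs]
  exact hB2 b (fun m hm => hbd (b m) (hab.bb m) m hm) η hη y hy S hS

end Pool.Agent.H579.L
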