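import Pool.Agent.H579.L.TK
import Pool.Agent.H579.L.MS

set_option autoImplicit false

/-! The primes used, and the passage from `g` to `ω g`. -/

namespace Pool.Agent.H579.L

open Finset
open Pool.Agent.Y614.GJ.Core (ev_log)

open Classical in
/-- the primes used -/
noncomputable def Sp (N : ℕ) (κ₁ κ₂ : ℝ) (q : ℕ) : Finset ℕ :=
  (Icc 1 ⌊(N : ℝ) ^ κ₂⌋₊).filter (fun p => Pp N κ₁ κ₂ q p)

lemma Sp_prop {N q p : ℕ} {κ₁ κ₂ : ℝ} (h : p ∈ Sp N κ₁ κ₂ q) : Pp N κ₁ κ₂ q p := by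
  classical
  unfold Sp at h
  exact (mem_filter.1 h).2

lemma Sp_mem {N q p : ℕ} {κ₁ κ₂ : ℝ} (h : Pp N κ₁ κ₂ q p) : p ∈ Sp N κ₁ κ₂ q := by
  classical
  unfold Sp
  rw [mem_filter, mem_Icc]
  exact ⟨⟨h.1.one_lt.le, Nat.le_floor h.2.2.1⟩, h⟩

lemma Sp_card (N : ℕ) (κ₁ κ₂ : ℝ) (q : ℕ) : ((Sp N κ₁ κ₂ q).card : ℝ) ≤ (N : ℝ) ^ κ₂ := by
  classical
  unfold Sp
  refine le_trans (Nat.cast_le.2 (card_filter_le _ _)) ?_
  rw [Nat.card_Icc, Nat.add_sub_cancel]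
  exact Nat.floor_le (by positivity)

lemma om_eq {N q n : ℕ} {κ₁ κ₂ : ℝ} (hn : n ≠ 0) :
    om N κ₁ κ₂ q n = ((Sp N κ₁ κ₂ q).filter (fun p => p ∣ n)).card := by
  classical
  unfold om
  congr 1
  ext p
  rw [mem_filter, mem_filter, Nat.mem_divisors]
  constructor
  · rintro ⟨⟨h1, -⟩, h3⟩
    exact ⟨Sp_mem h3, h1⟩
  · rintro ⟨h1, h2⟩
    exact ⟨⟨h2, hn⟩, Sp_prop h1⟩

/-- the sum of the reciprocals is large -/
theorem W_low (T : ℝ) (hT : 0 ≤ T) {κ₂ : ℝ} (hκ₂ : 0 < κ₂) : ∃ κ₁ : ℝ, 0 < κ₁ ∧ κ₁ ≤ κ₂ ∧ ∃ N₀ : ℕ, ∀ N : ℕ,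
    N₀ ≤ N → ∀ q : ℕ, 1 ≤ q → q ≤ N → T ≤ ∑ p ∈ Sp N κ₁ κ₂ q, (1 : ℝ) / p := by
  classical
  obtain ⟨C, hC0, hC⟩ := Pool.Agent.Helper923.HMertens.mertens_ratio
  obtain ⟨κ₁, hκ₁d⟩ : ∃ κ₁ : ℝ, κ₁ = κ₂ / (2 * Real.exp (T + 2)) := ⟨_, rfl⟩
  have he1 : 1 ≤ Real.exp (T + 2) := Real.one_le_exp (by linarith)
  have hκ₁ : 0 < κ₁ := by
    rw [hκ₁d]
    positivity
  have hκ12 : κ₁ ≤ κ₂ := by
    rw [hκ₁d]
    exact div_le_self hκ₂.le (by linarith)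
  refine ⟨κ₁, hκ₁, hκ12, ?_⟩
  obtain ⟨N₁, h1⟩ := div_N (ε := κ₁ / 2) (by positivity)
  obtain ⟨N₂, h2⟩ := Filter.eventually_atTop.1 (ev_log 1 (s := κ₁) hκ₁ (4 + 4 * (C + 1) / κ₁ + 4 / κ₂))
  refine ⟨max (max N₁ N₂) 1, fun N hN q hq1 hqN => ?_⟩
  have hNN₁ : N₁ ≤ N := le_trans (le_trans (le_max_left _ _) (le_max_left _ _)) hN
  obtain ⟨hL, hLκ⟩ := h2 N (le_trans (le_trans (le_max_right _ _) (le_max_left _ _)) hN)
  have hN1 : 1 ≤ N := le_trans (le_max_right _ _) hN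
  have hN0 : (0 : ℝ) < N := by exact_mod_cast hN1
  have hNr1 : (1 : ℝ) ≤ N := by exact_mod_cast hN1
  obtain ⟨L, hLd⟩ : ∃ L, L = Real.log (N : ℝ) := ⟨_, rfl⟩
  rw [← hLd, pow_one] at hLκ
  rw [← hLd] at hL
  have t1 : 0 ≤ 4 * (C + 1) / κ₁ := by positivity
  have t2 : 0 ≤ 4 / κ₂ := by positivity
  have hL4 : 4 ≤ L := by linarith
  have hL1 : 4 * (C + 1) ≤ κ₁ * L := by
    have : 4 * (C + 1) / κ₁ ≤ L := by linarith
    rw [div_le_iff₀ hκ₁] at this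
    linarith
  have hL2 : 4 ≤ κ₂ * L := by
    have : 4 / κ₂ ≤ L := by linarith
    rw [div_le_iff₀ hκ₂] at this
    linarith
  obtain ⟨a, ha⟩ : ∃ a : ℕ, a = ⌊(N : ℝ) ^ κ₁⌋₊ := ⟨_, rfl⟩
  obtain ⟨b, hb⟩ : ∃ b : ℕ, b = ⌊(N : ℝ) ^ κ₂⌋₊ := ⟨_, rfl⟩
  have hN1κ : (4 : ℝ) ≤ (N : ℝ) ^ κ₁ := hL4.trans hLκ
  have hNκ12 : (N : ℝ) ^ κ₁ ≤ (N : ℝ) ^ κ₂ := Real.rpow_le_rpow_of_exponent_le hNr1 hκ12
  have hfa : (N : ℝ) ^ κ₁ < a + 1 := by rw [ha]; exact Nat.lt_floor_add_one _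
  have hfb : (N : ℝ) ^ κ₂ < b + 1 := by rw [hb]; exact Nat.lt_floor_add_one _
  have hfa' : (a : ℝ) ≤ (N : ℝ) ^ κ₁ := by rw [ha]; exact Nat.floor_le (by positivity)
  have ha2 : 2 ≤ a := by
    rw [ha]
    apply Nat.le_floor
    push_cast
    linarith
  have hab : a ≤ b := by
    rw [ha, hb]
    exact Nat.floor_le_floor hNκ12
  have ha0 : (0 : ℝ) < a := by
    have : 0 < a := by omega
    exact_mod_cast this
  have hb0 : (0 : ℝ) < b := by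
    have : 0 < b := by omega
    exact_mod_cast this
  have hlog2 : Real.log 2 ≤ 1 := by
    have := Real.log_two_lt_d9
    linarith
  have hla : Real.log a ≤ κ₁ * L := by
    rw [hLd, ← Real.log_rpow hN0]
    exact Real.log_le_log ha0 hfa'
  have hla' : κ₁ * L - 1 ≤ Real.log a := by
    have h3 : (N : ℝ) ^ κ₁ ≤ 2 * a := by linarith
    have h4 := Real.log_le_log (by positivity) h3
    rw [Real.log_rpow hN0, Real.log_mul (by norm_num) ha0.ne', ← hLd] at h4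
    linarith
  have hlb' : κ₂ * L - 1 ≤ Real.log b := by
    have h3 : (N : ℝ) ^ κ₂ ≤ 2 * b := by
      have : (a : ℝ) ≤ b := by exact_mod_cast hab
      have : (2 : ℝ) ≤ a := by exact_mod_cast ha2
      linarith
    have h4 := Real.log_le_log (by positivity) h3
    rw [Real.log_rpow hN0, Real.log_mul (by norm_num) hb0.ne', ← hLd] at h4
    linarith
  have hla0 : 0 < Real.log a := by nlinarith
  have hm := hC a b ha2 hab
  rw [abs_le] at hm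
  have hCa : C / Real.log a ≤ 1 := by
    rw [div_le_one hla0]
    nlinarith
  have hratio : T + 2 ≤ Real.log (Real.log b / Real.log a) := by
    rw [Real.le_log_iff_exp_le (div_pos (by nlinarith) hla0), le_div_iff₀ hla0]
    have h5 : Real.exp (T + 2) * (κ₁ * L) = κ₂ * L / 2 := by
      rw [hκ₁d]
      field_simp
    calc Real.exp (T + 2) * Real.log a ≤ Real.exp (T + 2) * (κ₁ * L) := by gcongr
      _ = κ₂ * L / 2 := h5
      _ ≤ κ₂ * L - 1 := by linarith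
      _ ≤ _ := hlb'
  have hsub : (Ioc a b).filter Nat.Prime ⊆ Sp N κ₁ κ₂ q ∪ q.divisors.filter (fun p : ℕ => (N : ℝ) ^ κ₁ < p) := by
    intro p hp
    rw [mem_filter, mem_Ioc] at hp
    have h6 : (N : ℝ) ^ κ₁ < p := by
      have : (a : ℝ) + 1 ≤ p := by exact_mod_cast hp.1.1
      linarith
    have h7 : (p : ℝ) ≤ (N : ℝ) ^ κ₂ := by
      have h8 : (p : ℝ) ≤ b := by exact_mod_cast hp.1.2
      rw [hb] at h8
      exact h8.trans (Nat.floor_le (by positivity))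
    rw [mem_union]
    by_cases hpq : p ∣ q
    · right
      rw [mem_filter, Nat.mem_divisors]
      exact ⟨⟨hpq, by omega⟩, h6⟩
    · left
      exact Sp_mem ⟨hp.2, h6, h7, hpq⟩
  have h9 : ∑ p ∈ (Ioc a b).filter Nat.Prime, (1 : ℝ) / p ≤ ∑ p ∈ Sp N κ₁ κ₂ q, (1 : ℝ) / p +
      ∑ p ∈ q.divisors.filter (fun p : ℕ => (N : ℝ) ^ κ₁ < p), (1 : ℝ) / p := by
    refine (sum_le_sum_of_subset_of_nonneg hsub fun _ _ _ => by positivity).trans ?_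
    rw [← sum_union_inter]
    have : 0 ≤ ∑ p ∈ Sp N κ₁ κ₂ q ∩ q.divisors.filter (fun p : ℕ => (N : ℝ) ^ κ₁ < p), (1 : ℝ) / p :=
      sum_nonneg fun _ _ => by positivity
    linarith
  have h10 : ∑ p ∈ q.divisors.filter (fun p : ℕ => (N : ℝ) ^ κ₁ < p), (1 : ℝ) / p ≤ 1 := by
    calc ∑ p ∈ q.divisors.filter (fun p : ℕ => (N : ℝ) ^ κ₁ < p), (1 : ℝ) / p ≤
        ∑ p ∈ q.divisors.filter (fun p : ℕ => (N : ℝ) ^ κ₁ < p), 1 / (N : ℝ) ^ κ₁ := by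
          refine sum_le_sum fun p hp => ?_
          rw [mem_filter] at hp
          exact one_div_le_one_div_of_le (by positivity) hp.2.le
      _ = ((q.divisors.filter (fun p : ℕ => (N : ℝ) ^ κ₁ < p)).card : ℝ) * (1 / (N : ℝ) ^ κ₁) := by
          rw [sum_const, nsmul_eq_mul]
      _ ≤ (N : ℝ) ^ (κ₁ / 2) * (1 / (N : ℝ) ^ κ₁) := by
          gcongr
          exact le_trans (Nat.cast_le.2 (card_filter_le _ _)) (h1 N hNN₁ q hq1 hqN)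
      _ ≤ (N : ℝ) ^ κ₁ * (1 / (N : ℝ) ^ κ₁) := by
          gcongr
          linarith
      _ = 1 := by
          have : (0 : ℝ) < (N : ℝ) ^ κ₁ := by positivity
          field_simp
  obtain ⟨hm1, -⟩ := hm
  linarith

/-- a large sum with `g` gives a large sum with `ω g` at a point of the grid -/
lemma grid_bad {g : ℕ → ℂ} (hg : Cm g) {N q q₁ h s y : ℕ} {κ₁ κ₂ ε Y : ℝ} {w : ℕ → ℂ} (hw : ∀ n, ‖w n‖ ≤ 1)
    (hq₁ : 1 ≤ q₁) (hSq : ∀ p ∈ Sp N κ₁ κ₂ q, ¬ p ∣ q₁) (hε : 0 < ε) (hε1 : ε ≤ 1)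
    (hW : 8 / ε ^ 2 ≤ ∑ p ∈ Sp N κ₁ κ₂ q, (1 : ℝ) / p)
    (hS : 3 * ((Sp N κ₁ κ₂ q).card : ℝ) ^ 2 ≤ Y) (hs0 : 1 ≤ s) (hs : (s : ℝ) ≤ ε * Y / 4) (hyY : (y : ℝ) ≤ Y)
    (hbad : ε * Y < ‖∑ m ∈ Icc 1 y, w m * g (q₁ * m + h)‖) :
    Y ≤ ‖∑ m ∈ Icc 1 (s * (y / s)), w m * cnv (ap N κ₁ κ₂ g q) g (q₁ * m + h)‖ := by
  obtain ⟨y', hy'⟩ : ∃ y', y' = s * (y / s) := ⟨_, rfl⟩
  have hy'y : y' ≤ y := by
    rw [hy']
    exact Nat.mul_div_le _ _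
  have hyy' : y < y' + s := by
    rw [hy']
    have := Nat.lt_mul_div_succ y (show 0 < s by omega)
    linarith
  have hY0 : 0 ≤ Y := (Nat.cast_nonneg y).trans hyY
  obtain ⟨W, hWd⟩ : ∃ W, W = ∑ p ∈ Sp N κ₁ κ₂ q, (1 : ℝ) / p := ⟨_, rfl⟩
  rw [← hWd] at hW
  have hε2 : ε ^ 2 ≤ 1 := pow_le_one₀ hε.le hε1
  have hW8 : 8 ≤ W := by
    refine le_trans ?_ hW
    rw [le_div_iff₀ (by positivity)]
    linarith
  have hWε : 8 ≤ W * ε ^ 2 := by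
    rwa [div_le_iff₀ (by positivity)] at hW
  rw [← hy']
  -- from `y` to `y'`
  have h1 : ‖∑ m ∈ Icc 1 y, w m * g (q₁ * m + h)‖ ≤ ‖∑ m ∈ Icc 1 y', w m * g (q₁ * m + h)‖ + s := by
    have h2 : ∑ m ∈ Icc 1 y, w m * g (q₁ * m + h) = ∑ m ∈ Icc 1 y', w m * g (q₁ * m + h) +
        ∑ m ∈ Ioc y' y, w m * g (q₁ * m + h) := by
      have e1 : Icc 1 y = Ioc 0 y := by ext; simp [Nat.lt_iff_add_one_le]
      have e2 : Icc 1 y' = Ioc 0 y' := by ext; simp [Nat.lt_iff_add_one_le]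
      rw [e1, e2]
      exact (sum_Ioc_consecutive _ (Nat.zero_le _) hy'y).symm
    rw [h2]
    refine (norm_add_le _ _).trans (add_le_add le_rfl ?_)
    calc ‖∑ m ∈ Ioc y' y, w m * g (q₁ * m + h)‖ ≤ ∑ m ∈ Ioc y' y, (1 : ℝ) := by
          refine (norm_sum_le _ _).trans (sum_le_sum fun m _ => ?_)
          rw [norm_mul]
          exact mul_le_one₀ (hw m) (norm_nonneg _) (hg.bd _)
      _ = ((y - y' : ℕ) : ℝ) := by rw [sum_const, Nat.card_Ioc, nsmul_eq_mul, mul_one]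
      _ ≤ s := by
          have : y - y' ≤ s := by omega
          exact_mod_cast this
  -- from `g` to `ω g`
  have h3 : W * ‖∑ m ∈ Icc 1 y', w m * g (q₁ * m + h)‖ ≤
      ‖∑ m ∈ Icc 1 y', w m * cnv (ap N κ₁ κ₂ g q) g (q₁ * m + h)‖ + Y * Real.sqrt (2 * W) := by
    have e1 : (W : ℂ) * ∑ m ∈ Icc 1 y', w m * g (q₁ * m + h) =
        ∑ m ∈ Icc 1 y', w m * cnv (ap N κ₁ κ₂ g q) g (q₁ * m + h) -
        ∑ m ∈ Icc 1 y', w m * g (q₁ * m + h) * (((((Sp N κ₁ κ₂ q).filter (fun p => p ∣ q₁ * m + h)).card : ℕ) : ℂ) - W) := by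
      rw [mul_sum, ← sum_sub_distrib]
      refine sum_congr rfl fun m hm => ?_
      rw [mem_Icc] at hm
      have : q₁ * m + h ≠ 0 := by
        have := Nat.mul_pos hq₁ hm.1
        omega
      rw [cnv_ap hg, om_eq this]
      ring
    have e2 : W * ‖∑ m ∈ Icc 1 y', w m * g (q₁ * m + h)‖ = ‖(W : ℂ) * ∑ m ∈ Icc 1 y', w m * g (q₁ * m + h)‖ := by
      rw [norm_mul, Complex.norm_real, Real.norm_of_nonneg (by linarith)]
    rw [e2, e1]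
    refine (norm_sub_le _ _).trans (add_le_add le_rfl ?_)
    have h4 := tk_abs (q := q₁) h y' (Sp N κ₁ κ₂ q) (fun p hp => (Sp_prop hp).1) hSq
      (Y := Y) (le_trans (by exact_mod_cast hy'y) hyY) hS (by rw [← hWd]; linarith)
    rw [← hWd] at h4
    refine le_trans ?_ h4
    refine (norm_sum_le _ _).trans (sum_le_sum fun m _ => ?_)
    rw [norm_mul]
    have e3 : ‖(((((Sp N κ₁ κ₂ q).filter (fun p => p ∣ q₁ * m + h)).card : ℕ) : ℂ) - W)‖ =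
        |((((Sp N κ₁ κ₂ q).filter (fun p => p ∣ q₁ * m + h)).card : ℕ) : ℝ) - W| := by
      rw [← Real.norm_eq_abs, ← Complex.norm_real]
      congr 1
      push_cast
      rfl
    rw [e3]
    refine mul_le_of_le_one_left (abs_nonneg _) ?_
    rw [norm_mul]
    exact mul_le_one₀ (hw m) (norm_nonneg _) (hg.bd _)
  have h5 : Real.sqrt (2 * W) ≤ W * ε / 2 := by
    apply Real.sqrt_le_iff.2
    refine ⟨by positivity, ?_⟩
    nlinarith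
  have h6 : ε * Y * (3 / 4) ≤ ‖∑ m ∈ Icc 1 y', w m * g (q₁ * m + h)‖ := by linarith
  have h7 : W * (ε * Y * (3 / 4)) ≤ W * ‖∑ m ∈ Icc 1 y', w m * g (q₁ * m + h)‖ := by gcongr
  have h8 : Y * Real.sqrt (2 * W) ≤ Y * (W * ε / 2) := by gcongr
  have h9 : 4 ≤ W * ε := by
    have : W * ε ^ 2 ≤ W * ε := by
      have : ε ^ 2 ≤ ε := by nlinarith
      gcongr
    linarith
  have h10 : Y * 4 ≤ Y * (W * ε) := by gcongr
  nlinarith

end Pool.Agent.H579.L
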